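import Pool.Agent.K7.H60.TL.Ru
import Pool.Agent.H256R2.SC.R

/-!
Runs of composite numbers of length `c log x log log x` in almost all intervals of length
`exp ((log x) ^ θ)`.
-/

set_option autoImplicit false
set_option linter.unusedSectionVars false

namespace Pool.Agent.K7.H60.TL

open Finset Filter Pool.Agent.H256R2.SC

open scoped Classical

theorem ev_log_rpow (K s : ℝ) (hs : 0 < s) : ∀ᶠ L : ℝ in atTop, K * Real.log L ≤ L ^ s := by
  have h := (isLittleO_log_rpow_atTop hs).bound (show (0 : ℝ) < 1 / (|K| + 1) by positivity)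
  filter_upwards [h, eventually_ge_atTop (1 : ℝ)] with L hL hL1
  have h1 : 0 ≤ Real.log L := Real.log_nonneg hL1
  have h2 : 0 ≤ L ^ s := by positivity
  rw [Real.norm_of_nonneg h1, Real.norm_of_nonneg h2] at hL
  have h3 : K * Real.log L ≤ (|K| + 1) * Real.log L :=
    mul_le_mul_of_nonneg_right (by linarith [le_abs_self K]) h1
  have h4 : (|K| + 1) * Real.log L ≤ (|K| + 1) * (1 / (|K| + 1) * L ^ s) :=
    mul_le_mul_of_nonneg_left hL (by positivity)
  have h5 : (|K| + 1) * (1 / (|K| + 1) * L ^ s) = L ^ s := by field_simp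
  linarith

theorem ev_rpow_ge (K s : ℝ) (hs : 0 < s) : ∀ᶠ L : ℝ in atTop, K ≤ L ^ s :=
  (tendsto_rpow_atTop hs).eventually_ge_atTop K

theorem primorial_prod (H : ℕ) : ((∏ p ∈ (Icc 1 H).filter Nat.Prime, p : ℕ) : ℝ) ≤
    Real.exp (2 * H) := by
  have h1 : (∏ p ∈ (Icc 1 H).filter Nat.Prime, p) = primorial H := by
    unfold primorial
    apply prod_congr _ (fun _ _ => rfl)
    ext p
    simp only [mem_filter, mem_Icc, mem_range]
    constructor
    · rintro ⟨⟨_, h⟩, hp⟩; exact ⟨by omega, hp⟩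
    · rintro ⟨h, hp⟩; exact ⟨⟨hp.pos, by omega⟩, hp⟩
  rw [h1]
  have h2 : (primorial H : ℝ) ≤ 4 ^ H := by exact_mod_cast primorial_le_four_pow H
  refine h2.trans ?_
  have h3 : (4 : ℝ) ≤ Real.exp 2 := by
    have h4 : (2 : ℝ) ≤ Real.exp 1 := by have := Real.exp_one_gt_d9; linarith
    have h5 : Real.exp 2 = (Real.exp 1) ^ 2 := by rw [← Real.exp_nat_mul]; norm_num
    rw [h5]
    nlinarith
  calc (4 : ℝ) ^ H ≤ (Real.exp 2) ^ H := pow_le_pow_left₀ (by norm_num) h3 H
    _ = Real.exp (2 * H) := by rw [← Real.exp_nat_mul]; ring_nf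

theorem dyadic1 (θ : ℝ) (hθ : 0 < θ) (hθ1 : θ < 1) (A : ℕ) : ∃ c : ℝ, 0 < c ∧
    ∃ X₀ : ℝ, ∀ X : ℕ, X₀ ≤ X →
      (((Ico X (2 * X)).filter (fun x : ℕ => ¬ ∃ n m : ℕ, x < n ∧
        (m : ℝ) ≤ x + Real.exp ((Real.log x) ^ θ) ∧
        c * Real.log x * Real.log (Real.log x) ≤ (m : ℝ) - n ∧
        ∀ k ∈ Icc n m, ¬ k.Prime)).card : ℝ) ≤ X / (Real.log X) ^ A := by
  obtain ⟨c, C5, C6, hc, hC5, hC6, X₀, hX₀⟩ := runs (θ / 2) (by positivity) A
  obtain ⟨CM, hCM, hmert⟩ := Pool.Agent.H256R2.SC.G3.mertens_prod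
  set c₁ : ℝ := min 1 (c * θ / (4 * Real.exp CM)) with hc₁
  have hc₁0 : 0 < c₁ := lt_min one_pos (by positivity)
  have hc₁1 : c₁ ≤ 1 := min_le_left _ _
  have hc₁2 : c₁ ≤ c * θ / (4 * Real.exp CM) := min_le_right _ _
  have hev : ∀ᶠ L : ℝ in atTop, (10 ≤ L ∧ 2 ≤ L ^ (θ / 4) ∧
      C6 * Real.log L ≤ L ^ (1 - θ / 2) ∧ (C5 + 8) * Real.log L ≤ L ^ (θ / 2) ∧
      2 ≤ L ^ (1 - θ) ∧ 4 / c₁ ≤ L ∧ 1 ≤ Real.log L ∧ 3 ≤ L ^ (θ / 2)) := by
    refine (eventually_ge_atTop _).and ((ev_rpow_ge 2 (θ / 4) (by positivity)).and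
      ((ev_log_rpow C6 (1 - θ / 2) (by linarith)).and
      ((ev_log_rpow (C5 + 8) (θ / 2) (by positivity)).and
      ((ev_rpow_ge 2 (1 - θ) (by linarith)).and ((eventually_ge_atTop _).and
      ((Real.tendsto_log_atTop.eventually_ge_atTop 1).and
      (ev_rpow_ge 3 (θ / 2) (by positivity))))))))
  obtain ⟨L₀, hL₀⟩ := eventually_atTop.1 hev
  refine ⟨c₁ / 8, by positivity, max X₀ (max (Real.exp L₀) 1), ?_⟩
  intro X hX
  have hX1 : X₀ ≤ X := (le_max_left _ _).trans hX
  have hX2 : Real.exp L₀ ≤ X := (le_max_left _ _).trans ((le_max_right _ _).trans hX)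
  have hXpos : (0 : ℝ) < X := (Real.exp_pos _).trans_le hX2
  set L : ℝ := Real.log X with hL
  have hXL : (X : ℝ) = Real.exp L := (Real.exp_log hXpos).symm
  have hLL : L₀ ≤ L := by
    rw [hL, ← Real.log_exp L₀]
    exact Real.log_le_log (Real.exp_pos _) hX2
  obtain ⟨f1, f2, f3, f4, f5, f6, f7, f8⟩ := hL₀ L hLL
  set l : ℝ := Real.log L with hl
  have hLpos : 0 < L := by linarith
  have hl0 : 0 < l := by linarith
  have hlL : l ≤ L := by
    have := Real.log_le_sub_one_of_pos hLpos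
    linarith
  -- the primes
  set H : ℕ := ⌊L ^ (θ / 2)⌋₊ with hH
  have hH1 : (H : ℝ) ≤ L ^ (θ / 2) := Nat.floor_le (by positivity)
  have hH2 : L ^ (θ / 2) < H + 1 := Nat.lt_floor_add_one _
  have hsq : L ^ (θ / 2) = L ^ (θ / 4) * L ^ (θ / 4) := by
    rw [← Real.rpow_add hLpos]; congr 1; ring
  have hH3 : L ^ (θ / 4) ≤ H := by nlinarith
  have hH4 : 3 ≤ H := Nat.le_floor (by exact_mod_cast f8)
  have hlogH : θ / 4 * l ≤ Real.log H := by
    rw [hl, ← Real.log_rpow hLpos]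
    exact Real.log_le_log (by positivity) hH3
  have hlogH0 : 0 < Real.log H := lt_of_lt_of_le (by positivity) hlogH
  have hHL : L ^ (θ / 2) ≤ L := by
    calc L ^ (θ / 2) ≤ L ^ (1 : ℝ) := Real.rpow_le_rpow_of_exponent_le (by linarith) (by linarith)
      _ = L := Real.rpow_one L
  set P0 : Finset ℕ := (Icc 1 H).filter Nat.Prime with hP0
  set N : ℕ := ⌊c₁ * L * l⌋₊ with hN
  have hcLl : 0 ≤ c₁ * L * l := by positivity
  have hN1 : (N : ℝ) ≤ c₁ * L * l := Nat.floor_le hcLl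
  have hN2 : c₁ * L * l < N + 1 := Nat.lt_floor_add_one _
  have hNL : (N : ℝ) ≤ L ^ 2 := by
    calc (N : ℝ) ≤ c₁ * L * l := hN1
      _ ≤ 1 * L * L := by
          apply mul_le_mul _ hlL hl0.le (by positivity)
          exact mul_le_mul_of_nonneg_right hc₁1 hLpos.le
      _ = L ^ 2 := by ring
  -- survivors
  obtain ⟨e, -, he⟩ := greedy_all P0 (fun p hp => (mem_filter.1 hp).2) (Icc 1 N)
  have hprod : ∏ p ∈ P0, (1 - 1 / (p : ℝ)) ≤ Real.exp CM / Real.log H := by
    have := hmert H hH4 ∅ (by simp)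
    simpa using this
  have hcard : (((Icc 1 N).filter (fun k => ∀ p ∈ P0, ¬ k ≡ e p [MOD p])).card : ℝ) ≤
      c * L := by
    refine he.trans ?_
    rw [Nat.card_Icc, Nat.add_sub_cancel]
    calc (N : ℝ) * ∏ p ∈ P0, (1 - 1 / (p : ℝ)) ≤ (c₁ * L * l) * (Real.exp CM / (θ / 4 * l)) := by
          apply mul_le_mul hN1 _ _ hcLl
          · refine hprod.trans ?_
            apply div_le_div_of_nonneg_left (Real.exp_pos _).le (by positivity) hlogH
          · apply Finset.prod_nonneg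
            intro p hp
            have h1 : (1 : ℝ) ≤ p := by exact_mod_cast (mem_filter.1 hp).2.one_lt.le
            have : 1 / (p : ℝ) ≤ 1 := by rw [div_le_one (by linarith)]; exact h1
            linarith
      _ = c₁ * (4 * Real.exp CM / θ) * L := by field_simp
      _ ≤ (c * θ / (4 * Real.exp CM)) * (4 * Real.exp CM / θ) * L := by
          apply mul_le_mul_of_nonneg_right _ hLpos.le
          exact mul_le_mul_of_nonneg_right hc₁2 (by positivity)
      _ = c * L := by field_simp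
  set Y : ℕ := ⌊Real.exp (L ^ θ) / 2⌋₊ with hY
  have hY1 : (Y : ℝ) ≤ Real.exp (L ^ θ) / 2 := Nat.floor_le (by positivity)
  have hθθ : L ^ θ = L ^ (θ / 2) * L ^ (θ / 2) := by
    rw [← Real.rpow_add hLpos]; congr 1; ring
  have hexp1 : (C5 + 8) * l * L ^ (θ / 2) ≤ L ^ θ := by
    rw [hθθ]
    exact mul_le_mul_of_nonneg_right f4 (by positivity)
  have hL2 : L ^ 2 = Real.exp (2 * l) := by
    rw [hl, mul_comm, Real.exp_mul, Real.exp_log hLpos]
    norm_num
  have hN3 : (N : ℝ) + 1 ≤ Real.exp (3 * l) := by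
    have h1 : Real.exp (3 * l) = L * L ^ 2 := by
      have h2 : Real.exp (3 * l) = L ^ 3 := by
        rw [hl, mul_comm, Real.exp_mul, Real.exp_log hLpos]
        norm_num
      rw [h2]; ring
    rw [h1]
    have h3 : 10 * L ^ 2 ≤ L * L ^ 2 := mul_le_mul_of_nonneg_right f1 (sq_nonneg L)
    have h4 : 1 ≤ L ^ 2 := one_le_pow₀ (by linarith)
    linarith
  have hlθ : l ≤ l * L ^ (θ / 2) := le_mul_of_one_le_right hl0.le (by linarith)
  have hθ0 : 0 ≤ L ^ (θ / 2) := by positivity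
  have hlθ2 : L ^ (θ / 2) ≤ l * L ^ (θ / 2) := le_mul_of_one_le_left hθ0 f7
  have hY2 : Real.exp ((C5 + 6) * l * L ^ (θ / 2)) ≤ Y := by
    have h1 : Real.exp ((C5 + 6) * l * L ^ (θ / 2)) + 1 ≤ Real.exp (L ^ θ) / 2 := by
      have h2 : Real.exp ((C5 + 6) * l * L ^ (θ / 2) + 2) ≤ Real.exp (L ^ θ) := by
        apply Real.exp_le_exp.mpr
        nlinarith
      have h3 : 1 ≤ Real.exp ((C5 + 6) * l * L ^ (θ / 2)) := Real.one_le_exp (by positivity)
      have h4 : (4 : ℝ) ≤ Real.exp 2 := by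
        have h4 : (2 : ℝ) ≤ Real.exp 1 := by have := Real.exp_one_gt_d9; linarith
        have h5 : Real.exp 2 = (Real.exp 1) ^ 2 := by rw [← Real.exp_nat_mul]; norm_num
        rw [h5]
        nlinarith
      rw [Real.exp_add] at h2
      have h5 := mul_le_mul_of_nonneg_left h4 (by linarith : 0 ≤ Real.exp ((C5 + 6) * l * L ^ (θ / 2)))
      linarith
    have h2 : Real.exp (L ^ θ) / 2 < Y + 1 := Nat.lt_floor_add_one _
    linarith
  have hLA : ∀ j : ℕ, 3 ≤ j → Real.exp (3 * l) ≤ L ^ j := by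
    intro j hj
    have h1 : Real.exp (3 * l) = L ^ 3 := by
      rw [hl, mul_comm, Real.exp_mul, Real.exp_log hLpos]
      norm_num
    rw [h1]
    exact pow_le_pow_right₀ (by linarith) hj
  have hmain := hX₀ X hX1 P0 e N Y (L ^ (1 - θ / 2))
    (by
      intro p hp
      have hp1 := (mem_filter.1 hp)
      refine ⟨hp1.2, ?_⟩
      have h1 : (p : ℝ) ≤ H := by exact_mod_cast (mem_Icc.1 hp1.1).2
      have h2 : (p : ℝ) < X := by
        have := Real.add_one_le_exp L
        rw [hXL]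
        linarith
      exact_mod_cast h2)
    (by
      intro p hp
      have hp1 := (mem_filter.1 hp)
      have h1 : (p : ℝ) ≤ H := by exact_mod_cast (mem_Icc.1 hp1.1).2
      calc (p : ℝ) ≤ L := by linarith
        _ ≤ L ^ (A + 10) := le_self_pow₀ (by linarith) (by omega))
    (hN3.trans (hLA _ (by omega)))
    hcard f3 le_rfl
    (by
      refine le_trans ?_ hY2
      have h1 : L / L ^ (1 - θ / 2) = L ^ (θ / 2) := by
        rw [div_eq_iff (by positivity), ← Real.rpow_add hLpos]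
        rw [show θ / 2 + (1 - θ / 2) = 1 by ring, Real.rpow_one]
      rw [h1]
      have h2 : ((∏ p ∈ P0, p : ℕ) : ℝ) ≤ Real.exp (2 * (l * L ^ (θ / 2))) := by
        refine (primorial_prod H).trans (Real.exp_le_exp.mpr ?_)
        linarith
      have h3 : (N : ℝ) + 1 ≤ Real.exp (3 * (l * L ^ (θ / 2))) := by
        refine hN3.trans (Real.exp_le_exp.mpr ?_)
        linarith
      calc ((∏ p ∈ P0, p : ℕ) : ℝ) * (N + 1) * Real.exp (C5 * l * L ^ (θ / 2)) ≤
            Real.exp (2 * (l * L ^ (θ / 2))) * Real.exp (3 * (l * L ^ (θ / 2))) *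
              Real.exp (C5 * l * L ^ (θ / 2)) := by
            apply mul_le_mul_of_nonneg_right _ (Real.exp_pos _).le
            exact mul_le_mul h2 h3 (by positivity) (Real.exp_pos _).le
        _ = Real.exp ((C5 + 5) * l * L ^ (θ / 2)) := by
            rw [← Real.exp_add, ← Real.exp_add]; congr 1; ring
        _ ≤ _ := by
            apply Real.exp_le_exp.mpr
            have : 0 ≤ l * L ^ (θ / 2) := by positivity
            nlinarith)
    (by
      have h1 : L ^ θ ≤ L / 2 := by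
        have h2 : L = L ^ θ * L ^ (1 - θ) := by
          rw [← Real.rpow_add hLpos]
          rw [show θ + (1 - θ) = 1 by ring, Real.rpow_one]
        have h3 : L ^ θ * 2 ≤ L ^ θ * L ^ (1 - θ) := mul_le_mul_of_nonneg_left f5 (by positivity)
        linarith
      have h4 := Real.exp_le_exp.mpr h1
      have h5 := Real.exp_pos (L ^ θ)
      linarith)
  refine le_trans ?_ hmain
  apply Nat.cast_le.mpr
  apply card_le_card
  intro x hx
  rw [mem_filter, mem_Ico] at hx
  rw [mem_filter, mem_Ico]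
  refine ⟨hx.1, ?_⟩
  rintro ⟨n, hn1, hn2, hn3⟩
  apply hx.2
  have hxX : (X : ℝ) ≤ x := by exact_mod_cast hx.1.1
  have hx2X : (x : ℝ) ≤ 2 * X := by exact_mod_cast hx.1.2.le
  have hx0 : (0 : ℝ) < x := by linarith
  have hlogx : L ≤ Real.log x := Real.log_le_log hXpos hxX
  have hlogx2 : Real.log x ≤ 2 * L := by
    have h1 : Real.log x ≤ Real.log (2 * X) := Real.log_le_log hx0 hx2X
    rw [Real.log_mul (by norm_num) hXpos.ne'] at h1
    have := Real.log_two_lt_d9
    linarith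
  have hllx : Real.log (Real.log x) ≤ 2 * l := by
    have h1 : Real.log (Real.log x) ≤ Real.log (2 * L) := Real.log_le_log (by linarith) hlogx2
    rw [Real.log_mul (by norm_num) hLpos.ne'] at h1
    have := Real.log_two_lt_d9
    linarith
  refine ⟨n + 1, n + N, by omega, ?_, ?_, ?_⟩
  · have h1 : ((n + N : ℕ) : ℝ) ≤ x + Y + N := by
      push_cast
      have : (n : ℝ) ≤ x + Y := by exact_mod_cast hn2
      linarith
    have h2 : (N : ℝ) ≤ Real.exp (L ^ θ) / 2 := by
      have h3 : Real.exp (3 * l) ≤ Real.exp ((C5 + 6) * l * L ^ (θ / 2)) := by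
        apply Real.exp_le_exp.mpr
        have : 0 ≤ l * L ^ (θ / 2) := by positivity
        nlinarith
      linarith
    have h3 : Real.exp (L ^ θ) ≤ Real.exp ((Real.log x) ^ θ) :=
      Real.exp_le_exp.mpr (Real.rpow_le_rpow hLpos.le hlogx hθ.le)
    linarith
  · push_cast
    have h1 : c₁ / 8 * Real.log x * Real.log (Real.log x) ≤ c₁ / 8 * (2 * L) * (2 * l) := by
      apply mul_le_mul _ hllx _ (by positivity)
      · exact mul_le_mul_of_nonneg_left hlogx2 (by positivity)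
      · apply Real.log_nonneg; linarith
    have h2 : 4 ≤ c₁ * L * l := by
      have h3 : 4 ≤ c₁ * L := by
        rw [div_le_iff₀ hc₁0] at f6
        linarith
      have h4 : 4 * 1 ≤ (c₁ * L) * l := mul_le_mul h3 f7 (by norm_num) (by positivity)
      linarith
    linarith
  · intro k hk
    rw [mem_Icc] at hk
    have h1 := hn3 (k - n) (by rw [mem_Icc]; omega)
    rwa [show n + (k - n) = k by omega] at h1

/-- Runs of length `c log x log log x` in almost all very short intervals. -/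
theorem runs_very_short (θ : ℝ) (hθ : 0 < θ) (hθ1 : θ < 1) (A : ℕ) : ∃ c : ℝ, 0 < c ∧
    ∃ X₀ : ℕ, ∀ X : ℕ, X₀ ≤ X →
      (((range X).filter (fun x : ℕ => ¬ ∃ n m : ℕ, x < n ∧
        (m : ℝ) ≤ x + Real.exp ((Real.log x) ^ θ) ∧
        c * Real.log x * Real.log (Real.log x) ≤ (m : ℝ) - n ∧
        ∀ k ∈ Icc n m, ¬ k.Prime)).card : ℝ) ≤ X / (Real.log X) ^ A := by
  obtain ⟨c, hc, h⟩ := dyadic1 θ hθ hθ1 (A + 1)
  exact ⟨c, hc, dyadic_to_range (fun x : ℕ => ∃ n m : ℕ, x < n ∧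
        (m : ℝ) ≤ x + Real.exp ((Real.log x) ^ θ) ∧
        c * Real.log x * Real.log (Real.log x) ≤ (m : ℝ) - n ∧
        ∀ k ∈ Icc n m, ¬ k.Prime) A h⟩

end Pool.Agent.K7.H60.TL
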