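import Pool.Agent.H398R2.RK.Surv2

/-!
Rankin's choice of residue classes modulo the primes up to `y`, for intervals of length up to
`y (log y) ^ E` with any fixed `E`.
-/

set_option autoImplicit false
set_option linter.unusedSectionVars false

namespace Pool.Agent.K7.H60.TL

open Finset Filter Pool.Agent.H318R2.Cr Pool.Agent.H398R2.RK

open scoped Classical

theorem ev_survE (E : ℕ) : ∃ t₀ : ℝ, ∀ t : ℝ, t₀ ≤ t → 1 ≤ t ∧ 1 ≤ Real.log t ∧
    10 * E * t ^ 2 ≤ Real.exp t ∧ 100 ≤ Real.exp t ∧ Real.log t ≤ t ∧ E * t ≤ Real.exp t := by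
  have h1 : ∀ᶠ t : ℝ in atTop, 10 * E * t ^ 2 ≤ Real.exp t := by
    have h := (Real.isLittleO_pow_exp_atTop (n := 2)).bound
      (show (0 : ℝ) < 1 / (10 * E + 1) by positivity)
    filter_upwards [h, eventually_ge_atTop (1 : ℝ)] with t ht ht1
    rw [Real.norm_of_nonneg (by positivity), Real.norm_of_nonneg (Real.exp_pos _).le,
      div_mul_eq_mul_div, one_mul, le_div_iff₀ (by positivity)] at ht
    nlinarith [sq_nonneg t]
  have h := (eventually_ge_atTop (1 : ℝ)).and
    ((Real.tendsto_log_atTop.eventually_ge_atTop 1).and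
    (h1.and (Real.tendsto_exp_atTop.eventually_ge_atTop 100)))
  obtain ⟨t₀, ht⟩ := eventually_atTop.1 h
  refine ⟨t₀, fun t h0 => ?_⟩
  obtain ⟨h1, h2, h3, h4⟩ := ht t h0
  have h8 : Real.log t ≤ t - 1 := Real.log_le_sub_one_of_pos (by linarith)
  refine ⟨h1, h2, h3, h4, by linarith, ?_⟩
  have hE : (0 : ℝ) ≤ E := Nat.cast_nonneg _
  have h5 : (E : ℝ) * t ≤ 10 * E * t ^ 2 := by
    have h6 : t ≤ t ^ 2 := le_self_pow₀ h1 (by norm_num)
    have h7 : (E : ℝ) * t ≤ E * t ^ 2 := mul_le_mul_of_nonneg_left h6 hE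
    have h9 : 0 ≤ (E : ℝ) * t ^ 2 := by positivity
    linarith
  linarith

/-- Rankin's choice of residue classes modulo the primes up to `y`. -/
theorem survivorsE (E : ℕ) (hE : 2 ≤ E) : ∃ C : ℝ, 0 < C ∧ ∃ y₀ : ℝ, ∀ y : ℕ, y₀ ≤ y →
    ∀ L : ℕ, y ≤ L → (L : ℝ) ≤ y * (Real.log y) ^ E →
    ∃ b : ℕ → ℕ,
      (((Finset.Icc 1 L).filter (fun k => ∀ p : ℕ, p.Prime → p ≤ y →
        ¬ k ≡ b p [MOD p])).card : ℝ) ≤
      C * L * (Real.log (Real.log y)) ^ 2 /
        ((Real.log y) ^ 2 * Real.log (Real.log (Real.log y))) := by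
  obtain ⟨c₁, c₂, hc₁, hc₁₂, hV⟩ := cz_bounds
  obtain ⟨y₁, hsm⟩ := smooth_count
  obtain ⟨t₀, hev⟩ := ev_survE E
  have hc₂ : 0 < c₂ := hc₁.trans_le hc₁₂
  have hE0 : (2 : ℝ) ≤ E := by exact_mod_cast hE
  refine ⟨11 * (c₂ / c₁ * (20 * E)), by positivity, max y₁ (Real.exp (Real.exp t₀)),
    fun y hy L hyL hLy => ?_⟩
  have hyLr : (y : ℝ) ≤ L := by exact_mod_cast hyL
  have hsm' := hsm y ((le_max_left _ _).trans hy) L hyLr
  have hy' := (le_max_right _ _).trans hy
  have hy0 : (0 : ℝ) < y := (Real.exp_pos _).trans_le hy'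
  have hL1' : Real.exp t₀ ≤ Real.log y := by
    rw [← Real.log_exp (Real.exp t₀)]; exact Real.log_le_log (Real.exp_pos _) hy'
  have hly : 0 < Real.log y := (Real.exp_pos _).trans_le hL1'
  set t := Real.log (Real.log y) with ht
  have htt : t₀ ≤ t := by
    rw [← Real.log_exp t₀]; exact Real.log_le_log (Real.exp_pos _) hL1'
  obtain ⟨h1, h2, h3, h4, h5, h6⟩ := hev t htt
  have hLe : Real.log y = Real.exp t := by rw [ht, Real.exp_log hly]
  have hye : (y : ℝ) = Real.exp (Real.exp t) := by rw [← hLe, Real.exp_log hy0]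
  set V0 := Real.log y * Real.log t / (10 * t) with hV0
  have ht0 : 0 < t := by linarith
  have hlt0 : 0 < Real.log t := by linarith
  -- V0 ≥ E t
  have hV1 : E * t ≤ V0 := by
    rw [hV0, le_div_iff₀ (by positivity), hLe]
    have e1 : Real.exp t * 1 ≤ Real.exp t * Real.log t :=
      mul_le_mul_of_nonneg_left h2 (Real.exp_pos t).le
    have e2 : (E : ℝ) * t * (10 * t) = 10 * E * t ^ 2 := by ring
    rw [e2]
    linarith
  have hV1le : V0 ≤ Real.log y := by
    rw [hV0, div_le_iff₀ (by positivity), hLe]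
    apply mul_le_mul_of_nonneg_left _ (Real.exp_pos t).le
    linarith
  set v₀ : ℝ := (Real.log y) ^ E with hv₀
  have hv₀e : v₀ = Real.exp (E * t) := by
    rw [hv₀, hLe, ← Real.exp_nat_mul]
  have hv₀0 : 0 < v₀ := by positivity
  have hlogy1 : (100 : ℝ) ≤ Real.log y := by rw [hLe]; exact h4
  have hv₀big : 10000 ≤ v₀ := by
    calc (10000 : ℝ) = 100 ^ 2 := by norm_num
      _ ≤ (Real.log y) ^ 2 := pow_le_pow_left₀ (by norm_num) hlogy1 2
      _ ≤ (Real.log y) ^ E := pow_le_pow_right₀ (by linarith) hE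
  -- v₀ ≤ y
  have hv₀y : v₀ ≤ y := by
    rw [hv₀e, hye]; exact Real.exp_le_exp.2 h6
  set u : ℕ := ⌊v₀⌋₊ with hu
  set v : ℕ := ⌊Real.exp V0⌋₊ with hv
  have huv : u ≤ v := by
    rw [hu, hv]; apply Nat.floor_le_floor; rw [hv₀e]; exact Real.exp_le_exp.2 hV1
  have hu2 : 2 ≤ u := by
    rw [hu, Nat.le_floor_iff hv₀0.le]; push_cast; linarith
  have hvle : (v : ℝ) ≤ Real.exp V0 := Nat.floor_le (Real.exp_pos _).le
  have hule : (u : ℝ) ≤ v₀ := Nat.floor_le hv₀0.le
  have hv0 : (0 : ℝ) < v := by exact_mod_cast (by omega : 0 < v)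
  have hu0 : (0 : ℝ) < u := by exact_mod_cast (by omega : 0 < u)
  have hlu : Real.log u ≤ E * t := by
    rw [← Real.log_exp (E * t), ← hv₀e]; exact Real.log_le_log hu0 hule
  have hlu0 : 0 < Real.log u := Real.log_pos (by exact_mod_cast (by omega : 1 < u))
  have hlv0 : 0 < Real.log v := Real.log_pos (by exact_mod_cast (by omega : 1 < v))
  have hlv : V0 / 2 ≤ Real.log v := by
    have h7 : Real.exp V0 < v + 1 := Nat.lt_floor_add_one _
    have h8 : (2 : ℝ) ≤ v := by exact_mod_cast (by omega : 2 ≤ v)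
    have h9 : Real.exp V0 ≤ (v : ℝ) ^ 2 := by nlinarith
    have h10 := Real.log_le_log (Real.exp_pos _) h9
    rw [Real.log_exp, Real.log_pow] at h10
    push_cast at h10; linarith
  -- the primes for the greedy step
  set S : Finset ℕ := (Icc 1 v).filter (fun p : ℕ => p.Prime ∧ v₀ < (p : ℝ)) with hS
  have hSp : ∀ p ∈ S, p.Prime := by
    intro p hp
    rw [hS, mem_filter] at hp
    exact hp.2.1
  have hSv : ∀ p ∈ S, v₀ < (p : ℝ) := fun p hp => (mem_filter.1 hp).2.2
  -- membership in S for primes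
  have hSmem : ∀ p : ℕ, p.Prime → (p ∈ S ↔ v₀ < (p : ℝ) ∧ Real.log p ≤ V0) := by
    intro p hp
    have hp0 : (0 : ℝ) < p := by exact_mod_cast hp.pos
    rw [hS, mem_filter, mem_Icc, Real.log_le_iff_le_exp hp0, hv,
      Nat.le_floor_iff (Real.exp_pos _).le]
    constructor
    · rintro ⟨⟨_, h⟩, _, h'⟩; exact ⟨h', h⟩
    · rintro ⟨h, h'⟩; exact ⟨⟨hp.pos, h'⟩, hp, h⟩
  -- R
  set R := (Icc 1 L).filter (fun k => ∀ p : ℕ, p.Prime → p ≤ y → p ∉ S → ¬ k ≡ 1 [MOD p]) with hR
  obtain ⟨b, hb, hbc⟩ := greedy_all S hSp R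
  obtain ⟨b', hb'1, hb'2⟩ : ∃ b' : ℕ → ℕ, (∀ p ∈ S, b' p = b p) ∧ (∀ p, p ∉ S → b' p = 1) :=
    ⟨fun p => if p ∈ S then b p else 1, fun p hp => if_pos hp, fun p hp => if_neg hp⟩
  refine ⟨b', ?_⟩
  have hsub1 : (Finset.Icc 1 L).filter (fun k => ∀ p : ℕ, p.Prime → p ≤ y →
      ¬ k ≡ b' p [MOD p]) ⊆
      R.filter (fun k => ∀ p ∈ S, ¬ k ≡ b p [MOD p]) := by
    intro k hk
    rw [mem_filter] at hk
    rw [mem_filter, hR, mem_filter]
    refine ⟨⟨hk.1, fun p hp hpy hpS => ?_⟩, fun p hpS => ?_⟩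
    · have := hk.2 p hp hpy
      rwa [hb'2 p hpS] at this
    · have hpp := hSp p hpS
      have hp0 : (0 : ℝ) < p := by exact_mod_cast hpp.pos
      have hpy : (p : ℝ) ≤ y := by
        have h7 := ((hSmem p hpp).1 hpS).2
        rw [← Real.log_le_log_iff hp0 hy0]; linarith
      have hpy' : p ≤ y := by exact_mod_cast hpy
      have := hk.2 p hpp hpy'
      rwa [hb'1 p hpS] at this
  refine (Nat.cast_le.2 (card_le_card hsub1)).trans (hbc.trans ?_)
  -- size of R
  have hL2 : 2 ≤ L := by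
    have : (2 : ℝ) ≤ L := by linarith
    exact_mod_cast this
  have hL0 : (0 : ℝ) < L := by linarith
  have hRsub : R ⊆ (((Icc 1 L).filter Nat.Prime) ∪ (Finset.Icc 1 L).filter
      (fun m => ∀ p : ℕ, p.Prime → p ∣ m → Real.log p ≤ V0)).image (· + 1) := by
    intro k hk
    rw [hR, mem_filter, mem_Icc] at hk
    obtain ⟨⟨hk1, hkL⟩, hk2⟩ := hk
    have h2S : 2 ∉ S := by
      intro h; have := hSv 2 h; push_cast at this; linarith
    have h2y : 2 ≤ y := by
      have : (2 : ℝ) ≤ y := by linarith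
      exact_mod_cast this
    have hk3 : k ≠ 1 := by
      rintro rfl
      exact hk2 2 Nat.prime_two h2y h2S (Nat.ModEq.refl _)
    obtain ⟨m, rfl⟩ : ∃ m, k = m + 1 := ⟨k - 1, by omega⟩
    rw [mem_image]
    refine ⟨m, ?_, rfl⟩
    have hm1 : 1 ≤ m := by omega
    -- all prime factors of m
    have hfac : ∀ p : ℕ, p.Prime → p ∣ m → (y < p ∨ p ∈ S) := by
      intro p hp hd
      by_contra hcon
      push Not at hcon
      refine hk2 p hp hcon.1 hcon.2 ?_
      have : m ≡ 0 [MOD p] := (Nat.modEq_zero_iff_dvd).2 hd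
      simpa using this.add_right 1
    rw [mem_union]
    by_cases hall : ∀ p : ℕ, p.Prime → p ∣ m → Real.log p ≤ V0
    · right
      rw [mem_filter, mem_Icc]
      exact ⟨⟨hm1, by omega⟩, hall⟩
    · left
      push Not at hall
      obtain ⟨p, hp, hd, hlp⟩ := hall
      have hpy : y < p := by
        rcases hfac p hp hd with h | h
        · exact h
        · exact absurd ((hSmem p hp).1 h).2 (not_le.2 hlp)
      have hpyr : (y : ℝ) < p := by exact_mod_cast hpy
      obtain ⟨m', rfl⟩ := hd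
      have hm'1 : m' = 1 := by
        by_contra hne
        have hm'0 : m' ≠ 0 := by rintro rfl; simp at hm1
        obtain ⟨q, hq, hqd⟩ := Nat.exists_prime_and_dvd hne
        have hqle : q ≤ m' := Nat.le_of_dvd (Nat.pos_of_ne_zero hm'0) hqd
        have hm'le : (m' : ℝ) < v₀ := by
          have h7 : (p : ℝ) * m' ≤ L := by exact_mod_cast (by omega : p * m' ≤ L)
          have h8 : (0 : ℝ) < m' := by exact_mod_cast Nat.pos_of_ne_zero hm'0
          have h9 : (y : ℝ) * m' < y * v₀ := by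
            calc (y : ℝ) * m' < p * m' := by gcongr
              _ ≤ L := h7
              _ ≤ _ := hLy
          exact lt_of_mul_lt_mul_left h9 hy0.le
        have hqv : (q : ℝ) < v₀ := lt_of_le_of_lt (by exact_mod_cast hqle) hm'le
        rcases hfac q hq (hqd.mul_left p) with h | h
        · have : (y : ℝ) < q := by exact_mod_cast h
          linarith
        · have := hSv q h; linarith
      rw [hm'1, mul_one, mem_filter, mem_Icc]
      rw [hm'1, mul_one] at hkL
      exact ⟨⟨hp.pos, by omega⟩, hp⟩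
  have hRcard : (R.card : ℝ) ≤ 11 * L / Real.log y := by
    have h7 : R.card ≤ ((Icc 1 L).filter Nat.Prime).card + ((Finset.Icc 1 L).filter
        (fun m => ∀ p : ℕ, p.Prime → p ∣ m → Real.log p ≤ V0)).card :=
      (card_le_card hRsub).trans (card_image_le.trans (card_union_le _ _))
    have h8 : (R.card : ℝ) ≤ (((Icc 1 L).filter Nat.Prime).card : ℝ) + (((Finset.Icc 1 L).filter
        (fun m => ∀ p : ℕ, p.Prime → p ∣ m → Real.log p ≤ V0)).card : ℝ) := by
      exact_mod_cast h7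
    have h9 := primes_le L hL2
    have h10 : 10 * (L : ℝ) / Real.log L ≤ 10 * L / Real.log y := by
      apply div_le_div_of_nonneg_left (by positivity) hly
      exact Real.log_le_log hy0 hyLr
    have h11 : (L : ℝ) / (Real.log y) ^ 3 ≤ L / Real.log y := by
      apply div_le_div_of_nonneg_left hL0.le hly
      exact le_self_pow₀ (by linarith) (by norm_num)
    have h12 : 11 * (L : ℝ) / Real.log y = 10 * L / Real.log y + L / Real.log y := by ring
    linarith
  -- the product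
  have hPv : V v = V u * ∏ p ∈ S, (1 - 1 / (p : ℝ)) := by
    have h7 : Pz v = Pz u ∪ S := by
      ext p
      rw [mem_union, mem_Pz, mem_Pz, hS, mem_filter, mem_Icc, hu, Nat.le_floor_iff hv₀0.le]
      constructor
      · rintro ⟨hp, hpv⟩
        by_cases h : (p : ℝ) ≤ v₀
        · exact Or.inl ⟨hp, h⟩
        · exact Or.inr ⟨⟨hp.pos, hpv⟩, hp, not_le.1 h⟩
      · rintro (⟨hp, hpu⟩ | ⟨⟨_, hpv⟩, hp, _⟩)
        · refine ⟨hp, ?_⟩
          have : p ≤ u := by rw [hu, Nat.le_floor_iff hv₀0.le]; exact hpu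
          omega
        · exact ⟨hp, hpv⟩
    have h8 : Disjoint (Pz u) S := by
      rw [Finset.disjoint_left]
      intro p hp hpS
      have h9 := (mem_Pz.1 hp).2
      rw [hu, Nat.le_floor_iff hv₀0.le] at h9
      have := hSv p hpS
      linarith
    unfold V
    rw [h7, prod_union h8]
  have hSprod0 : 0 ≤ ∏ p ∈ S, (1 - 1 / (p : ℝ)) :=
    prod_nonneg fun p hp => (one_sub_inv_pos (hSp p hp)).le
  have hV0pos : 0 < V0 := lt_of_lt_of_le (by positivity) hV1
  have hSprod : ∏ p ∈ S, (1 - 1 / (p : ℝ)) ≤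
      c₂ / c₁ * (20 * E) * (t ^ 2 / (Real.log y * Real.log t)) := by
    have h7 := (hV v (by omega)).2
    have h8 := (hV u hu2).1
    rw [hPv] at h7
    -- V u * P * log v ≤ c₂, c₁ ≤ V u * log u
    have hVu := V_pos u
    have h9 : c₁ * (∏ p ∈ S, (1 - 1 / (p : ℝ))) * (V0 / 2) ≤ c₂ * (E * t) := by
      calc c₁ * (∏ p ∈ S, (1 - 1 / (p : ℝ))) * (V0 / 2)
          ≤ (V u * Real.log u) * (∏ p ∈ S, (1 - 1 / (p : ℝ))) * Real.log v := by
            gcongr
        _ = (V u * (∏ p ∈ S, (1 - 1 / (p : ℝ))) * Real.log v) * Real.log u := by ring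
        _ ≤ c₂ * Real.log u := by gcongr
        _ ≤ _ := by gcongr
    have h10 : ∏ p ∈ S, (1 - 1 / (p : ℝ)) ≤ c₂ * (E * t) / (c₁ * (V0 / 2)) := by
      rw [le_div_iff₀ (by positivity)]
      linarith
    refine h10.trans (le_of_eq ?_)
    rw [hV0]
    field_simp
    ring
  calc (R.card : ℝ) * ∏ p ∈ S, (1 - 1 / (p : ℝ))
      ≤ (11 * L / Real.log y) *
        (c₂ / c₁ * (20 * E) * (t ^ 2 / (Real.log y * Real.log t))) := by
        gcongr
    _ = _ := by
        field_simp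

end Pool.Agent.K7.H60.TL
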