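import Pool.Agent.K7.H60.TL.RA
import Pool.Agent.K7.H60.TL.SvE

/-!
Gaps of Rankin's size in almost all intervals of length `exp (log x / (log log x) ^ K)`.
-/

set_option autoImplicit false
set_option linter.unusedSectionVars false

namespace Pool.Agent.K7.H60.TL

open Finset Filter Pool.Agent.H256R2.SC

open scoped Classical

theorem evB (K : ℕ) (C5 C6 y₀ c₁ : ℝ) (hc₁ : 0 < c₁) : ∃ l₀ : ℝ, ∀ l : ℝ, l₀ ≤ l →
    (2 : ℝ) ^ (K + 8) ≤ l ∧ C6 ≤ l ∧ 2 * (C5 + 2) ≤ l ∧ 10 ≤ l ∧
    l ^ (K + 3) ≤ Real.exp (l / 2) ∧ (Real.log l) ^ 2 ≤ c₁ / 8 * l ∧ 2 ≤ Real.log (Real.log l) ∧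
    ((K : ℝ) + 2) * Real.log l + 1 ≤ l / 2 ∧ y₀ ≤ Real.exp (l / 2) := by
  have h1 : ∀ᶠ l : ℝ in atTop, l ^ (K + 3) ≤ Real.exp (l / 2) := by
    have h := (isLittleO_pow_exp_pos_mul_atTop (K + 3) (b := 1 / 2) (by norm_num)).bound
      (show (0 : ℝ) < 1 by norm_num)
    filter_upwards [h, eventually_ge_atTop (1 : ℝ)] with l hl hl1
    rw [Real.norm_of_nonneg (by positivity), Real.norm_of_nonneg (Real.exp_pos _).le, one_mul,
      one_div_mul_eq_div] at hl
    exact hl
  have h2 : ∀ᶠ l : ℝ in atTop, (Real.log l) ^ 2 ≤ c₁ / 8 * l := by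
    have h := ev_log_rpow (Real.sqrt (8 / c₁)) (1 / 2) (by norm_num)
    filter_upwards [h, eventually_ge_atTop (1 : ℝ)] with l hl hl1
    have h0 : 0 ≤ Real.log l := Real.log_nonneg hl1
    have h3 := mul_self_le_mul_self (by positivity) hl
    have h4 : l ^ (1 / 2 : ℝ) * l ^ (1 / 2 : ℝ) = l := by
      rw [← Real.rpow_add (by linarith)]; norm_num
    rw [h4] at h3
    have h5 : Real.sqrt (8 / c₁) * Real.log l * (Real.sqrt (8 / c₁) * Real.log l) =
        8 / c₁ * (Real.log l) ^ 2 := by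
      have := Real.mul_self_sqrt (show 0 ≤ 8 / c₁ by positivity)
      calc _ = (Real.sqrt (8 / c₁) * Real.sqrt (8 / c₁)) * (Real.log l) ^ 2 := by ring
        _ = _ := by rw [this]
    rw [h5, div_mul_eq_mul_div, div_le_iff₀ hc₁] at h3
    linarith
  have h3 : ∀ᶠ l : ℝ in atTop, 2 ≤ Real.log (Real.log l) :=
    (Real.tendsto_log_atTop.comp Real.tendsto_log_atTop).eventually_ge_atTop 2
  have h4 : ∀ᶠ l : ℝ in atTop, ((K : ℝ) + 2) * Real.log l + 1 ≤ l / 2 := by
    have h := ev_log_rpow (4 * ((K : ℝ) + 2)) 1 (by norm_num)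
    filter_upwards [h, eventually_ge_atTop (4 : ℝ)] with l hl hl1
    rw [Real.rpow_one] at hl
    linarith
  have h5 : ∀ᶠ l : ℝ in atTop, y₀ ≤ Real.exp (l / 2) := by
    have : Tendsto (fun l : ℝ => Real.exp (l / 2)) atTop atTop :=
      Real.tendsto_exp_atTop.comp (tendsto_id.atTop_div_const (by norm_num))
    exact this.eventually_ge_atTop y₀
  have h := (eventually_ge_atTop ((2 : ℝ) ^ (K + 8))).and ((eventually_ge_atTop C6).and
    ((eventually_ge_atTop (2 * (C5 + 2))).and ((eventually_ge_atTop 10).and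
    (h1.and (h2.and (h3.and (h4.and h5)))))))
  exact eventually_atTop.1 h

theorem dyadic2 (K A : ℕ) : ∃ c : ℝ, 0 < c ∧
    ∃ X₀ : ℝ, ∀ X : ℕ, X₀ ≤ X →
      (((Ico X (2 * X)).filter (fun x : ℕ => ¬ ∃ n m : ℕ, x < n ∧
        (m : ℝ) ≤ x + Real.exp (Real.log x / (Real.log (Real.log x)) ^ K) ∧
        c * (Real.log x * (Real.log (Real.log x)) ^ 2 *
          Real.log (Real.log (Real.log (Real.log x))) /
            (Real.log (Real.log (Real.log x))) ^ 2) ≤ (m : ℝ) - n ∧
        ∀ k ∈ Icc n m, ¬ k.Prime)).card : ℝ) ≤ X / (Real.log X) ^ A := by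
  obtain ⟨c, C5, C6, hc, hC5, hC6, X₀, hX₀⟩ := runs (1 / 2) (by norm_num) A
  obtain ⟨C₀, hC₀, y₀, hsurv⟩ := survivorsE (K + 5) (by omega)
  set c₁ : ℝ := min 1 (c / (8 * C₀)) with hc₁
  have hc₁0 : 0 < c₁ := lt_min one_pos (by positivity)
  have hc₁1 : c₁ ≤ 1 := min_le_left _ _
  have hc₁2 : c₁ ≤ c / (8 * C₀) := min_le_right _ _
  obtain ⟨l₀, hl₀⟩ := evB K C5 C6 y₀ c₁ hc₁0
  refine ⟨c₁ / 32, by positivity, max X₀ (Real.exp (Real.exp l₀)), ?_⟩
  intro X hX
  have hX1 : X₀ ≤ X := (le_max_left _ _).trans hX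
  have hX2 : Real.exp (Real.exp l₀) ≤ X := (le_max_right _ _).trans hX
  have hXpos : (0 : ℝ) < X := (Real.exp_pos _).trans_le hX2
  set L : ℝ := Real.log X with hL
  have hXL : (X : ℝ) = Real.exp L := (Real.exp_log hXpos).symm
  have hLL : Real.exp l₀ ≤ L := by
    rw [hL, ← Real.log_exp (Real.exp l₀)]
    exact Real.log_le_log (Real.exp_pos _) hX2
  have hLpos : 0 < L := (Real.exp_pos _).trans_le hLL
  set l : ℝ := Real.log L with hl
  have hLl : L = Real.exp l := (Real.exp_log hLpos).symm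
  have hll : l₀ ≤ l := by
    rw [hl, ← Real.log_exp l₀]
    exact Real.log_le_log (Real.exp_pos _) hLL
  obtain ⟨f1, f2, f3, f4, f5, f6, f7, f8, f9⟩ := hl₀ l hll
  set t : ℝ := Real.log l with ht
  set s : ℝ := Real.log t with hs
  have hl0 : 0 < l := by linarith
  have hs0 : 0 < s := by linarith
  have ht1 : 1 ≤ t := by
    by_contra hcc
    push Not at hcc
    by_cases h0 : 0 ≤ t
    · have := Real.log_nonpos h0 hcc.le
      linarith
    · have h1 : 0 < l := hl0
      have h2 : 0 ≤ Real.log l := Real.log_nonneg (by linarith)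
      exact h0 h2
  have ht0 : 0 < t := by linarith
  have hst : s ≤ t := by
    have := Real.log_le_sub_one_of_pos ht0
    linarith
  have htl : t ≤ l := by
    have := Real.log_le_sub_one_of_pos hl0
    linarith
  have hlL : l ≤ L := by
    have := Real.add_one_le_exp l
    linarith
  have hL10 : 10 ≤ L := by linarith
  -- powers of `l` against `L`
  have hpw : (l ^ (K + 3)) ^ 2 ≤ L := by
    calc (l ^ (K + 3)) ^ 2 ≤ (Real.exp (l / 2)) ^ 2 := pow_le_pow_left₀ (by positivity) f5 2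
      _ = L := by rw [← Real.exp_nat_mul, hLl]; congr 1; push_cast; ring
  have hl1 : 1 ≤ l := by linarith
  have hlK1 : 1 ≤ l ^ (K + 1) := one_le_pow₀ hl1
  have hlK2 : 1 ≤ l ^ (K + 2) := one_le_pow₀ hl1
  have hlK3 : 1 ≤ l ^ (K + 3) := one_le_pow₀ hl1
  have hp2 : 10 * l ^ (K + 2) ≤ L := by
    calc 10 * l ^ (K + 2) ≤ l * l ^ (K + 2) := mul_le_mul_of_nonneg_right f4 (by positivity)
      _ = l ^ (K + 3) := by ring
      _ ≤ (l ^ (K + 3)) ^ 2 := le_self_pow₀ hlK3 (by norm_num)
      _ ≤ L := hpw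
  -- the primes
  set y : ℕ := ⌊L / l ^ (K + 2)⌋₊ with hy
  have hy1 : (y : ℝ) ≤ L / l ^ (K + 2) := Nat.floor_le (by positivity)
  have hy2 : L / l ^ (K + 2) < y + 1 := Nat.lt_floor_add_one _
  have hy3 : L / (2 * l ^ (K + 2)) ≤ y := by
    have h1 : 10 ≤ L / l ^ (K + 2) := by rw [le_div_iff₀ (by positivity)]; exact hp2
    have h2 : L / (2 * l ^ (K + 2)) = (L / l ^ (K + 2)) / 2 := by
      rw [div_div, mul_comm]
    linarith
  have hyL : (y : ℝ) ≤ L := hy1.trans (div_le_self hLpos.le hlK2)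
  have hypos : (0 : ℝ) < y := lt_of_lt_of_le (by positivity) hy3
  have hlogy1 : l / 2 ≤ Real.log y := by
    have h1 : Real.log (L / (2 * l ^ (K + 2))) ≤ Real.log y := Real.log_le_log (by positivity) hy3
    rw [Real.log_div hLpos.ne' (by positivity), Real.log_mul (by norm_num) (by positivity),
      Real.log_pow] at h1
    push_cast at h1
    have h2 := Real.log_two_lt_d9
    linarith
  have hlogy2 : Real.log y ≤ l := Real.log_le_log hypos hyL
  have hlogy0 : 0 < Real.log y := by linarith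
  have hll1 : t / 2 ≤ Real.log (Real.log y) := by
    have h1 : Real.log (l / 2) ≤ Real.log (Real.log y) := Real.log_le_log (by linarith) hlogy1
    rw [Real.log_div hl0.ne' (by norm_num)] at h1
    have h2 := Real.log_two_lt_d9
    linarith
  have hll2 : Real.log (Real.log y) ≤ t := Real.log_le_log hlogy0 hlogy2
  have hll0 : 0 < Real.log (Real.log y) := by linarith
  have hlll : s / 2 ≤ Real.log (Real.log (Real.log y)) := by
    have h1 : Real.log (t / 2) ≤ Real.log (Real.log (Real.log y)) :=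
      Real.log_le_log (by linarith) hll1
    rw [Real.log_div ht0.ne' (by norm_num)] at h1
    have h2 := Real.log_two_lt_d9
    linarith
  have hyy₀ : y₀ ≤ y := by
    refine f9.trans (le_trans ?_ hy3)
    rw [le_div_iff₀ (by positivity)]
    have h1 : Real.exp (l / 2) * Real.exp (l / 2) = L := by
      rw [← Real.exp_add, hLl]; congr 1; ring
    rw [← h1]
    apply mul_le_mul_of_nonneg_left _ (Real.exp_pos _).le
    calc 2 * l ^ (K + 2) ≤ l * l ^ (K + 2) := mul_le_mul_of_nonneg_right (by linarith) (by positivity)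
      _ = l ^ (K + 3) := by ring
      _ ≤ _ := f5
  -- the length
  set F : ℝ := L * l ^ 2 * s / t ^ 2 with hF
  have hF0 : 0 < F := by positivity
  have hF1 : F ≤ L * l ^ 2 := by
    rw [hF, div_le_iff₀ (by positivity)]
    apply mul_le_mul_of_nonneg_left _ (by positivity)
    calc s ≤ t := hst
      _ ≤ t ^ 2 := le_self_pow₀ ht1 (by norm_num)
  have hF2 : 8 * (L * l) ≤ c₁ * F := by
    rw [hF, ← mul_div_assoc, le_div_iff₀ (by positivity)]
    have h1 : 8 * t ^ 2 ≤ c₁ * l := by linarith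
    calc 8 * (L * l) * t ^ 2 = (L * l) * (8 * t ^ 2) := by ring
      _ ≤ (L * l) * (c₁ * l) := mul_le_mul_of_nonneg_left h1 (by positivity)
      _ = c₁ * (L * l ^ 2) * 1 := by ring
      _ ≤ c₁ * (L * l ^ 2) * s := mul_le_mul_of_nonneg_left (by linarith) (by positivity)
      _ = _ := by ring
  set N : ℕ := ⌊c₁ * F⌋₊ with hN
  have hN1 : (N : ℝ) ≤ c₁ * F := Nat.floor_le (by positivity)
  have hN2 : c₁ * F < N + 1 := Nat.lt_floor_add_one _
  have hNLl : (N : ℝ) ≤ L * l ^ 2 := by
    calc (N : ℝ) ≤ c₁ * F := hN1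
      _ ≤ 1 * F := mul_le_mul_of_nonneg_right hc₁1 hF0.le
      _ ≤ L * l ^ 2 := by rw [one_mul]; exact hF1
  have hLl1 : L ≤ L * l := le_mul_of_one_le_right hLpos.le hl1
  have hyN : y ≤ N := by
    have : (y : ℝ) ≤ N := by linarith
    exact_mod_cast this
  have hNy : (N : ℝ) ≤ y * (Real.log y) ^ (K + 5) := by
    calc (N : ℝ) ≤ L * l ^ 2 := hNLl
      _ ≤ L / (2 * l ^ (K + 2)) * (l / 2) ^ (K + 5) := by
          rw [div_mul_eq_mul_div, le_div_iff₀ (by positivity), div_pow, ← mul_div_assoc,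
            le_div_iff₀ (by positivity)]
          have h1 : (2 : ℝ) ^ (K + 6) ≤ l :=
            (pow_le_pow_right₀ (by norm_num) (by omega)).trans f1
          calc L * l ^ 2 * (2 * l ^ (K + 2)) * 2 ^ (K + 5) = L * l ^ (K + 4) * 2 ^ (K + 6) := by ring
            _ ≤ L * l ^ (K + 4) * l := mul_le_mul_of_nonneg_left h1 (by positivity)
            _ = L * l ^ (K + 5) := by ring
      _ ≤ y * (Real.log y) ^ (K + 5) := by
          apply mul_le_mul hy3 _ (by positivity) hypos.le
          exact pow_le_pow_left₀ (by positivity) hlogy1 _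
  obtain ⟨e, he⟩ := hsurv y hyy₀ N hyN hNy
  set P0 : Finset ℕ := (Icc 1 y).filter Nat.Prime with hP0
  have hcard : (((Icc 1 N).filter (fun k => ∀ p ∈ P0, ¬ k ≡ e p [MOD p])).card : ℝ) ≤
      c * L := by
    have h1 : (((Icc 1 N).filter (fun k => ∀ p ∈ P0, ¬ k ≡ e p [MOD p])).card : ℝ) ≤
        (((Icc 1 N).filter (fun k => ∀ p : ℕ, p.Prime → p ≤ y → ¬ k ≡ e p [MOD p])).card : ℝ) := by
      apply Nat.cast_le.mpr
      apply card_le_card
      intro k hk
      have hk' := Finset.mem_filter.1 hk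
      refine Finset.mem_filter.2 ⟨hk'.1, fun p hp hpy => hk'.2 p ?_⟩
      exact mem_filter.2 ⟨mem_Icc.2 ⟨hp.pos, hpy⟩, hp⟩
    refine h1.trans (he.trans ?_)
    have h2 : C₀ * N * (Real.log (Real.log y)) ^ 2 /
        ((Real.log y) ^ 2 * Real.log (Real.log (Real.log y))) ≤
        C₀ * (c₁ * F) * t ^ 2 / ((l / 2) ^ 2 * (s / 2)) := by
      apply div_le_div₀ (by positivity) _ (by positivity) _
      · apply mul_le_mul _ (pow_le_pow_left₀ hll0.le hll2 2) (by positivity) (by positivity)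
        exact mul_le_mul_of_nonneg_left hN1 hC₀.le
      · exact mul_le_mul (pow_le_pow_left₀ (by positivity) hlogy1 2) hlll (by positivity)
          (by positivity)
    refine h2.trans ?_
    have h3 : C₀ * (c₁ * F) * t ^ 2 / ((l / 2) ^ 2 * (s / 2)) = c₁ * (8 * C₀) * L := by
      rw [hF]; field_simp; ring
    rw [h3]
    apply mul_le_mul_of_nonneg_right _ hLpos.le
    calc c₁ * (8 * C₀) ≤ c / (8 * C₀) * (8 * C₀) := mul_le_mul_of_nonneg_right hc₁2 (by positivity)
      _ = c := by field_simp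
  set Y : ℕ := ⌊Real.exp (L / l ^ (K + 1))⌋₊ with hY
  have hY1 : (Y : ℝ) ≤ Real.exp (L / l ^ (K + 1)) := Nat.floor_le (Real.exp_pos _).le
  have hYl : Real.exp (L / l ^ (K + 1)) < Y + 1 := Nat.lt_floor_add_one _
  have hN3 : (N : ℝ) + 1 ≤ L ^ 4 := by
    have h1 : L * l ^ 2 ≤ L * L ^ 2 :=
      mul_le_mul_of_nonneg_left (pow_le_pow_left₀ hl0.le hlL 2) hLpos.le
    have h2 : L * L ^ 2 = L ^ 3 := by ring
    have h3 : 10 * L ^ 3 ≤ L ^ 4 := by
      calc 10 * L ^ 3 ≤ L * L ^ 3 := mul_le_mul_of_nonneg_right hL10 (by positivity)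
        _ = L ^ 4 := by ring
    have h4 : 1 ≤ L ^ 3 := one_le_pow₀ (by linarith)
    linarith
  have hL4 : L ^ 4 = Real.exp (4 * l) := by
    rw [hLl, ← Real.exp_nat_mul]; push_cast; rfl
  set M : ℝ := L / l ^ (K + 1) with hM
  have hM1 : 10 * l ≤ M := by
    rw [hM, le_div_iff₀ (by positivity)]
    calc 10 * l * l ^ (K + 1) = 10 * l ^ (K + 2) := by ring
      _ ≤ L := hp2
  have hM2 : L / l ^ (K + 2) = M / l := by
    rw [hM, div_div]; congr 1
  have hM3 : (C5 + 2) * (M / l) ≤ M / 2 := by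
    rw [← mul_div_assoc, div_le_div_iff₀ hl0 (by norm_num)]
    have hM0 : 0 ≤ M := by linarith
    calc (C5 + 2) * M * 2 = M * (2 * (C5 + 2)) := by ring
      _ ≤ M * l := mul_le_mul_of_nonneg_left f3 hM0
  have hM00 : 0 ≤ M := by linarith
  have hM4 : M / 2 + 4 * l + 1 ≤ M := by linarith
  have hmain := hX₀ X hX1 P0 e N Y (l ^ (K + 3))
    (by
      intro p hp
      have hp1 := (mem_filter.1 hp)
      refine ⟨hp1.2, ?_⟩
      have h1 : (p : ℝ) ≤ y := by exact_mod_cast (mem_Icc.1 hp1.1).2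
      have h2 : (p : ℝ) < X := by
        have := Real.add_one_le_exp L
        rw [hXL]
        linarith
      exact_mod_cast h2)
    (by
      intro p hp
      have hp1 := (mem_filter.1 hp)
      have h1 : (p : ℝ) ≤ y := by exact_mod_cast (mem_Icc.1 hp1.1).2
      calc (p : ℝ) ≤ L := by linarith
        _ ≤ L ^ (A + 10) := le_self_pow₀ (by linarith) (by omega))
    (hN3.trans (pow_le_pow_right₀ (by linarith) (by omega)))
    hcard
    (by
      calc C6 * l ≤ l * l := mul_le_mul_of_nonneg_right f2 hl0.le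
        _ = l ^ 2 := by ring
        _ ≤ l ^ (K + 3) := pow_le_pow_right₀ hl1 (by omega))
    (by
      have h1 : L ^ (1 - 1 / 2 : ℝ) = Real.exp (l / 2) := by
        rw [hLl, ← Real.exp_mul]; congr 1; ring
      rw [h1]; exact f5)
    (by
      have h1 : C5 * l * (L / l ^ (K + 3)) = C5 * (M / l) := by
        rw [← hM2]
        field_simp
        ring
      rw [h1]
      have h2 : ((∏ p ∈ P0, p : ℕ) : ℝ) ≤ Real.exp (2 * (M / l)) := by
        refine (primorial_prod y).trans (Real.exp_le_exp.mpr ?_)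
        rw [← hM2]
        linarith
      have h3 : (N : ℝ) + 1 ≤ Real.exp (4 * l) := by rw [← hL4]; exact hN3
      have h4 : Real.exp (M / 2 + 4 * l) ≤ Y := by
        have h5 : Real.exp (M / 2 + 4 * l + 1) ≤ Real.exp M := Real.exp_le_exp.mpr hM4
        rw [Real.exp_add] at h5
        have h6 : 1 ≤ Real.exp (M / 2 + 4 * l) := Real.one_le_exp (by positivity)
        have h7 : (2 : ℝ) ≤ Real.exp 1 := by have := Real.exp_one_gt_d9; linarith
        have h8 := mul_le_mul_of_nonneg_left h7 (by linarith : 0 ≤ Real.exp (M / 2 + 4 * l))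
        linarith
      refine le_trans ?_ h4
      calc ((∏ p ∈ P0, p : ℕ) : ℝ) * (N + 1) * Real.exp (C5 * (M / l)) ≤
            Real.exp (2 * (M / l)) * Real.exp (4 * l) * Real.exp (C5 * (M / l)) := by
            apply mul_le_mul_of_nonneg_right _ (Real.exp_pos _).le
            exact mul_le_mul h2 h3 (by positivity) (Real.exp_pos _).le
        _ = Real.exp ((C5 + 2) * (M / l) + 4 * l) := by
            rw [← Real.exp_add, ← Real.exp_add]; congr 1; ring
        _ ≤ _ := Real.exp_le_exp.mpr (by linarith))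
    (by
      refine hY1.trans (Real.exp_le_exp.mpr ?_)
      rw [div_le_div_iff₀ (by positivity) (by norm_num)]
      apply mul_le_mul_of_nonneg_left _ hLpos.le
      calc (2 : ℝ) ≤ l := by linarith
        _ ≤ l ^ (K + 1) := le_self_pow₀ hl1 (by omega))
  refine le_trans ?_ hmain
  apply Nat.cast_le.mpr
  apply card_le_card
  intro x hx
  rw [mem_filter, mem_Ico] at hx
  rw [mem_filter, mem_Ico]
  refine ⟨hx.1, ?_⟩
  rintro ⟨n, hn1, hn2, hn3⟩
  apply hx.2
  have hxX : (X : ℝ) ≤ x := by exact_mod_cast hx.1.1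
  have hx2X : (x : ℝ) ≤ 2 * X := by exact_mod_cast hx.1.2.le
  have hx0 : (0 : ℝ) < x := by linarith
  have hlogx : L ≤ Real.log x := Real.log_le_log hXpos hxX
  have hlog2 := Real.log_two_lt_d9
  have hlog20 := Real.log_two_gt_d9
  have hlogx2 : Real.log x ≤ 2 * L := by
    have h1 : Real.log x ≤ Real.log (2 * X) := Real.log_le_log hx0 hx2X
    rw [Real.log_mul (by norm_num) hXpos.ne'] at h1
    linarith
  have hllx1 : l ≤ Real.log (Real.log x) := Real.log_le_log hLpos hlogx
  have hllx : Real.log (Real.log x) ≤ 2 * l := by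
    have h1 : Real.log (Real.log x) ≤ Real.log (2 * L) := Real.log_le_log (by linarith) hlogx2
    rw [Real.log_mul (by norm_num) hLpos.ne'] at h1
    linarith
  have h3x1 : t ≤ Real.log (Real.log (Real.log x)) := Real.log_le_log hl0 hllx1
  have h3x : Real.log (Real.log (Real.log x)) ≤ 2 * t := by
    have h1 : Real.log (Real.log (Real.log x)) ≤ Real.log (2 * l) :=
      Real.log_le_log (by linarith) hllx
    rw [Real.log_mul (by norm_num) hl0.ne'] at h1
    linarith
  have h4x : Real.log (Real.log (Real.log (Real.log x))) ≤ 2 * s := by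
    have h1 : Real.log (Real.log (Real.log (Real.log x))) ≤ Real.log (2 * t) :=
      Real.log_le_log (by linarith) h3x
    rw [Real.log_mul (by norm_num) ht0.ne'] at h1
    linarith
  have h4x0 : 0 ≤ Real.log (Real.log (Real.log (Real.log x))) := by
    have h1 : s ≤ Real.log (Real.log (Real.log (Real.log x))) := Real.log_le_log ht0 h3x1
    linarith
  have hM5 : M ≤ Real.log x / (Real.log (Real.log x)) ^ K / 2 := by
    have h1 : L / (2 * l) ^ K ≤ Real.log x / (Real.log (Real.log x)) ^ K := by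
      apply div_le_div₀ (by linarith) hlogx
      · have : 0 < Real.log (Real.log x) := by linarith
        positivity
      · exact pow_le_pow_left₀ (by linarith) hllx K
    have h2 : M ≤ L / (2 * l) ^ K / 2 := by
      rw [hM, div_div, mul_pow]
      apply div_le_div_of_nonneg_left hLpos.le (by positivity)
      have h3 : (2 : ℝ) ^ (K + 1) ≤ l := (pow_le_pow_right₀ (by norm_num) (by omega)).trans f1
      calc 2 ^ K * l ^ K * 2 = 2 ^ (K + 1) * l ^ K := by ring
        _ ≤ l * l ^ K := mul_le_mul_of_nonneg_right h3 (by positivity)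
        _ = l ^ (K + 1) := by ring
    linarith
  refine ⟨n + 1, n + N, by omega, ?_, ?_, ?_⟩
  · have h1 : ((n + N : ℕ) : ℝ) ≤ x + Y + N := by
      push_cast
      have : (n : ℝ) ≤ x + Y := by exact_mod_cast hn2
      linarith
    have h2 : (N : ℝ) ≤ Real.exp M := by
      have h3 : (N : ℝ) + 1 ≤ Real.exp (4 * l) := by rw [← hL4]; exact hN3
      have h4 : Real.exp (4 * l) ≤ Real.exp M := Real.exp_le_exp.mpr (by linarith)
      linarith
    have h5 : 2 * Real.exp M ≤ Real.exp (2 * M) := by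
      have h6 : Real.exp (2 * M) = Real.exp M * Real.exp M := by
        rw [← Real.exp_add]; congr 1; ring
      have h7 : 2 ≤ Real.exp M := by
        have := Real.add_one_le_exp M
        linarith
      rw [h6]
      exact mul_le_mul_of_nonneg_right h7 (Real.exp_pos _).le
    have h6 : Real.exp (2 * M) ≤ Real.exp (Real.log x / (Real.log (Real.log x)) ^ K) :=
      Real.exp_le_exp.mpr (by linarith)
    linarith
  · push_cast
    have h1 : Real.log x * (Real.log (Real.log x)) ^ 2 *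
          Real.log (Real.log (Real.log (Real.log x))) /
            (Real.log (Real.log (Real.log x))) ^ 2 ≤
        2 * L * (2 * l) ^ 2 * (2 * s) / t ^ 2 := by
      apply div_le_div₀ (by positivity) _ (by positivity) (pow_le_pow_left₀ ht0.le h3x1 2)
      apply mul_le_mul _ h4x h4x0 (by positivity)
      apply mul_le_mul hlogx2 (pow_le_pow_left₀ (by linarith) hllx 2) (by positivity)
        (by positivity)
    have h2 : 2 * L * (2 * l) ^ 2 * (2 * s) / t ^ 2 = 16 * F := by
      rw [hF]; ring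
    have h3 := mul_le_mul_of_nonneg_left h1 (by positivity : 0 ≤ c₁ / 32)
    rw [h2] at h3
    have h4 : 10 ≤ L * l := by linarith
    linarith
  · intro k hk
    rw [mem_Icc] at hk
    have h1 := hn3 (k - n) (by rw [mem_Icc]; omega)
    rwa [show n + (k - n) = k by omega] at h1

/-- Runs of Rankin's length in almost all intervals of length `exp (log x / (log log x) ^ K)`. -/
theorem runs_rankin (K A : ℕ) : ∃ c : ℝ, 0 < c ∧
    ∃ X₀ : ℕ, ∀ X : ℕ, X₀ ≤ X →
      (((range X).filter (fun x : ℕ => ¬ ∃ n m : ℕ, x < n ∧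
        (m : ℝ) ≤ x + Real.exp (Real.log x / (Real.log (Real.log x)) ^ K) ∧
        c * (Real.log x * (Real.log (Real.log x)) ^ 2 *
          Real.log (Real.log (Real.log (Real.log x))) /
            (Real.log (Real.log (Real.log x))) ^ 2) ≤ (m : ℝ) - n ∧
        ∀ k ∈ Icc n m, ¬ k.Prime)).card : ℝ) ≤ X / (Real.log X) ^ A := by
  obtain ⟨c, hc, h⟩ := dyadic2 K (A + 1)
  exact ⟨c, hc, dyadic_to_range (fun x : ℕ => ∃ n m : ℕ, x < n ∧
        (m : ℝ) ≤ x + Real.exp (Real.log x / (Real.log (Real.log x)) ^ K) ∧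
        c * (Real.log x * (Real.log (Real.log x)) ^ 2 *
          Real.log (Real.log (Real.log (Real.log x))) /
            (Real.log (Real.log (Real.log x))) ^ 2) ≤ (m : ℝ) - n ∧
        ∀ k ∈ Icc n m, ¬ k.Prime) A h⟩

end Pool.Agent.K7.H60.TL
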