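import Pool.Agent.K7.H60.TL.Co1
import Pool.Agent.K7.H60.Loc

/-!
Sums of the weights over the integers of a class.
-/

set_option autoImplicit false
set_option linter.unusedSectionVars false

namespace Pool.Agent.K7.H60.TL

open Finset Pool.Agent.H256R2.SC

open scoped Classical

variable {κ : Type} [Fintype κ] [DecidableEq κ]

/-- the primes as reals -/
noncomputable abbrev Pf (PP : Finset ℕ) : Fin PP.card → ℝ := fun i => ((emb PP i : ℕ) : ℝ)

/-- their reciprocals -/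
noncomputable abbrev gf (PP : Finset ℕ) : Fin PP.card → ℝ := fun i => 1 / ((emb PP i : ℕ) : ℝ)

/-- residues -/
def rs (sh : κ → ℕ) : ℕ → κ → ℤ := fun _ k => -(sh k : ℤ)

/-- colouring of an integer -/
noncomputable def cl (PP : Finset ℕ) (sh : κ → ℕ) (n : ℕ) : Col PP.card κ :=
  colr PP (rs sh) (n : ℤ)

/-- the weight -/
noncomputable def Vn (PP : Finset ℕ) (sh : κ → ℕ) (h : Finset (Fin PP.card) → ℝ) (Q : ℝ)
    (n : ℕ) : ℝ := VV (gf PP) (yT (Pf PP) h Q) (cl PP sh n)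

/-- the data -/
structure Dat (PP : Finset ℕ) (sh : κ → ℕ) (h : Finset (Fin PP.card) → ℝ)
    (z K C4 T0 Q δ w : ℝ) (X W b N : ℕ) : Prop where
  H : HB (Pf PP) (gf PP) h z K C4 T0
  hP : ∀ p ∈ PP, p.Prime
  hz : ∀ p ∈ PP, (p : ℝ) ≤ z
  hw : ∀ p ∈ PP, w < (p : ℝ)
  hsh : ∀ k, sh k ≤ N
  hinj : Function.Injective sh
  hNw : (N : ℝ) ≤ w
  hX : 1 ≤ X
  hNW : N < W
  hb : b < W
  hPW : ∀ p ∈ PP, ¬ p ∣ W
  hQ : 1 ≤ Q
  hu : 10 * (Fintype.card κ : ℝ) ≤ w
  hw9 : 9 ≤ w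
  hs : 2 * (Fintype.card κ : ℝ) * ∑ i, 1 / (Pf PP i) ^ 2 ≤ 1
  hδ0 : 0 ≤ δ
  hδ : ∀ D : Col PP.card κ, qq (Pf PP) D ≤ Q → C4 * ∑ i with D i ≠ none, gf PP i ≤ δ

section
variable {PP : Finset ℕ} {sh : κ → ℕ} {h : Finset (Fin PP.card) → ℝ}
  {z K C4 T0 Q δ w : ℝ} {X W b N : ℕ}

theorem Dat.injr (d : Dat PP sh h z K C4 T0 Q δ w X W b N) :
    ∀ p ∈ PP, ∀ k l, k ≠ l → ¬ ((p : ℤ) ∣ rs sh p k - rs sh p l) := by
  intro p hp k l hkl hdvd
  have h1 := d.hw p hp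
  have h2 := d.hsh k
  have h3 := d.hsh l
  have h4 : (N : ℝ) < p := lt_of_le_of_lt d.hNw h1
  have h5 : N < p := by exact_mod_cast h4
  have h6 : sh k ≠ sh l := fun e => hkl (d.hinj e)
  unfold rs at hdvd
  rcases lt_or_gt_of_ne h6 with h8 | h8
  · have h9 : (0 : ℤ) < -(sh k : ℤ) - -(sh l : ℤ) := by omega
    have h10 := Int.le_of_dvd h9 hdvd
    omega
  · have h9 : (0 : ℤ) < -(-(sh k : ℤ) - -(sh l : ℤ)) := by omega
    have h10 := Int.le_of_dvd h9 ((dvd_neg).2 hdvd)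
    omega

theorem Dat.g0 (d : Dat PP sh h z K C4 T0 Q δ w X W b N) (i : Fin PP.card) : 0 ≤ gf PP i :=
  (d.H.g0 i).le

theorem Dat.w0 (d : Dat PP sh h z K C4 T0 Q δ w X W b N) : 0 < w := by
  linarith [d.hw9]

theorem Dat.gw (d : Dat PP sh h z K C4 T0 Q δ w X W b N) (i : Fin PP.card) :
    gf PP i ≤ 1 / w :=
  one_div_le_one_div_of_le d.w0 (d.hw _ (emb_mem PP i)).le

theorem Dat.g1 (d : Dat PP sh h z K C4 T0 Q δ w X W b N) (i : Fin PP.card) : gf PP i ≤ 1 := by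
  refine (d.gw i).trans ?_
  rw [div_le_one d.w0]
  linarith [d.hw9]

theorem Dat.u10 (d : Dat PP sh h z K C4 T0 Q δ w X W b N) (i : Fin PP.card) :
    10 * (Fintype.card κ : ℝ) * gf PP i ≤ 1 := by
  have h1 : 10 * (Fintype.card κ : ℝ) * gf PP i ≤ w * (1 / w) :=
    mul_le_mul d.hu (d.gw i) (d.g0 i) d.w0.le
  rwa [mul_one_div_cancel d.w0.ne'] at h1

theorem Dat.ug (d : Dat PP sh h z K C4 T0 Q δ w X W b N) (i : Fin PP.card) :
    (Fintype.card κ : ℝ) * gf PP i ≤ 1 := by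
  have h1 := d.u10 i
  have h2 : 0 ≤ (Fintype.card κ : ℝ) * gf PP i := mul_nonneg (Nat.cast_nonneg _) (d.g0 i)
  linarith

theorem Dat.tg (d : Dat PP sh h z K C4 T0 Q δ w X W b N) (i : Fin PP.card) :
    3 * 3 * gf PP i ≤ 1 := by
  have h1 : 9 * gf PP i ≤ w * (1 / w) :=
    mul_le_mul d.hw9 (d.gw i) (d.g0 i) d.w0.le
  rw [mul_one_div_cancel d.w0.ne'] at h1
  linarith

theorem Dat.W1 (d : Dat PP sh h z K C4 T0 Q δ w X W b N) : 1 ≤ W := by
  have := d.hNW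
  omega

/-- transfer of one point functions -/
theorem Dat.tr1 (d : Dat PP sh h z K C4 T0 Q δ w X W b N) {Q' B : ℝ} {F : Col PP.card κ → ℝ}
    (hF : Lv (Pf PP) Q' B F) :
    |∑ n ∈ Sx X W b, F (cl PP sh n) - (X : ℝ) / W * EE (gf PP) F| ≤ B := by
  have h1 := transfer (Sx X W b) (cl PP sh) (Pf PP) (gf PP) ((X : ℝ) / W) 1 Q' B zero_le_one
    (fun D _ => by
      have h2 := count_single d.hP d.injr X W b d.hX d.W1 d.hb d.hPW D
      convert h2
      rfl) F hF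
  rwa [one_mul] at h1

/-- transfer of two point functions -/
theorem Dat.tr2 (d : Dat PP sh h z K C4 T0 Q δ w X W b N) {Q' B B' : ℝ}
    {F F' : Col PP.card κ → ℝ} (hB : 0 ≤ B)
    (hF : Lv (Pf PP) Q' B F) (hF' : Lv (Pf PP) Q' B' F') (t : ℕ) :
    |∑ n ∈ Sx X W b, F (cl PP sh n) * F' (cl PP sh (n + t)) -
      (X : ℝ) / W * E2 (fun i => mu2 (gf PP i) (mm PP (rs sh) (t : ℤ) i))
        (fun x x' => F x * F' x')| ≤ B * B' := by
  have h1 := transfer2 (Sx X W b) (cl PP sh) (fun n => cl PP sh (n + t)) (Pf PP)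
    (fun i => mu2 (gf PP i) (mm PP (rs sh) (t : ℤ) i)) ((X : ℝ) / W) 1 Q' B B' zero_le_one hB
    (fun D D' _ _ => by
      have h2 := count_pair d.hP d.injr X W b d.hX d.W1 d.hb d.hPW (t : ℤ) D D'
      rw [E2_ind (gf PP) (fun i => mm PP (rs sh) (t : ℤ) i) (fun i => mm_Mt d.injr (t : ℤ) i)]
      have h3 : ∀ n : ℕ, cl PP sh (n + t) = colr PP (rs sh) ((n : ℤ) + t) := by
        intro n
        unfold cl
        push_cast
        rfl
      simp only [h3]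
      exact h2) F F' hF hF'
  rwa [one_mul] at h1

/-- number of primes of `PP` dividing a positive integer -/
theorem card_dvd (hP : ∀ p ∈ PP, p.Prime) (a : ℕ) (ha : 0 < a) :
    ((univ.filter (fun i : Fin PP.card => (emb PP i : ℕ) ∣ a)).card : ℝ) ≤ 2 * Real.log a := by
  set s := univ.filter (fun i : Fin PP.card => (emb PP i : ℕ) ∣ a) with hs
  have h1 : ∏ i ∈ s, (emb PP i : ℕ) ∣ a := by
    have h0 : ∏ p ∈ s.map (emb PP), p ∣ a := by
      apply Finset.prod_primes_dvd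
      · intro p hp
        rw [mem_map] at hp
        obtain ⟨i, _, rfl⟩ := hp
        exact (hP _ (emb_mem PP i)).prime
      · intro p hp
        rw [mem_map] at hp
        obtain ⟨i, hi, rfl⟩ := hp
        rw [hs, mem_filter] at hi
        exact hi.2
    rwa [prod_map] at h0
  have h2 : 2 ^ s.card ≤ a := by
    refine le_trans ?_ (Nat.le_of_dvd ha h1)
    rw [← prod_const]
    exact prod_le_prod' fun i _ => (hP _ (emb_mem PP i)).two_le
  have h3 : (s.card : ℝ) * Real.log 2 ≤ Real.log a := by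
    rw [← Real.log_pow]
    apply Real.log_le_log (by positivity)
    exact_mod_cast h2
  have h4 : (1 : ℝ) / 2 ≤ Real.log 2 := by
    have := Real.log_two_gt_d9
    linarith
  have h5 : (0 : ℝ) ≤ s.card := Nat.cast_nonneg _
  nlinarith

/-- bad primes -/
noncomputable def badS (PP : Finset ℕ) (sh : κ → ℕ) (t : ℕ) : Finset (Fin PP.card) :=
  univ.filter (fun i => ∃ k l, mm PP (rs sh) (t : ℤ) i k l)

theorem Dat.bad_sum (d : Dat PP sh h z K C4 T0 Q δ w X W b N) {t Y : ℕ} (ht : W ≤ t)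
    (htY : t ≤ Y) :
    ∑ i ∈ badS PP sh t, gf PP i ≤
      (Fintype.card κ : ℝ) ^ 2 * (2 * Real.log (2 * Y) * (1 / w)) := by
  have hNt : N < t := lt_of_lt_of_le d.hNW ht
  have h1 : ∑ i ∈ badS PP sh t, gf PP i ≤
      ∑ i : Fin PP.card, ∑ k : κ, ∑ l : κ, if (emb PP i : ℕ) ∣ (t + sh l - sh k) then
        (1 / w) else 0 := by
    unfold badS
    rw [sum_filter]
    apply sum_le_sum
    intro i _
    have h0 : ∀ k l : κ, (0 : ℝ) ≤ if (emb PP i : ℕ) ∣ (t + sh l - sh k) then (1 / w) else 0 := by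
      intro k l
      split_ifs
      · exact (one_div_pos.2 d.w0).le
      · exact le_rfl
    split_ifs with hi
    · obtain ⟨k, l, hkl⟩ := hi
      have h2 : (emb PP i : ℕ) ∣ (t + sh l - sh k) := by
        unfold mm rs at hkl
        have h3 := d.hsh k
        have h4 : (t : ℤ) + -(sh k : ℤ) - -(sh l : ℤ) = ((t + sh l - sh k : ℕ) : ℤ) := by
          rw [Nat.cast_sub (by omega)]
          push_cast
          ring
        rw [h4] at hkl
        exact_mod_cast hkl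
      calc gf PP i ≤ 1 / w := d.gw i
        _ = if (emb PP i : ℕ) ∣ (t + sh l - sh k) then (1 / w) else 0 := by rw [if_pos h2]
        _ ≤ ∑ l : κ, if (emb PP i : ℕ) ∣ (t + sh l - sh k) then (1 / w) else 0 :=
            single_le_sum (fun l _ => h0 k l) (mem_univ l)
        _ ≤ _ := single_le_sum (f := fun k => ∑ l : κ,
            if (emb PP i : ℕ) ∣ (t + sh l - sh k) then (1 / w) else 0)
            (fun k _ => sum_nonneg fun l _ => h0 k l) (mem_univ k)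
    · exact sum_nonneg fun k _ => sum_nonneg fun l _ => h0 k l
  refine h1.trans ?_
  rw [sum_comm]
  have h2 : ∀ k l : κ, ∑ i : Fin PP.card, (if (emb PP i : ℕ) ∣ (t + sh l - sh k) then
        (1 / w) else 0) ≤ 2 * Real.log (2 * Y) * (1 / w) := by
    intro k l
    rw [← sum_filter, sum_const, nsmul_eq_mul]
    apply mul_le_mul_of_nonneg_right _ (one_div_pos.2 d.w0).le
    have h3 := d.hsh k
    have h4 := d.hsh l
    refine (card_dvd d.hP (t + sh l - sh k) (by omega)).trans ?_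
    apply mul_le_mul_of_nonneg_left _ (by norm_num)
    apply Real.log_le_log
    · have : 0 < t + sh l - sh k := by omega
      exact_mod_cast this
    · have : t + sh l - sh k ≤ 2 * Y := by omega
      exact_mod_cast this
  calc ∑ k : κ, ∑ i : Fin PP.card, ∑ l : κ, (if (emb PP i : ℕ) ∣ (t + sh l - sh k) then
        (1 / w) else 0) = ∑ k : κ, ∑ l : κ, ∑ i : Fin PP.card,
        (if (emb PP i : ℕ) ∣ (t + sh l - sh k) then (1 / w) else 0) := by
        apply sum_congr rfl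
        intro k _
        rw [sum_comm]
    _ ≤ ∑ k : κ, ∑ l : κ, 2 * Real.log (2 * Y) * (1 / w) :=
        sum_le_sum fun k _ => sum_le_sum fun l _ => h2 k l
    _ = _ := by
        rw [sum_const, sum_const, card_univ, nsmul_eq_mul, nsmul_eq_mul]
        ring

/-- the pair correlation over the integers -/
theorem Dat.pair (d : Dat PP sh h z K C4 T0 Q δ w X W b N) {t Y : ℕ} (ht : W ≤ t)
    (htY : t ≤ Y) :
    ∑ n ∈ Sx X W b, (Vn PP sh h Q n) ^ 2 * (Vn PP sh h Q (n + t)) ^ 2 ≤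
      (X : ℝ) / W * (Real.exp (31 * (Fintype.card κ : ℝ) ^ 2 * ∑ i, (gf PP i) ^ 2 +
        13 * (Fintype.card κ : ℝ) * ((Fintype.card κ : ℝ) + 1) ^ 2 *
          ((Fintype.card κ : ℝ) ^ 2 * (2 * Real.log (2 * Y) * (1 / w)))) *
        (Zs κ (gf PP) h * Zs κ (gf PP) h)) + 81 * Q ^ 8 := by
  have h1 := Lv_V2 (κ := κ) d.H d.g1 d.hs Q d.hQ
  have hQ0 : 0 ≤ Q := by linarith [d.hQ]
  have h2 := d.tr2 (by positivity) h1 h1 t
  have h3 := pair_bound d.H Q (fun i => mm PP (rs sh) (t : ℤ) i)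
    (fun i => mm_Mt d.injr (t : ℤ) i) d.u10 d.g1 (badS PP sh t) (by
      intro i hi k l hkl
      apply hi
      unfold badS
      rw [mem_filter]
      exact ⟨mem_univ _, k, l, hkl⟩)
  have h4 := (abs_le.1 h2).2
  have h5 : ∑ n ∈ Sx X W b, (Vn PP sh h Q n) ^ 2 * (Vn PP sh h Q (n + t)) ^ 2 ≤
      (X : ℝ) / W * E2 (fun i => mu2 (gf PP i) (mm PP (rs sh) (t : ℤ) i))
        (fun x x' => (VV (gf PP) (yT (Pf PP) h Q : Col PP.card κ → ℝ) x) ^ 2 *
          (VV (gf PP) (yT (Pf PP) h Q : Col PP.card κ → ℝ) x') ^ 2) + 81 * Q ^ 8 := by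
    have e : 9 * Q ^ 4 * (9 * Q ^ 4) = 81 * Q ^ 8 := by ring
    rw [e] at h4
    unfold Vn
    linarith
  refine h5.trans ?_
  have hXW : (0 : ℝ) ≤ (X : ℝ) / W := by positivity
  have hZT0 : 0 ≤ ZT κ (Pf PP) (gf PP) h Q :=
    sum_nonneg fun D _ => mul_nonneg (nu_nonneg d.H.g0 D) (sq_nonneg _)
  have hZ := ZT_le (κ := κ) d.H Q
  have h6 : ZT κ (Pf PP) (gf PP) h Q * ZT κ (Pf PP) (gf PP) h Q ≤
      Zs κ (gf PP) h * Zs κ (gf PP) h := mul_le_mul hZ hZ hZT0 (hZT0.trans hZ)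
  have h7 : Real.exp (31 * (Fintype.card κ : ℝ) ^ 2 * ∑ i, (gf PP i) ^ 2 +
      13 * (Fintype.card κ : ℝ) * ((Fintype.card κ : ℝ) + 1) ^ 2 *
        ∑ i ∈ badS PP sh t, gf PP i) ≤
      Real.exp (31 * (Fintype.card κ : ℝ) ^ 2 * ∑ i, (gf PP i) ^ 2 +
        13 * (Fintype.card κ : ℝ) * ((Fintype.card κ : ℝ) + 1) ^ 2 *
          ((Fintype.card κ : ℝ) ^ 2 * (2 * Real.log (2 * Y) * (1 / w)))) := by
    apply Real.exp_le_exp.mpr
    have := mul_le_mul_of_nonneg_left (d.bad_sum ht htY)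
      (by positivity : 0 ≤ 13 * (Fintype.card κ : ℝ) * ((Fintype.card κ : ℝ) + 1) ^ 2)
    linarith
  have h8 := h3.trans (mul_le_mul h7 h6 (mul_nonneg hZT0 hZT0) (Real.exp_pos _).le)
  have h9 := mul_le_mul_of_nonneg_left h8 hXW
  linarith

end

end Pool.Agent.K7.H60.TL
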