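import Pool.Agent.K7.H60.TL.Sc
import Pool.Agent.K7.H60.TL.Co2
import Pool.Agent.H256R2.SC.L

/-!
Sums over the products of sieving primes.
-/

set_option autoImplicit false

namespace Pool.Agent.K7.H60.TL

open Finset Pool.Agent.H256R2.SC

open scoped Classical

theorem PS_mem {w z : ℝ} (hz : 0 ≤ z) {p : ℕ} (hp : p ∈ PS w z ∅) :
    p.Prime ∧ w < (p : ℝ) ∧ (p : ℝ) ≤ z := by
  unfold PS at hp
  rw [mem_filter, mem_Icc] at hp
  refine ⟨hp.2.1, hp.2.2.1, ?_⟩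
  calc (p : ℝ) ≤ (⌊z⌋₊ : ℝ) := by exact_mod_cast hp.1.2
    _ ≤ z := Nat.floor_le hz

theorem half_log_floor {w : ℝ} (hw : 4 ≤ w) : Real.log w / 2 ≤ Real.log (⌊w⌋₊ : ℝ) := by
  have h1 : w - 1 < (⌊w⌋₊ : ℝ) := Nat.sub_one_lt_floor w
  have h2 : w ≤ (⌊w⌋₊ : ℝ) ^ 2 := by nlinarith
  have h3 : Real.log w ≤ Real.log ((⌊w⌋₊ : ℝ) ^ 2) := Real.log_le_log (by linarith) h2
  rw [Real.log_pow] at h3
  push_cast at h3
  linarith

theorem Uw_bound : ∃ C3 : ℝ, 1 ≤ C3 ∧ ∀ w z x : ℝ, 4 ≤ w → w ≤ x → 0 ≤ z →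
    Uw (Pf (PS w z ∅)) (gf (PS w z ∅)) x ≤ C3 * (Real.log x / Real.log w) := by
  obtain ⟨CM₀, hM₀⟩ := Pool.Agent.Helper256.KM.mertens_inv
  set CM : ℝ := max CM₀ 0 with hCM
  have hCM0 : 0 ≤ CM := le_max_right _ _
  have hCMle : CM₀ ≤ CM := le_max_left _ _
  refine ⟨2 * Real.exp (2 * CM), ?_, ?_⟩
  · have := Real.one_le_exp (by positivity : 0 ≤ 2 * CM)
    linarith
  intro w z x hw hwx hz
  set PP := PS w z ∅ with hPP
  have hx0 : 0 < x := by linarith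
  have hg0 : ∀ i, 0 ≤ gf PP i := fun i => by
    have : (0 : ℝ) ≤ ((emb PP i : ℕ) : ℝ) := Nat.cast_nonneg _
    exact div_nonneg zero_le_one this
  have hP1 : ∀ i, 1 ≤ Pf PP i := fun i => by
    have h1 := (PS_mem hz (emb_mem PP i)).1.one_lt
    exact_mod_cast h1.le
  set I : Finset (Fin PP.card) := univ.filter (fun i => Pf PP i ≤ x) with hI
  have h1 : Uw (Pf PP) (gf PP) x ≤ ∏ i ∈ I, (1 + gf PP i) := by
    rw [prod_one_add]
    unfold Uw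
    refine sum_le_sum_of_subset_of_nonneg ?_ fun s _ _ => prod_nonneg fun i _ => hg0 i
    intro s hs
    rw [mem_filter] at hs
    rw [mem_powerset]
    intro i hi
    rw [hI, mem_filter]
    refine ⟨mem_univ _, le_trans ?_ hs.2⟩
    rw [← Finset.mul_prod_erase s (Pf PP) hi]
    apply le_mul_of_one_le_right ((zero_le_one).trans (hP1 i))
    calc (1 : ℝ) = ∏ j ∈ s.erase i, (1 : ℝ) := by simp
      _ ≤ _ := Finset.prod_le_prod (fun _ _ => zero_le_one) fun j _ => hP1 j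
  have h2 : ∏ i ∈ I, (1 + gf PP i) ≤ Real.exp (∑ i ∈ I, gf PP i) := by
    rw [Real.exp_sum]
    apply prod_le_prod
    · intro i _
      have := hg0 i
      linarith
    · intro i _
      rw [add_comm]
      exact Real.add_one_le_exp _
  have h3 : ∑ i ∈ I, gf PP i = ∑ p ∈ I.map (emb PP), 1 / (p : ℝ) := by
    rw [sum_map]
  set A := (Finset.Icc 1 ⌊x⌋₊).filter Nat.Prime with hA
  set B := (Finset.Icc 1 ⌊w⌋₊).filter Nat.Prime with hB
  have hBA : B ⊆ A := by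
    intro p hp
    rw [hB, mem_filter, mem_Icc] at hp
    rw [hA, mem_filter, mem_Icc]
    exact ⟨⟨hp.1.1, hp.1.2.trans (Nat.floor_le_floor hwx)⟩, hp.2⟩
  have h4 : ∑ p ∈ I.map (emb PP), 1 / (p : ℝ) ≤ ∑ p ∈ A \ B, 1 / (p : ℝ) := by
    refine sum_le_sum_of_subset_of_nonneg ?_ fun p _ _ => by positivity
    intro p hp
    rw [mem_map] at hp
    obtain ⟨i, hi, rfl⟩ := hp
    rw [hI, mem_filter] at hi
    have q := PS_mem hz (emb_mem PP i)
    rw [mem_sdiff, hA, hB, mem_filter, mem_filter, mem_Icc, mem_Icc]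
    refine ⟨⟨⟨q.1.one_lt.le, Nat.le_floor hi.2⟩, q.1⟩, ?_⟩
    rintro ⟨⟨_, h5⟩, _⟩
    have h6 : (((emb PP i : ℕ)) : ℝ) ≤ w := by
      calc (((emb PP i : ℕ)) : ℝ) ≤ (⌊w⌋₊ : ℝ) := by exact_mod_cast h5
        _ ≤ w := Nat.floor_le (by linarith)
    linarith [q.2.1]
  have h5 : ∑ p ∈ A \ B, 1 / (p : ℝ) = ∑ p ∈ A, 1 / (p : ℝ) - ∑ p ∈ B, 1 / (p : ℝ) := by
    rw [← sum_sdiff hBA]
    ring
  have hw3 : 3 ≤ ⌊w⌋₊ := Nat.le_floor (by push_cast; linarith)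
  have hx3 : 3 ≤ ⌊x⌋₊ := hw3.trans (Nat.floor_le_floor hwx)
  have h6 := (abs_le.1 (hM₀ ⌊x⌋₊ hx3)).2
  have h7 := (abs_le.1 (hM₀ ⌊w⌋₊ hw3)).1
  have hlw : 0 < Real.log w := Real.log_pos (by linarith)
  have hlx : 0 < Real.log x := Real.log_pos (by linarith)
  have h8 : Real.log (Real.log (⌊x⌋₊ : ℝ)) ≤ Real.log (Real.log x) := by
    have e1 : (3 : ℝ) ≤ (⌊x⌋₊ : ℝ) := by exact_mod_cast hx3
    apply Real.log_le_log (Real.log_pos (by linarith))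
    exact Real.log_le_log (by linarith) (Nat.floor_le hx0.le)
  have h9 : Real.log (Real.log w / 2) ≤ Real.log (Real.log (⌊w⌋₊ : ℝ)) :=
    Real.log_le_log (by positivity) (half_log_floor hw)
  have h10 : ∑ p ∈ A \ B, 1 / (p : ℝ) ≤
      Real.log (Real.log x) - Real.log (Real.log w / 2) + 2 * CM := by
    rw [h5]
    have e1 : ∑ p ∈ A, 1 / (p : ℝ) = ∑ p ∈ (Finset.Icc 1 ⌊x⌋₊).filter Nat.Prime, (1 : ℝ) / p := rfl
    have e2 : ∑ p ∈ B, 1 / (p : ℝ) = ∑ p ∈ (Finset.Icc 1 ⌊w⌋₊).filter Nat.Prime, (1 : ℝ) / p := rfl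
    rw [e1, e2]
    linarith
  refine h1.trans (h2.trans ?_)
  rw [h3]
  refine (Real.exp_le_exp.mpr (h4.trans h10)).trans (le_of_eq ?_)
  rw [Real.exp_add, Real.exp_sub, Real.exp_log hlx, Real.exp_log (by positivity)]
  field_simp

theorem Aw_ge {PP : Finset ℕ} (T0 x : ℝ) :
    Asum (Pf PP) (gf PP) x - Uw (Pf PP) (gf PP) T0 ≤ Aw (Pf PP) (gf PP) T0 x := by
  have hG : ∀ s : Finset (Fin PP.card), 0 ≤ ∏ j ∈ s, gf PP j := fun s =>
    prod_nonneg fun i _ => div_nonneg zero_le_one (Nat.cast_nonneg _)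
  have h1 : Asum (Pf PP) (gf PP) x ≤ Aw (Pf PP) (gf PP) T0 x + Uw (Pf PP) (gf PP) T0 := by
    unfold Asum Aw Uw
    rw [Finset.sum_filter, Finset.sum_filter, Finset.sum_filter, ← sum_add_distrib]
    apply sum_le_sum
    intro s _
    have hs := hG s
    by_cases h1 : s.Nonempty
    · by_cases h2 : ∏ i ∈ s, Pf PP i ≤ x
      · by_cases h3 : T0 ≤ ∏ i ∈ s, Pf PP i
        · rw [if_pos ⟨h1, h2⟩, if_pos ⟨h1, h3, h2⟩]
          split_ifs <;> linarith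
        · rw [if_pos ⟨h1, h2⟩, if_neg (fun hh => h3 hh.2.1), if_pos (not_le.1 h3).le]
          linarith
      · rw [if_neg (fun hh => h2 hh.2), if_neg (fun hh => h2 hh.2.2)]
        split_ifs <;> linarith
    · rw [if_neg (fun hh => h1 hh.1), if_neg (fun hh => h1 hh.1)]
      split_ifs <;> linarith
  linarith

/-- sum of the reciprocals of the sieving primes -/
theorem sum_gf_le : ∃ CM : ℝ, 0 ≤ CM ∧ ∀ w z : ℝ, 3 ≤ z →
    ∑ i, gf (PS w z ∅) i ≤ Real.log (Real.log z) + CM := by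
  obtain ⟨CM₀, hM₀⟩ := Pool.Agent.Helper256.KM.mertens_inv
  refine ⟨max CM₀ 0, le_max_right _ _, ?_⟩
  intro w z hz
  set PP := PS w z ∅ with hPP
  have h1 : ∑ i, gf PP i = ∑ p ∈ PP, 1 / (p:ℝ) := by
    have : PP = univ.map (emb PP) := by
      ext p
      rw [Finset.mem_map]
      constructor
      · intro hp
        obtain ⟨i, hi⟩ := emb_surj PP hp
        exact ⟨i, Finset.mem_univ _, hi⟩
      · rintro ⟨i, _, rfl⟩
        exact emb_mem PP i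
    conv_rhs => rw [this]
    rw [Finset.sum_map]
  have hz3 : 3 ≤ ⌊z⌋₊ := Nat.le_floor (by exact_mod_cast hz)
  have h2 := (abs_le.mp (hM₀ ⌊z⌋₊ hz3)).2
  have h3 : ∑ p ∈ PP, 1 / (p:ℝ) ≤ ∑ p ∈ (Finset.Icc 1 ⌊z⌋₊).filter Nat.Prime, (1 : ℝ) / p := by
    apply Finset.sum_le_sum_of_subset_of_nonneg
    · intro p hp
      rw [hPP] at hp
      unfold PS at hp
      rw [Finset.mem_filter] at hp ⊢
      exact ⟨hp.1, hp.2.1⟩
    · intro p _ _
      positivity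
  have h4 : Real.log (Real.log (⌊z⌋₊ : ℝ)) ≤ Real.log (Real.log z) := by
    have e1 : (3:ℝ) ≤ (⌊z⌋₊ : ℝ) := by exact_mod_cast hz3
    apply Real.log_le_log (Real.log_pos (by linarith))
    exact Real.log_le_log (by linarith) (Nat.floor_le (by linarith))
  rw [h1]
  have := le_max_left CM₀ 0
  linarith

/-- number of the sieving primes -/
theorem card_PS (w z : ℝ) (hz : 1 ≤ z) : ((PS w z ∅).card : ℝ) + 1 ≤ z := by
  have h1 : PS w z ∅ ⊆ Finset.Icc 2 ⌊z⌋₊ := by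
    intro p hp
    unfold PS at hp
    rw [Finset.mem_filter, Finset.mem_Icc] at hp
    rw [Finset.mem_Icc]
    exact ⟨hp.2.1.two_le, hp.1.2⟩
  have h2 := Finset.card_le_card h1
  rw [Nat.card_Icc] at h2
  have h3 : 1 ≤ ⌊z⌋₊ := Nat.le_floor (by exact_mod_cast hz)
  have h4 : (PS w z ∅).card + 1 ≤ ⌊z⌋₊ := by omega
  calc ((PS w z ∅).card : ℝ) + 1 ≤ (⌊z⌋₊ : ℝ) := by exact_mod_cast h4
    _ ≤ z := Nat.floor_le (by linarith)

end Pool.Agent.K7.H60.TL
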