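import Pool.Agent.K7.H60.TL.TR
import Pool.Agent.H256R2.SC.Par

/-!
Counting integers of a class with prescribed colours at two points.
-/

set_option autoImplicit false
set_option linter.unusedSectionVars false

namespace Pool.Agent.K7.H60.TL

open Finset Pool.Agent.H256R2.SC

open scoped Classical

variable {κ : Type} [Fintype κ] [DecidableEq κ]

/-- the integers of `[X, 2X)` in a class -/
noncomputable def Sx (X W b : ℕ) : Finset ℕ := (Ico X (2 * X)).filter (fun n => n % W = b)

theorem count_nat (X q : ℕ) (hX : 1 ≤ X) (hq : 1 ≤ q) (r : ℤ) :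
    |(((Ico X (2 * X)).filter (fun n : ℕ => (q : ℤ) ∣ (n : ℤ) - r)).card : ℝ) - (X : ℝ) / q| ≤ 1 := by
  have h1 := count_ap ((X : ℤ) - 1) (2 * X - 1) (by omega) q hq r
  have h2 : ((Ico X (2 * X)).filter (fun n : ℕ => (q : ℤ) ∣ (n : ℤ) - r)).card =
      ((Ioc ((X : ℤ) - 1) (2 * X - 1)).filter (fun x => (q : ℤ) ∣ x - r)).card := by
    refine card_bij (fun n _ => (n : ℤ)) ?_ ?_ ?_
    · intro n hn
      rw [mem_filter, mem_Ico] at hn
      rw [mem_filter, mem_Ioc]
      exact ⟨by omega, hn.2⟩
    · intro a _ b _ hab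
      exact_mod_cast hab
    · intro x hx
      rw [mem_filter, mem_Ioc] at hx
      refine ⟨x.toNat, ?_, ?_⟩
      · rw [mem_filter, mem_Ico]
        have h3 : ((x.toNat : ℕ) : ℤ) = x := Int.toNat_of_nonneg (by omega)
        refine ⟨by omega, ?_⟩
        rw [h3]
        exact hx.2
      · exact Int.toNat_of_nonneg (by omega)
  rw [h2]
  have h3 : (((2 * X - 1 : ℤ) : ℝ) - (((X : ℤ) - 1 : ℤ) : ℝ)) / q = (X : ℝ) / q := by
    push_cast
    congr 1
    ring
  rw [h3] at h1
  exact h1

/-- simultaneous congruences -/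
theorem count_crt {ι : Type} (X W b : ℕ) (hX : 1 ≤ X) (hW : 1 ≤ W) (hb : b < W) (s : Finset ι)
    (P : ι → ℕ) (hP : ∀ i ∈ s, (P i).Prime) (hPW : ∀ i ∈ s, ¬ P i ∣ W)
    (hinj : ∀ i ∈ s, ∀ j ∈ s, P i = P j → i = j) (c : ι → ℤ) :
    |(((Sx X W b).filter (fun n : ℕ => ∀ i ∈ s, ((P i : ℕ) : ℤ) ∣ (n : ℤ) - c i)).card : ℝ) -
      (X : ℝ) / W * ∏ i ∈ s, 1 / (P i : ℝ)| ≤ 1 := by
  classical
  set M : Option ι → ℤ := fun o => match o with
    | none => (W : ℤ)
    | some i => ((P i : ℕ) : ℤ) with hM
  set c' : Option ι → ℤ := fun o => match o with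
    | none => (b : ℤ)
    | some i => c i with hc'
  set s' : Finset (Option ι) := insert none (s.map Function.Embedding.some) with hs'
  have hcop : ∀ i ∈ s', ∀ j ∈ s', i ≠ j → IsCoprime (M i) (M j) := by
    have hWP : ∀ i ∈ s, IsCoprime (W : ℤ) ((P i : ℕ) : ℤ) := by
      intro i hi
      apply Nat.isCoprime_iff_coprime.mpr
      rw [Nat.coprime_comm]
      exact (Nat.Prime.coprime_iff_not_dvd (hP i hi)).2 (hPW i hi)
    intro i hi j hj hij
    rw [hs', mem_insert, mem_map] at hi hj
    rcases hi with rfl | ⟨i', hi', rfl⟩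
    · rcases hj with rfl | ⟨j', hj', rfl⟩
      · exact absurd rfl hij
      · exact hWP j' hj'
    · rcases hj with rfl | ⟨j', hj', rfl⟩
      · exact (hWP i' hi').symm
      · apply Nat.isCoprime_iff_coprime.mpr
        apply (Nat.coprime_primes (hP i' hi') (hP j' hj')).mpr
        intro h
        exact hij (by rw [hinj i' hi' j' hj' h])
  obtain ⟨r, hr⟩ := crt_int s' M hcop c'
  have hrW : (W : ℤ) ∣ r - b := hr none (by rw [hs']; exact mem_insert_self _ _)
  have hrP : ∀ i ∈ s, ((P i : ℕ) : ℤ) ∣ r - c i := fun i hi =>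
    hr (some i) (by rw [hs', mem_insert, mem_map]; exact Or.inr ⟨i, hi, rfl⟩)
  set q : ℕ := W * ∏ i ∈ s, P i with hq
  have hq1 : 1 ≤ q := by
    apply Nat.succ_le_of_lt
    apply Nat.mul_pos hW
    exact prod_pos fun i hi => (hP i hi).pos
  have hiff : ∀ n : ℕ, (n % W = b ∧ ∀ i ∈ s, ((P i : ℕ) : ℤ) ∣ (n : ℤ) - c i) ↔
      (q : ℤ) ∣ (n : ℤ) - r := by
    intro n
    have hqM : (q : ℤ) = ∏ o ∈ s', M o := by
      rw [hs', prod_insert (by simp), prod_map, hq]
      push_cast
      rfl
    have hbW : n % W = b ↔ (W : ℤ) ∣ (n : ℤ) - b := by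
      constructor
      · intro h
        have h1 : n ≡ b [MOD W] := by
          unfold Nat.ModEq
          rw [h, Nat.mod_eq_of_lt hb]
        exact (Nat.modEq_iff_dvd.1 h1.symm)
      · intro h
        have h1 : b ≡ n [MOD W] := Nat.modEq_iff_dvd.2 h
        unfold Nat.ModEq at h1
        rw [Nat.mod_eq_of_lt hb] at h1
        exact h1.symm
    constructor
    · rintro ⟨h1, h2⟩
      rw [hqM]
      apply Finset.prod_dvd_of_coprime
      · intro i hi j hj hij
        exact hcop i hi j hj hij
      · intro o ho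
        rw [hs', mem_insert, mem_map] at ho
        rcases ho with rfl | ⟨i, hi, rfl⟩
        · have h3 := dvd_sub (hbW.1 h1) hrW
          have e : (n : ℤ) - b - (r - b) = (n : ℤ) - r := by ring
          rw [e] at h3
          exact h3
        · have h3 := dvd_sub (h2 i hi) (hrP i hi)
          have e : (n : ℤ) - c i - (r - c i) = (n : ℤ) - r := by ring
          rw [e] at h3
          exact h3
    · intro h
      refine ⟨?_, ?_⟩
      · rw [hbW]
        have h1 : (W : ℤ) ∣ (n : ℤ) - r := dvd_trans ⟨((∏ i ∈ s, P i : ℕ) : ℤ), by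
          rw [hq]; push_cast; ring⟩ h
        have h3 := dvd_add h1 hrW
        have e : (n : ℤ) - r + (r - b) = (n : ℤ) - b := by ring
        rw [e] at h3
        exact h3
      · intro i hi
        have h1 : ((P i : ℕ) : ℤ) ∣ (n : ℤ) - r := by
          refine dvd_trans ?_ h
          have h2 : P i ∣ q := dvd_mul_of_dvd_right (dvd_prod_of_mem P hi) W
          exact_mod_cast h2
        have h3 := dvd_add h1 (hrP i hi)
        have e : (n : ℤ) - r + (r - c i) = (n : ℤ) - c i := by ring
        rw [e] at h3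
        exact h3
  have h1 : (Sx X W b).filter (fun n : ℕ => ∀ i ∈ s, ((P i : ℕ) : ℤ) ∣ (n : ℤ) - c i) =
      (Ico X (2 * X)).filter (fun n : ℕ => (q : ℤ) ∣ (n : ℤ) - r) := by
    unfold Sx
    rw [filter_filter]
    exact filter_congr fun n _ => hiff n
  rw [h1]
  have h2 : (X : ℝ) / W * ∏ i ∈ s, 1 / (P i : ℝ) = (X : ℝ) / q := by
    rw [hq]
    push_cast
    rw [prod_div_distrib, prod_const_one]
    rw [div_mul_div_comm, mul_one]
  rw [h2]
  exact count_nat X q hX hq1 r

section
variable {PP : Finset ℕ} {res : ℕ → κ → ℤ}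

/-- the colours `k` at `a` and `l` at `a + t` coincide -/
def mm (PP : Finset ℕ) (res : ℕ → κ → ℤ) (t : ℤ) (i : Fin PP.card) (k l : κ) : Prop :=
  ((emb PP i : ℕ) : ℤ) ∣ t + res (emb PP i) k - res (emb PP i) l

theorem mm_Mt (hinj : ∀ p ∈ PP, ∀ k l, k ≠ l → ¬ ((p : ℤ) ∣ res p k - res p l)) (t : ℤ)
    (i : Fin PP.card) : Mt (mm PP res t i) := by
  constructor
  · intro k l l' h1 h2
    by_contra hne
    apply hinj _ (emb_mem PP i) l l' hne
    have h3 := dvd_sub h2 h1
    have e : t + res (emb PP i) k - res (emb PP i) l' - (t + res (emb PP i) k - res (emb PP i) l) =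
        res (emb PP i) l - res (emb PP i) l' := by ring
    rwa [e] at h3
  · intro k k' l h1 h2
    by_contra hne
    apply hinj _ (emb_mem PP i) k k' hne
    have h3 := dvd_sub h1 h2
    have e : t + res (emb PP i) k - res (emb PP i) l - (t + res (emb PP i) k' - res (emb PP i) l) =
        res (emb PP i) k - res (emb PP i) k' := by ring
    rwa [e] at h3

theorem count_pair (hP : ∀ p ∈ PP, p.Prime)
    (hinj : ∀ p ∈ PP, ∀ k l, k ≠ l → ¬ ((p : ℤ) ∣ res p k - res p l))
    (X W b : ℕ) (hX : 1 ≤ X) (hW : 1 ≤ W) (hb : b < W) (hPW : ∀ p ∈ PP, ¬ p ∣ W) (t : ℤ)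
    (D D' : Col PP.card κ) :
    |(((Sx X W b).filter (fun n : ℕ => Ev D (colr PP res (n : ℤ)) ∧
        Ev D' (colr PP res ((n : ℤ) + t)))).card : ℝ) -
      (X : ℝ) / W * ∏ i, nu2 (1 / ((emb PP i : ℕ) : ℝ)) (mm PP res t i) (D i) (D' i)| ≤ 1 := by
  by_cases hbad : ∃ i k l, D i = some k ∧ D' i = some l ∧ ¬ mm PP res t i k l
  · obtain ⟨i, k, l, hk, hl, hm⟩ := hbad
    have h1 : (Sx X W b).filter (fun n : ℕ => Ev D (colr PP res (n : ℤ)) ∧
        Ev D' (colr PP res ((n : ℤ) + t))) = ∅ := by
      rw [filter_eq_empty_iff]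
      rintro n _ ⟨h1, h2⟩
      have e1 := h1 i (by rw [hk]; simp)
      have e2 := h2 i (by rw [hl]; simp)
      rw [hk, colr_eq hinj] at e1
      rw [hl, colr_eq hinj] at e2
      apply hm
      have h3 := dvd_sub e2 e1
      have e : (n : ℤ) + t - res (emb PP i) l - ((n : ℤ) - res (emb PP i) k) =
          t + res (emb PP i) k - res (emb PP i) l := by ring
      rw [e] at h3
      exact h3
    have h2 : ∏ i, nu2 (1 / ((emb PP i : ℕ) : ℝ)) (mm PP res t i) (D i) (D' i) = 0 := by
      apply prod_eq_zero (mem_univ i)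
      rw [hk, hl]
      simp only [nu2, if_neg hm]
    rw [h1, h2]
    simp
  · push Not at hbad
    set s : Finset (Fin PP.card) := supp D ∪ supp D' with hs
    set c : Fin PP.card → ℤ := fun i => match D i, D' i with
      | some k, _ => res (emb PP i) k
      | none, some l => res (emb PP i) l - t
      | none, none => 0 with hc
    have h1 : (Sx X W b).filter (fun n : ℕ => Ev D (colr PP res (n : ℤ)) ∧
        Ev D' (colr PP res ((n : ℤ) + t))) =
        (Sx X W b).filter (fun n : ℕ => ∀ i ∈ s, ((emb PP i : ℕ) : ℤ) ∣ (n : ℤ) - c i) := by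
      apply filter_congr
      intro n _
      have key : ∀ i, ((D i ≠ none → colr PP res (n : ℤ) i = D i) ∧
          (D' i ≠ none → colr PP res ((n : ℤ) + t) i = D' i)) ↔
          (i ∈ s → ((emb PP i : ℕ) : ℤ) ∣ (n : ℤ) - c i) := by
        intro i
        rw [hs, mem_union, mem_supp, mem_supp]
        cases hD : D i with
        | none =>
          cases hD' : D' i with
          | none => simp
          | some l =>
            have hci : c i = res (emb PP i) l - t := by simp only [hc, hD, hD']
            rw [hci]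
            simp only [ne_eq, not_true_eq_false, false_implies, true_and, reduceCtorEq,
              not_false_eq_true, true_implies, false_or]
            rw [colr_eq hinj]
            have e : (n : ℤ) + t - res (emb PP i) l = (n : ℤ) - (res (emb PP i) l - t) := by ring
            rw [e]
        | some k =>
          have hci : c i = res (emb PP i) k := by simp only [hc, hD]
          rw [hci]
          cases hD' : D' i with
          | none =>
            simp only [ne_eq, not_true_eq_false, false_implies, and_true, reduceCtorEq,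
              not_false_eq_true, true_implies, or_false]
            rw [colr_eq hinj]
          | some l =>
            simp only [ne_eq, reduceCtorEq, not_false_eq_true, true_implies, or_self]
            rw [colr_eq hinj, colr_eq hinj]
            have hm := hbad i k l hD hD'
            constructor
            · exact fun h => h.1
            · intro h
              refine ⟨h, ?_⟩
              have h3 := dvd_add h hm
              have e : (n : ℤ) - res (emb PP i) k + (t + res (emb PP i) k - res (emb PP i) l) =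
                  (n : ℤ) + t - res (emb PP i) l := by ring
              rw [e] at h3
              exact h3
      constructor
      · rintro ⟨h1, h2⟩ i hi
        exact (key i).1 ⟨h1 i, h2 i⟩ hi
      · intro h
        exact ⟨fun i => ((key i).2 (h i)).1, fun i => ((key i).2 (h i)).2⟩
    have h2 : ∏ i, nu2 (1 / ((emb PP i : ℕ) : ℝ)) (mm PP res t i) (D i) (D' i) =
        ∏ i ∈ s, 1 / ((emb PP i : ℕ) : ℝ) := by
      rw [← prod_subset (subset_univ s)]
      · apply prod_congr rfl
        intro i hi
        rw [hs, mem_union, mem_supp, mem_supp] at hi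
        cases hD : D i with
        | none =>
          cases hD' : D' i with
          | none =>
            exfalso
            rcases hi with h | h
            · exact h hD
            · exact h hD'
          | some l => simp only [nu2]
        | some k =>
          cases hD' : D' i with
          | none => simp only [nu2]
          | some l => simp only [nu2, if_pos (hbad i k l hD hD')]
      · intro i _ hi
        rw [hs, mem_union, mem_supp, mem_supp] at hi
        push Not at hi
        rw [hi.1, hi.2]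
        simp only [nu2]
    rw [h1, h2]
    convert count_crt X W b hX hW hb s (fun i => emb PP i) (fun i _ => hP _ (emb_mem PP i))
      (fun i _ => hPW _ (emb_mem PP i)) (fun i _ j _ h => (emb PP).injective h) c

theorem count_single (hP : ∀ p ∈ PP, p.Prime)
    (hinj : ∀ p ∈ PP, ∀ k l, k ≠ l → ¬ ((p : ℤ) ∣ res p k - res p l))
    (X W b : ℕ) (hX : 1 ≤ X) (hW : 1 ≤ W) (hb : b < W) (hPW : ∀ p ∈ PP, ¬ p ∣ W)
    (D : Col PP.card κ) :
    |(((Sx X W b).filter (fun n : ℕ => ∀ i, D i ≠ none → colr PP res (n : ℤ) i = D i)).card : ℝ) -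
      (X : ℝ) / W * nu (fun i => 1 / ((emb PP i : ℕ) : ℝ)) D| ≤ 1 := by
  have h1 := count_pair hP hinj X W b hX hW hb hPW 0 D (fun _ => none)
  have h2 : (Sx X W b).filter (fun n : ℕ => Ev D (colr PP res (n : ℤ)) ∧
        Ev (fun _ => none) (colr PP res ((n : ℤ) + 0))) =
      (Sx X W b).filter (fun n : ℕ => ∀ i, D i ≠ none → colr PP res (n : ℤ) i = D i) := by
    apply filter_congr
    intro n _
    constructor
    · exact fun h => h.1
    · intro h
      exact ⟨h, fun i hi => absurd rfl hi⟩
  have h3 : ∏ i, nu2 (1 / ((emb PP i : ℕ) : ℝ)) (mm PP res 0 i) (D i) none =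
      nu (fun i => 1 / ((emb PP i : ℕ) : ℝ)) D := by
    unfold nu
    apply prod_congr rfl
    intro i _
    cases D i <;> simp only [nu1, nu2]
  rw [h2, h3] at h1
  exact h1

end

end Pool.Agent.K7.H60.TL
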