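import Pool.Agent.K7.H60.TL.PT
import Pool.Agent.K7.H60.TL.NTc

/-!
Levels of the weights; sums over the integers.
-/

set_option autoImplicit false
set_option linter.unusedSectionVars false

namespace Pool.Agent.K7.H60.TL

open Finset Pool.Agent.H256R2.SC

open scoped Classical

variable {n : ℕ} {κ : Type} [Fintype κ] [DecidableEq κ]

theorem Bn_eq (J : ℕ) (k : κ) (x : Col n κ) :
    Bn J k x = ∑ s : Finset (Fin n) with s.card = J, ind (onS k s) x := by
  have h1 : ∀ s : Finset (Fin n), (∀ i ∈ s, x i = some k) ↔ s ⊆ hits k x := by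
    intro s
    constructor
    · intro h i hi
      unfold hits
      rw [mem_filter]
      exact ⟨mem_univ _, h i hi⟩
    · intro h i hi
      have := h hi
      unfold hits at this
      rw [mem_filter] at this
      exact this.2
  have h2 : ∀ s : Finset (Fin n), ind (onS k s) x = if s ⊆ hits k x then (1 : ℝ) else 0 := by
    intro s
    rw [ind_onS]
    by_cases hs : s ⊆ hits k x
    · rw [if_pos hs, if_pos ((h1 s).2 hs)]
    · rw [if_neg hs, if_neg (fun hh => hs ((h1 s).1 hh))]
  simp only [h2]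
  rw [← sum_filter, filter_filter, sum_const, nsmul_eq_mul, mul_one]
  unfold Bn
  rw [← card_powersetCard]
  congr 2
  ext s
  rw [mem_powersetCard, mem_filter]
  simp only [mem_univ, true_and]
  exact and_comm

theorem Lv_Bn (p : Fin n → ℝ) (hp : ∀ i, 1 ≤ p i) (z : ℝ) (hz : ∀ i, p i ≤ z)
    (J : ℕ) (k : κ) : Lv p (z ^ J) ((n + 1) ^ J) (Bn J k : Col n κ → ℝ) := by
  refine ⟨fun E => ∑ s : Finset (Fin n) with s.card = J,
    (if onS k s = E then 1 else 0), ?_, ?_, ?_⟩
  · intro x
    rw [Bn_eq]
    simp_rw [Finset.sum_mul]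
    rw [Finset.sum_comm]
    apply Finset.sum_congr rfl
    intro s _
    rw [Finset.sum_eq_single (onS k s)]
    · simp
    · intro E _ hE
      rw [if_neg (Ne.symm hE)]
      simp
    · intro h
      exact absurd (Finset.mem_univ _) h
  · calc ∑ E : Col n κ, |∑ s : Finset (Fin n) with s.card = J,
          (if onS k s = E then (1 : ℝ) else 0)|
        ≤ ∑ E : Col n κ, ∑ s : Finset (Fin n) with s.card = J,
          (if onS k s = E then (1 : ℝ) else 0) := by
          apply Finset.sum_le_sum
          intro E _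
          refine (Finset.abs_sum_le_sum_abs _ _).trans (le_of_eq ?_)
          apply Finset.sum_congr rfl
          intro s _
          split_ifs <;> simp
      _ = ∑ s : Finset (Fin n) with s.card = J, ∑ E : Col n κ,
          (if onS k s = E then (1 : ℝ) else 0) := Finset.sum_comm
      _ = ∑ s : Finset (Fin n) with s.card = J, (1 : ℝ) := by
          apply Finset.sum_congr rfl
          intro s _
          rw [Finset.sum_ite_eq]
          simp
      _ = ((univ.filter (fun s : Finset (Fin n) => s.card = J)).card : ℝ) := by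
          rw [Finset.sum_const, nsmul_eq_mul, mul_one]
      _ ≤ ((univ.filter (fun s : Finset (Fin n) => s.card ≤ J)).card : ℝ) := by
          have : (univ.filter (fun s : Finset (Fin n) => s.card = J)).card ≤
              (univ.filter (fun s : Finset (Fin n) => s.card ≤ J)).card := by
            apply card_le_card
            intro s hs
            rw [mem_filter] at hs ⊢
            exact ⟨hs.1, hs.2.le⟩
          exact_mod_cast this
      _ ≤ ((n : ℝ) + 1) ^ J := by
          have h := card_small n J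
          have h' : (((univ.filter (fun s : Finset (Fin n) => s.card ≤ J)).card : ℕ) : ℝ) ≤
              (((n + 1) ^ J : ℕ) : ℝ) := by exact_mod_cast h
          push_cast at h'
          exact h'
  · intro E hE
    obtain ⟨s, hs1, hs2⟩ := Finset.exists_ne_zero_of_sum_ne_zero hE
    have hs3 : onS k s = E := by
      by_contra h
      rw [if_neg h] at hs2
      exact hs2 rfl
    simp only [mem_filter, mem_univ, true_and] at hs1
    rw [← hs3]
    have h2 : qq p (onS k s) = ∏ i ∈ s, p i := by
      unfold qq onS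
      rw [← Finset.prod_filter_mul_prod_filter_not univ (fun i => i ∈ s)]
      have h3 : ∏ i with i ∉ s, nu1 (p i) (if i ∈ s then some k else none) = 1 := by
        apply Finset.prod_eq_one
        intro i hi
        simp only [mem_filter, mem_univ, true_and] at hi
        simp [hi, nu1]
      rw [h3, mul_one, Finset.filter_mem_eq_inter, Finset.univ_inter]
      apply Finset.prod_congr rfl
      intro i hi
      simp [hi, nu1]
    rw [h2]
    calc ∏ i ∈ s, p i ≤ ∏ i ∈ s, z := by
          apply Finset.prod_le_prod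
          · intro i _
            exact le_trans zero_le_one (hp i)
          · intro i _
            exact hz i
      _ = z ^ s.card := by rw [Finset.prod_const]
      _ = z ^ J := by rw [hs1]

section
variable {p g : Fin n → ℝ} {h : Finset (Fin n) → ℝ} {z K C4 T0 : ℝ}

theorem Lv_V (H : HB p g h z K C4 T0) (hg1 : ∀ i, g i ≤ 1)
    (hs : 2 * (Fintype.card κ : ℝ) * ∑ i, 1 / (p i) ^ 2 ≤ 1) (Q : ℝ) (hQ : 1 ≤ Q) :
    Lv p Q (3 * Q ^ 2) (VV g (yT p h Q : Col n κ → ℝ)) := by
  have hp1 : ∀ i, 1 ≤ p i := fun i => (H.p1 i).le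
  refine Lv_mono le_rfl (count_assign (κ := κ) p hp1 hs Q (by linarith)) ?_
  refine Lv_VV p g hp1 (fun i => (H.g0 i).le) hg1 (yT p h Q) ?_ Q ?_
  · intro D
    unfold yT
    split_ifs
    · exact yy_abs_le H.h0 H.h1 D
    · simp
  · intro D hD
    by_contra hc
    exact hD (by unfold yT; rw [if_neg hc])

theorem Lv_V2 (H : HB p g h z K C4 T0) (hg1 : ∀ i, g i ≤ 1)
    (hs : 2 * (Fintype.card κ : ℝ) * ∑ i, 1 / (p i) ^ 2 ≤ 1) (Q : ℝ) (hQ : 1 ≤ Q) :
    Lv p (Q ^ 2) (9 * Q ^ 4) (fun x => (VV g (yT p h Q : Col n κ → ℝ) x) ^ 2) := by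
  have hp1 : ∀ i, 1 ≤ p i := fun i => (H.p1 i).le
  have h1 := Lv_V H hg1 hs Q hQ
  have h2 := Lv_mul hp1 h1 h1
  have e : (fun x => (VV g (yT p h Q : Col n κ → ℝ) x) ^ 2) =
      fun x => VV g (yT p h Q : Col n κ → ℝ) x * VV g (yT p h Q : Col n κ → ℝ) x := by
    funext x
    ring
  rw [e]
  exact Lv_mono (le_of_eq (by ring)) (le_of_eq (by ring)) h2

theorem Lv_V2F (H : HB p g h z K C4 T0) (hg1 : ∀ i, g i ≤ 1)
    (hs : 2 * (Fintype.card κ : ℝ) * ∑ i, 1 / (p i) ^ 2 ≤ 1) (Q : ℝ) (hQ : 1 ≤ Q)
    {Q' B : ℝ} {F : Col n κ → ℝ} (hF : Lv p Q' B F) :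
    Lv p (Q ^ 2 * Q') (9 * Q ^ 4 * B) (fun x => (VV g (yT p h Q : Col n κ → ℝ) x) ^ 2 * F x) :=
  Lv_mul (fun i => (H.p1 i).le) (Lv_V2 H hg1 hs Q hQ) hF

end

end Pool.Agent.K7.H60.TL
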