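import Pool.Agent.K7.H60.TL.HB

/-!
The covering sieve with a profile supported on large sizes: tail bound and weighted sum (variants
of the theorems of `Pool.Agent.H256R2.SC.E`, `Pool.Agent.H256R2.SC.F`).
-/

set_option autoImplicit false
set_option linter.unusedSectionVars false

namespace Pool.Agent.K7.H60.TL

open Finset Pool.Agent.H256R2.SC

variable {n : ℕ} {κ : Type} [Fintype κ] [DecidableEq κ]

theorem tail_bound {p g : Fin n → ℝ} {h : Finset (Fin n) → ℝ} {z K C4 T0 : ℝ} (H : HB p g h z K C4 T0)
    (Q' : ℝ) (hQ' : 0 < Q') :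
    ∑ D : Col n κ with Q' < qq p D, (yy h D) ^ 2 * nu g D ≤
      Real.exp (2 * (Fintype.card κ : ℝ) * K / Real.log z - Real.log Q' / Real.log z) *
        Zs κ g h := by
  classical
  have hlz : 0 < Real.log z := Real.log_pos H.z1
  have hg : ∀ i, 0 ≤ g i := fun i => (H.g0 i).le
  have hp1 : ∀ s : Finset (Fin n), 1 ≤ ∏ i ∈ s, p i := fun s =>
    Finset.prod_induction _ (fun x => 1 ≤ x) (fun _ _ ha hb => one_le_mul_of_one_le_of_one_le ha hb)
      le_rfl fun i _ => (H.p1 i).le
  have hlp : ∀ s : Finset (Fin n), 0 ≤ Real.log (∏ i ∈ s, p i) := fun s =>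
    Real.log_nonneg (hp1 s)
  have he1 : ∀ s, 1 ≤ E_e p z s := fun s => Real.one_le_exp (div_nonneg (hlp s) hlz.le)
  -- weights
  set W : Finset κ → κ → Finset (Fin n) → ℝ := fun T k s =>
    (al h s) ^ 2 * (if k ∈ T then E_e p z s else 1) with hW
  have hW0 : ∀ T k s, 0 ≤ W T k s := by
    intro T k s
    simp only [hW]
    refine mul_nonneg (sq_nonneg _) ?_
    split_ifs
    · exact zero_le_one.trans (he1 s)
    · exact zero_le_one
  set v : Finset (Fin n) → ℝ := fun s => (al h s) ^ 2 * (E_e p z s - 1) with hv
  have hv0 : ∀ s, 0 ≤ v s := fun s => mul_nonneg (sq_nonneg _) (by linarith [he1 s])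
  -- the cost of one colour
  have hcost : ∑ s : Finset (Fin n), (∏ i ∈ s, g i) * v s ≤ 2 * K / Real.log z := by
    have hempty : ∀ s : Finset (Fin n), ¬ s.Nonempty → (∏ i ∈ s, g i) * v s = 0 := by
      intro s hs
      rw [Finset.not_nonempty_iff_eq_empty] at hs
      subst hs
      simp [hv, E_e]
    calc ∑ s : Finset (Fin n), (∏ i ∈ s, g i) * v s
        = ∑ s : Finset (Fin n) with s.Nonempty, (∏ i ∈ s, g i) * v s := by
          rw [Finset.sum_filter]
          refine Finset.sum_congr rfl fun s _ => ?_
          split_ifs with hs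
          · rfl
          · exact hempty s hs
      _ ≤ ∑ s : Finset (Fin n) with s.Nonempty,
            (2 / Real.log z) * ((h s) ^ 2 * (∏ i ∈ s, g i) * Real.log (∏ i ∈ s, p i)) := by
          refine Finset.sum_le_sum fun s hs => ?_
          have hsne : s ≠ ∅ := (mem_filter.mp hs).2.ne_empty
          have hal : (al h s) ^ 2 = (h s) ^ 2 := by
            unfold al
            rw [if_neg hsne, neg_sq, mul_pow, ← pow_mul, mul_comm s.card 2, pow_mul]
            norm_num
          have hgs : 0 ≤ ∏ i ∈ s, g i := Finset.prod_nonneg fun i _ => hg i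
          simp only [hv]
          rw [hal]
          by_cases hh : h s = 0
          · rw [hh]
            simp
          · have hz := (H.supp s hh).2
            have hx0 : 0 ≤ Real.log (∏ i ∈ s, p i) / Real.log z := div_nonneg (hlp s) hlz.le
            have hx1 : Real.log (∏ i ∈ s, p i) / Real.log z ≤ 1 := by
              rw [div_le_one hlz]
              exact Real.log_le_log (by linarith [hp1 s]) hz
            have hexp : E_e p z s - 1 ≤ 2 * (Real.log (∏ i ∈ s, p i) / Real.log z) := by
              unfold E_e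
              have habs := Real.abs_exp_sub_one_le
                (x := Real.log (∏ i ∈ s, p i) / Real.log z) (by rw [abs_of_nonneg hx0]; exact hx1)
              rw [abs_of_nonneg hx0] at habs
              exact (le_abs_self _).trans habs
            calc (∏ i ∈ s, g i) * ((h s) ^ 2 * (E_e p z s - 1))
                ≤ (∏ i ∈ s, g i) * ((h s) ^ 2 *
                  (2 * (Real.log (∏ i ∈ s, p i) / Real.log z))) := by
                  gcongr
              _ = _ := by ring
      _ = (2 / Real.log z) * ∑ s : Finset (Fin n) with s.Nonempty,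
            (h s) ^ 2 * (∏ i ∈ s, g i) * Real.log (∏ i ∈ s, p i) := by
          rw [Finset.mul_sum]
      _ ≤ (2 / Real.log z) * K := by
          have := H.cost
          gcongr
      _ = 2 * K / Real.log z := by ring
  -- induction over the colours
  have hind : ∀ T : Finset κ, E_Z g (W T) ≤ (1 + 2 * K / Real.log z) ^ T.card * E_Z g (W ∅) := by
    intro T
    induction T using Finset.induction_on with
    | empty => simp
    | insert k T hkT ih =>
      have hupd : W (insert k T) = Function.update (W T) k (fun s => W T k s + v s) := by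
        funext l s
        by_cases hl : l = k
        · subst hl
          simp only [Function.update_self, hW, hv, mem_insert_self, if_true, if_neg hkT]
          ring
        · rw [Function.update_of_ne hl]
          simp only [hW, mem_insert, hl, false_or]
      have hWk : W T k ∅ = 1 := by
        simp [hW, al, hkT]
      have h1 := E_step hg (W T) (hW0 T) k hWk v hv0 _ hcost
      rw [hupd, Finset.card_insert_of_notMem hkT, pow_succ']
      refine h1.trans ?_
      rw [mul_assoc]
      have hK : 0 ≤ 1 + 2 * K / Real.log z := by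
        have := H.K0
        positivity
      exact mul_le_mul_of_nonneg_left ih hK
  have hZ0 : E_Z g (W ∅) = Zs κ g h := by
    unfold E_Z Zs
    refine Finset.sum_congr rfl fun D _ => ?_
    have : ∏ k, W ∅ k (fib D k) = (yy h D) ^ 2 := by
      unfold yy
      rw [← Finset.prod_pow]
      refine Finset.prod_congr rfl fun k _ => ?_
      simp [hW]
    rw [this]
    ring
  have hZs0 : 0 ≤ Zs κ g h := by
    unfold Zs
    exact Finset.sum_nonneg fun D _ => mul_nonneg (sq_nonneg _) (E_nu_nonneg hg D)
  have hZu : E_Z g (W univ) = ∑ D : Col n κ,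
      (yy h D) ^ 2 * nu g D * Real.exp (Real.log (qq p D) / Real.log z) := by
    unfold E_Z
    refine Finset.sum_congr rfl fun D _ => ?_
    have h1 : ∏ k, W univ k (fib D k) =
        (yy h D) ^ 2 * Real.exp (Real.log (qq p D) / Real.log z) := by
      have h2 : ∀ k, W univ k (fib D k) = (al h (fib D k)) ^ 2 * E_e p z (fib D k) := by
        intro k
        simp [hW]
      simp_rw [h2]
      rw [Finset.prod_mul_distrib]
      unfold yy
      rw [Finset.prod_pow]
      congr 1
      unfold E_e
      rw [← Real.exp_sum, ← Finset.sum_div, E_qq, Real.log_prod]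
      intro k _
      have := hp1 (fib D k)
      linarith
    rw [h1]
    ring
  have hu := hind univ
  rw [hZ0, hZu, Finset.card_univ] at hu
  -- Rankin
  have hR : ∑ D : Col n κ with Q' < qq p D, (yy h D) ^ 2 * nu g D ≤
      Real.exp (-(Real.log Q' / Real.log z)) * ∑ D : Col n κ,
        (yy h D) ^ 2 * nu g D * Real.exp (Real.log (qq p D) / Real.log z) := by
    rw [Finset.mul_sum]
    refine le_trans ?_ (Finset.sum_le_sum_of_subset_of_nonneg
      (Finset.filter_subset (fun D : Col n κ => Q' < qq p D) univ)
      fun D _ _ => mul_nonneg (Real.exp_pos _).le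
        (mul_nonneg (mul_nonneg (sq_nonneg _) (E_nu_nonneg hg D)) (Real.exp_pos _).le))
    refine Finset.sum_le_sum fun D hD => ?_
    have hQD : Q' < qq p D := (mem_filter.mp hD).2
    have h1 : 1 ≤ Real.exp (-(Real.log Q' / Real.log z)) *
        Real.exp (Real.log (qq p D) / Real.log z) := by
      rw [← Real.exp_add]
      apply Real.one_le_exp
      rw [neg_add_eq_sub, ← sub_div]
      apply div_nonneg _ hlz.le
      linarith [Real.log_le_log hQ' hQD.le]
    have h2 : 0 ≤ (yy h D) ^ 2 * nu g D := mul_nonneg (sq_nonneg _) (E_nu_nonneg hg D)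
    calc (yy h D) ^ 2 * nu g D = (yy h D) ^ 2 * nu g D * 1 := (mul_one _).symm
      _ ≤ (yy h D) ^ 2 * nu g D * (Real.exp (-(Real.log Q' / Real.log z)) *
          Real.exp (Real.log (qq p D) / Real.log z)) := mul_le_mul_of_nonneg_left h1 h2
      _ = _ := by ring
  have hpow : (1 + 2 * K / Real.log z) ^ Fintype.card κ ≤
      Real.exp (2 * (Fintype.card κ : ℝ) * K / Real.log z) := by
    have hK : 0 ≤ 1 + 2 * K / Real.log z := by
      have := H.K0
      positivity
    calc (1 + 2 * K / Real.log z) ^ Fintype.card κ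
        ≤ (Real.exp (2 * K / Real.log z)) ^ Fintype.card κ := by
          refine pow_le_pow_left₀ hK ?_ _
          rw [add_comm]
          exact Real.add_one_le_exp _
      _ = _ := by
          rw [← Real.exp_nat_mul]
          congr 1
          ring
  calc ∑ D : Col n κ with Q' < qq p D, (yy h D) ^ 2 * nu g D
      ≤ _ := hR
    _ ≤ Real.exp (-(Real.log Q' / Real.log z)) *
        ((1 + 2 * K / Real.log z) ^ Fintype.card κ * Zs κ g h) :=
        mul_le_mul_of_nonneg_left hu (Real.exp_pos _).le
    _ ≤ Real.exp (-(Real.log Q' / Real.log z)) *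
        (Real.exp (2 * (Fintype.card κ : ℝ) * K / Real.log z) * Zs κ g h) :=
        mul_le_mul_of_nonneg_left (mul_le_mul_of_nonneg_right hpow hZs0) (Real.exp_pos _).le
    _ = _ := by
        rw [← mul_assoc, ← Real.exp_add]
        congr 2
        ring


open TaskF in
theorem weighted_sum {p g : Fin n → ℝ} {h : Finset (Fin n) → ℝ} {z K C4 T0 : ℝ} (H : HB p g h z K C4 T0)
    (t : ℝ) (ht : 0 ≤ t) (k₀ : κ) :
    ∑ D : Col n κ, (∏ i, bet (g i) t k₀ (D i)) * (yy h D) ^ 2 ≤
      Real.exp ((2 + 6 * t) * ∑ i, g i) * Zs κ g h := by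
  have g0 : ∀ i, 0 ≤ g i := fun i => (H.g0 i).le
  set P : ℝ := ∏ i, (1 + 3 * t * g i) with hP
  have hP0 : 0 ≤ P := prod_nonneg fun i _ => by have := g0 i; positivity
  let W : Finset (Fin n) → ℝ := fun s => ∏ i ∈ s, ((1 + 3 * t) * g i)
  have hW0 : ∀ s, 0 ≤ W s := fun s => prod_nonneg fun i _ => by have := g0 i; positivity
  let F : Col n κ → ℝ := fun D => (yy h D) ^ 2 * nu g D
  have hnu0 : ∀ D : Col n κ, 0 ≤ nu g D := by
    intro D
    refine prod_nonneg fun i _ => ?_
    unfold nu1
    split
    · norm_num
    · exact g0 i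
  have hF0 : ∀ D, 0 ≤ F D := fun D => mul_nonneg (sq_nonneg _) (hnu0 D)
  -- termwise bound
  have hterm : ∀ D : Col n κ, (∏ i, bet (g i) t k₀ (D i)) * (yy h D) ^ 2 ≤
      P * (F (er k₀ D) * W (fib D k₀)) := by
    intro D
    have hb : ∏ i, bet (g i) t k₀ (D i) ≤ P * (nu g (er k₀ D) * W (fib D k₀)) := by
      have hWW : W (fib D k₀) = ∏ i, (if D i = some k₀ then (1 + 3 * t) * g i else 1) := by
        simp only [W, fib]
        rw [prod_filter]
      rw [hWW, hP]
      unfold nu
      rw [← prod_mul_distrib, ← prod_mul_distrib]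
      apply prod_le_prod
      · intro i _
        have := g0 i
        unfold bet
        split
        · positivity
        · split <;> positivity
      · intro i _
        have hg := g0 i
        have h3 : 0 ≤ 3 * t * g i := by positivity
        cases hD : D i with
        | none => simp [bet, er, hD, nu1]
        | some l =>
          by_cases hl : l = k₀
          · subst hl
            simp only [bet, if_true, er, hD, nu1]
            have h4 : 0 ≤ (1 + 3 * t) * g i := by positivity
            nlinarith
          · have hl' : ¬ (some l = some k₀) := fun e => hl (Option.some.inj e)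
            simp only [bet, if_neg hl, er, hD, if_neg hl', nu1]
            nlinarith
    have hbn : 0 ≤ P * (nu g (er k₀ D) * W (fib D k₀)) :=
      mul_nonneg hP0 (mul_nonneg (hnu0 _) (hW0 _))
    calc (∏ i, bet (g i) t k₀ (D i)) * (yy h D) ^ 2
        ≤ (P * (nu g (er k₀ D) * W (fib D k₀))) * (yy h (er k₀ D)) ^ 2 :=
          mul_le_mul hb (yy_sq_le H.h0 H.h1 k₀ D) (sq_nonneg _) hbn
      _ = P * (F (er k₀ D) * W (fib D k₀)) := by simp only [F]; ring
  -- sum
  have hsum : ∑ D : Col n κ, F (er k₀ D) * W (fib D k₀) ≤ (∑ D : Col n κ, F D) * ∑ s, W s := by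
    rw [sum_mul_sum, ← sum_product']
    have e : ∑ D : Col n κ, F (er k₀ D) * W (fib D k₀) =
        ∑ x ∈ univ.image (fun D : Col n κ => (er k₀ D, fib D k₀)), F x.1 * W x.2 := by
      rw [sum_image]
      intro a _ b _ hab
      exact inj k₀ hab
    rw [e]
    apply sum_le_sum_of_subset_of_nonneg
    · intro x _
      simp
    · intro x _ _
      exact mul_nonneg (hF0 _) (hW0 _)
  have hWs : ∑ s, W s = ∏ i, (1 + (1 + 3 * t) * g i) := by
    rw [prod_one_add]
    simp [W]
  have e1 : P ≤ Real.exp (3 * t * ∑ i, g i) := by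
    rw [mul_sum, Real.exp_sum]
    apply prod_le_prod
    · intro i _
      have := g0 i
      positivity
    · intro i _
      have := Real.add_one_le_exp (3 * t * g i)
      linarith
  have e2 : ∏ i, (1 + (1 + 3 * t) * g i) ≤ Real.exp ((1 + 3 * t) * ∑ i, g i) := by
    rw [mul_sum, Real.exp_sum]
    apply prod_le_prod
    · intro i _
      have := g0 i
      positivity
    · intro i _
      have := Real.add_one_le_exp ((1 + 3 * t) * g i)
      linarith
  have hZ0 : 0 ≤ Zs κ g h := sum_nonneg fun D _ => hF0 D
  have hG0 : 0 ≤ ∑ i, g i := sum_nonneg fun i _ => g0 i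
  calc ∑ D : Col n κ, (∏ i, bet (g i) t k₀ (D i)) * (yy h D) ^ 2
      ≤ ∑ D : Col n κ, P * (F (er k₀ D) * W (fib D k₀)) := sum_le_sum fun D _ => hterm D
    _ = P * ∑ D : Col n κ, F (er k₀ D) * W (fib D k₀) := by rw [mul_sum]
    _ ≤ P * (Zs κ g h * ∏ i, (1 + (1 + 3 * t) * g i)) := by
        rw [← hWs]
        exact mul_le_mul_of_nonneg_left hsum hP0
    _ ≤ Real.exp (3 * t * ∑ i, g i) * (Zs κ g h * Real.exp ((1 + 3 * t) * ∑ i, g i)) := by
        apply mul_le_mul e1 _ _ (Real.exp_pos _).le
        · exact mul_le_mul_of_nonneg_left e2 hZ0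
        · apply mul_nonneg hZ0
          refine prod_nonneg fun i _ => ?_
          have := g0 i
          positivity
    _ = Real.exp ((1 + 6 * t) * ∑ i, g i) * Zs κ g h := by
        have : Real.exp ((1 + 6 * t) * ∑ i, g i) =
            Real.exp (3 * t * ∑ i, g i) * Real.exp ((1 + 3 * t) * ∑ i, g i) := by
          rw [← Real.exp_add]
          ring_nf
        rw [this]
        ring
    _ ≤ Real.exp ((2 + 6 * t) * ∑ i, g i) * Zs κ g h := by
        apply mul_le_mul_of_nonneg_right _ hZ0
        apply Real.exp_le_exp.mpr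
        nlinarith


theorem Zs_ge_one {p g : Fin n → ℝ} {h : Finset (Fin n) → ℝ} {z K C4 T0 : ℝ}
    (H : HB p g h z K C4 T0) : 1 ≤ Zs κ g h := by
  unfold Zs
  have h1 : (yy h (fun _ => none : Col n κ)) ^ 2 * nu g (fun _ => none : Col n κ) = 1 := by
    have e1 : yy h (fun _ => none : Col n κ) = 1 := by
      unfold yy
      apply Finset.prod_eq_one
      intro k _
      have : fib (fun _ => none : Col n κ) k = ∅ := by
        unfold fib
        simp
      rw [this]
      simp [al]
    have e2 : nu g (fun _ => none : Col n κ) = 1 := by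
      unfold nu
      apply Finset.prod_eq_one
      intro i _
      simp [nu1]
    rw [e1, e2]; norm_num
  rw [← h1]
  exact Finset.single_le_sum (f := fun D : Col n κ => (yy h D) ^ 2 * nu g D)
    (fun D _ => mul_nonneg (sq_nonneg _) (nu_nonneg H.g0 D)) (Finset.mem_univ _)

end Pool.Agent.K7.H60.TL
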