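import Pool.Agent.H256R2.SC.Par

/-!
The engine: numerical inequalities.
-/

set_option autoImplicit false
set_option linter.unusedSectionVars false

namespace Pool.Agent.K7.H60.TL

open Finset Filter Pool.Agent.H256R2.SC

open scoped Classical

/-- facts for large `L = log X`, `l = log L` -/
theorem ev_facts' (θ D Λ : ℝ) (hθ : 0 < θ) (hD : 1 ≤ D) : ∃ L₀ : ℝ, 1 ≤ L₀ ∧ ∀ L : ℝ, L₀ ≤ L →
    Λ ≤ Real.log L ∧ 1 ≤ Real.log L ∧ Real.log (D * Real.log L) ≤ θ / 2 * Real.log L ∧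
    Λ * Real.log L ≤ L ∧ Λ ≤ L := by
  have t1 : Tendsto (fun L : ℝ => Real.log L) atTop atTop := Real.tendsto_log_atTop
  have h1 : ∀ᶠ L : ℝ in atTop, Λ ≤ Real.log L := t1.eventually (eventually_ge_atTop Λ)
  have h2 : ∀ᶠ L : ℝ in atTop, 1 ≤ Real.log L := t1.eventually (eventually_ge_atTop 1)
  have h3 : ∀ᶠ L : ℝ in atTop, Real.log (Real.log L) ≤ θ / 4 * Real.log L :=
    t1.eventually (ev_log (by positivity))
  have h4 : ∀ᶠ L : ℝ in atTop, Real.log D ≤ θ / 4 * Real.log L := by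
    have h : ∀ᶠ L : ℝ in atTop, Real.log D / (θ / 4) ≤ Real.log L :=
      t1.eventually (eventually_ge_atTop _)
    filter_upwards [h] with L hL
    rw [div_le_iff₀ (by positivity)] at hL
    linarith
  have h5 : ∀ᶠ L : ℝ in atTop, Real.log L ≤ 1 / (|Λ| + 1) * L := ev_log (by positivity)
  obtain ⟨L₀, hL₀⟩ := eventually_atTop.1 (h1.and (h2.and (h3.and (h4.and (h5.and
    (eventually_ge_atTop (max 1 Λ)))))))
  refine ⟨max 1 L₀, le_max_left _ _, ?_⟩
  intro L hL
  obtain ⟨g1, g2, g3, g4, g5, g6⟩ := hL₀ L (le_trans (le_max_right _ _) hL)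
  refine ⟨g1, g2, ?_, ?_, (le_max_right _ _).trans g6⟩
  · rw [Real.log_mul (by linarith) (by linarith)]
    linarith
  · have hL1 : 1 ≤ L := (le_max_left _ _).trans g6
    have h6 : (|Λ| + 1) * Real.log L ≤ L := by
      have := mul_le_mul_of_nonneg_left g5 (by positivity : 0 ≤ |Λ| + 1)
      rw [← mul_assoc, mul_one_div_cancel (by positivity), one_mul] at this
      exact this
    have h7 : Λ ≤ |Λ| + 1 := by have := le_abs_self Λ; linarith
    nlinarith

/-- the numerical data of the engine for one value of `L` -/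
structure Num (A : ℕ) (B D C4 CM ε0 K₀ c C5 C7 L l : ℝ) : Prop where
  hB : B = (A : ℝ) + 10
  hD : D = 10000 * (B + 1)
  hC4 : 1 ≤ C4
  hCM : 0 ≤ CM
  hε0 : 0 < ε0
  hε1 : ε0 ≤ 1
  hK₀ : 0 < K₀
  hc0 : 0 < c
  hc8 : c ≤ 1 / 8
  hcK : c ≤ 5 / (2 * D * K₀)
  hC7 : C7 = 35 + 2 * B
  hC5 : C5 = C7 / (20 * ε0) + B + 10
  hL : 0 < L
  hl : l = Real.log L
  l1 : 1 ≤ l
  l2 : 100000 * (B + 1) ≤ l
  l3 : 8 * C4 ≤ l
  l4 : 20 * CM ≤ l
  l5 : 100000 * (B + 1) * l ≤ L

namespace Num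

variable {A : ℕ} {B D C4 CM ε0 K₀ c C5 C7 L l : ℝ}

theorem B10 (N : Num A B D C4 CM ε0 K₀ c C5 C7 L l) : 10 ≤ B := by
  have : (0 : ℝ) ≤ A := Nat.cast_nonneg _
  rw [N.hB]
  linarith

theorem l0 (N : Num A B D C4 CM ε0 K₀ c C5 C7 L l) : 0 < l := by linarith [N.l1]

theorem expl (N : Num A B D C4 CM ε0 K₀ c C5 C7 L l) : L = Real.exp l := by
  rw [N.hl, Real.exp_log N.hL]

theorem big (N : Num A B D C4 CM ε0 K₀ c C5 C7 L l) : 1000000 ≤ l := by
  have h1 := N.B10
  have h2 := N.l2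
  linarith

theorem lL (N : Num A B D C4 CM ε0 K₀ c C5 C7 L l) : l ≤ L := by
  have h1 := Real.add_one_le_exp l
  rw [← N.expl] at h1
  linarith

theorem Lbig (N : Num A B D C4 CM ε0 K₀ c C5 C7 L l) : 1000000 ≤ L := N.big.trans N.lL

theorem pw (N : Num A B D C4 CM ε0 K₀ c C5 C7 L l) (k : ℕ) : L ^ k = Real.exp (k * l) := by
  rw [N.expl, ← Real.exp_nat_mul]

theorem s_eq (N : Num A B D C4 CM ε0 K₀ c C5 C7 L l) :
    1 / L ^ (A + 1) = Real.exp (-(((A : ℝ) + 1) * l)) := by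
  rw [N.pw, Real.exp_neg, one_div]
  push_cast
  rfl

theorem s_pos (N : Num A B D C4 CM ε0 K₀ c C5 C7 L l) : 0 < 1 / L ^ (A + 1) :=
  one_div_pos.2 (pow_pos N.hL _)

theorem s_le (N : Num A B D C4 CM ε0 K₀ c C5 C7 L l) : 1 / L ^ (A + 1) ≤ 1 := by
  rw [div_le_one (pow_pos N.hL _)]
  exact one_le_pow₀ (by linarith [N.Lbig])

theorem s_ge (N : Num A B D C4 CM ε0 K₀ c C5 C7 L l) :
    Real.exp (-(L / 1000)) ≤ 1 / L ^ (A + 1) := by
  rw [N.s_eq]
  apply Real.exp_le_exp.mpr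
  have h1 := N.l5
  have h2 : ((A : ℝ) + 1) * l ≤ (B + 1) * l := by
    apply mul_le_mul_of_nonneg_right _ N.l0.le
    rw [N.hB]
    linarith
  have h3 := N.hL
  linarith

theorem L_le (N : Num A B D C4 CM ε0 K₀ c C5 C7 L l) : L ≤ Real.exp (L / 1000) := by
  conv_lhs => rw [N.expl]
  apply Real.exp_le_exp.mpr
  have h1 := N.l5
  have h2 : 1 * l ≤ (B + 1) * l := mul_le_mul_of_nonneg_right (by linarith [N.B10]) N.l0.le
  have h3 := N.hL
  linarith

theorem D0 (N : Num A B D C4 CM ε0 K₀ c C5 C7 L l) : 0 < D := by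
  rw [N.hD]
  linarith [N.B10]

/-- the tail -/
theorem tail (N : Num A B D C4 CM ε0 K₀ c C5 C7 L l) {u K lz : ℝ} (hu : u ≤ c * L)
    (hK : K ≤ K₀) (hK0 : 0 ≤ K) (hlz : 0 < lz) (hlz1 : lz ≤ L / (D * l))
    (hlz2 : L / (2 * D * l) ≤ lz) :
    Real.exp (2 * u * K / lz - (L / 40 - lz) / lz) ≤ 1 / L ^ (A + 1) * (1 / L ^ 3) := by
  have hl := N.l0
  have hD := N.D0
  have hL := N.hL
  have h1 : 2 * u * K / lz ≤ 10 * l := by
    rw [div_le_iff₀ hlz]
    have e1 : 2 * u * K ≤ 2 * (c * L) * K₀ := by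
      apply mul_le_mul (by linarith) hK hK0
      have := N.hc0
      positivity
    have e2 : 2 * (c * L) * K₀ ≤ 2 * (5 / (2 * D * K₀) * L) * K₀ := by
      have := mul_le_mul_of_nonneg_right N.hcK hL.le
      have h3 := N.hK₀
      exact mul_le_mul_of_nonneg_right (by linarith) h3.le
    have e3 : 2 * (5 / (2 * D * K₀) * L) * K₀ = 10 * l * (L / (2 * D * l)) := by
      have h3 := N.hK₀
      field_simp
      ring
    have e4 : 10 * l * (L / (2 * D * l)) ≤ 10 * l * lz :=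
      mul_le_mul_of_nonneg_left hlz2 (by positivity)
    linarith
  have h2 : D * l / 40 - 1 ≤ (L / 40 - lz) / lz := by
    rw [sub_div, div_self hlz.ne']
    have : D * l / 40 ≤ L / 40 / lz := by
      rw [le_div_iff₀ hlz]
      calc D * l / 40 * lz ≤ D * l / 40 * (L / (D * l)) :=
            mul_le_mul_of_nonneg_left hlz1 (by positivity)
        _ = L / 40 := by field_simp
    linarith
  have h3 : 1 / L ^ (A + 1) * (1 / L ^ 3) = Real.exp (-(((A : ℝ) + 4) * l)) := by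
    have e1 : 1 / L ^ 3 = Real.exp (-(3 * l)) := by
      rw [N.pw, Real.exp_neg, one_div]
      push_cast
      rfl
    rw [N.s_eq, e1, ← Real.exp_add]
    congr 1
    ring
  rw [h3]
  apply Real.exp_le_exp.mpr
  have h4 : D * l / 40 = 250 * (B + 1) * l := by rw [N.hD]; ring
  have h5 : (A : ℝ) = B - 10 := by rw [N.hB]; ring
  rw [h4] at h2
  rw [h5]
  have h6 := mul_le_mul_of_nonneg_right N.B10 hl.le
  nlinarith [N.l1]

theorem tau (N : Num A B D C4 CM ε0 K₀ c C5 C7 L l) {J : ℕ} {G : ℝ}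
    (hJ : 2 * ((15 + B) * l) ≤ J) (hG : G ≤ l + CM) :
    (1 / 3 : ℝ) ^ J * Real.exp (20 * G) ≤ 1 / L ^ (A + 1) * (1 / L ^ 3) := by
  have hl := N.l0
  have h1 : (1 / (3:ℝ)) ^ J ≤ Real.exp (-(2 * ((15 + B) * l))) := by
    have e1 : (1 / (3:ℝ)) = Real.exp (-(Real.log 3)) := by
      rw [Real.exp_neg, Real.exp_log (by norm_num)]; norm_num
    rw [e1, ← Real.exp_nat_mul]
    apply Real.exp_le_exp.mpr
    have e2 : (1:ℝ) ≤ Real.log 3 := by
      rw [Real.le_log_iff_exp_le (by norm_num)]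
      have := Real.exp_one_lt_d9
      linarith
    have e3 : 2 * ((15 + B) * l) * 1 ≤ J * Real.log 3 := by
      apply mul_le_mul hJ e2 (by norm_num) (Nat.cast_nonneg _)
    linarith
  have h2 : Real.exp (20 * G) ≤ Real.exp (21 * l) := by
    apply Real.exp_le_exp.mpr
    have := N.l4
    linarith
  have h3 : 1 / L ^ (A + 1) * (1 / L ^ 3) = Real.exp (-(((A : ℝ) + 4) * l)) := by
    have e1 : 1 / L ^ 3 = Real.exp (-(3 * l)) := by
      rw [N.pw, Real.exp_neg, one_div]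
      push_cast
      rfl
    rw [N.s_eq, e1, ← Real.exp_add]
    congr 1
    ring
  rw [h3]
  refine (mul_le_mul h1 h2 (Real.exp_pos _).le (Real.exp_pos _).le).trans ?_
  rw [← Real.exp_add]
  apply Real.exp_le_exp.mpr
  have h5 : (A : ℝ) = B - 10 := by rw [N.hB]; ring
  rw [h5]
  have h6 := mul_le_mul_of_nonneg_right N.B10 hl.le
  nlinarith

/-- the weight bound -/
theorem lam_ge (N : Num A B D C4 CM ε0 K₀ c C5 C7 L l) {J : ℕ} {u : ℝ}
    (hu : u ≤ L) (hJ : (J : ℝ) ≤ (32 + 2 * B) * l) :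
    u * (2 ^ J * C4) ≤ Real.exp (C7 * l) := by
  have h1 : (2 : ℝ) ^ J ≤ Real.exp ((32 + 2 * B) * l) := by
    calc (2 : ℝ) ^ J ≤ (Real.exp 1) ^ J := by
          apply pow_le_pow_left₀ (by norm_num)
          have := Real.add_one_le_exp (1 : ℝ)
          linarith
      _ = Real.exp J := by rw [← Real.exp_nat_mul, mul_one]
      _ ≤ _ := Real.exp_le_exp.mpr hJ
  have h2 : C4 ≤ Real.exp l := by
    have := Real.add_one_le_exp l
    have := N.l3
    have := N.hC4
    linarith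
  have h3 : u ≤ Real.exp l := by rw [← N.expl]; exact hu
  have h4 : (2 : ℝ) ^ J * C4 ≤ Real.exp ((32 + 2 * B) * l) * Real.exp l :=
    mul_le_mul h1 h2 (by linarith [N.hC4]) (Real.exp_pos _).le
  refine (mul_le_mul h3 h4 (by have := N.hC4; positivity) (Real.exp_pos _).le).trans ?_
  rw [← Real.exp_add, ← Real.exp_add, N.hC7]
  apply Real.exp_le_exp.mpr
  linarith [N.l0]

theorem q3 (N : Num A B D C4 CM ε0 K₀ c C5 C7 L l) {u q Ω : ℝ}
    (hu : u + 1 ≤ L) (hq : q ≤ Real.exp (L / 300)) (hq0 : 0 ≤ q)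
    (hΩ : Real.exp (L / 2) ≤ Ω) :
    (u + 1) * (9 * Real.exp (L / 40) ^ 4 * q) ≤ 1 / L ^ (A + 1) / 8 * Ω := by
  have h1 := N.L_le
  have h2 := N.s_ge
  have hL := N.hL
  have e4 : Real.exp (L / 40) ^ 4 = Real.exp (L / 10) := by
    rw [← Real.exp_nat_mul]; congr 1; push_cast; ring
  rw [e4]
  calc (u + 1) * (9 * Real.exp (L / 10) * q) ≤
        Real.exp (L / 1000) * (9 * Real.exp (L / 10) * Real.exp (L / 300)) := by
        apply mul_le_mul (hu.trans h1) _ (by positivity) (Real.exp_pos _).le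
        exact mul_le_mul_of_nonneg_left hq (by positivity)
    _ = 9 * Real.exp (L / 1000 + L / 10 + L / 300) := by
        rw [Real.exp_add, Real.exp_add]; ring
    _ ≤ 1 / 8 * Real.exp (-(L / 1000) + L / 2) := by
        have e1 : Real.exp (-(L / 1000) + L / 2) =
            Real.exp (L / 1000 + L / 10 + L / 300) *
              Real.exp (-(L / 1000) + L / 2 - (L / 1000 + L / 10 + L / 300)) := by
          rw [← Real.exp_add]; congr 1; ring
        have e2 : 72 ≤ Real.exp (-(L / 1000) + L / 2 - (L / 1000 + L / 10 + L / 300)) := by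
          have := Real.add_one_le_exp (-(L / 1000) + L / 2 - (L / 1000 + L / 10 + L / 300))
          have := N.Lbig
          linarith
        rw [e1]
        have e3 := Real.exp_pos (L / 1000 + L / 10 + L / 300)
        nlinarith
    _ = Real.exp (-(L / 1000)) / 8 * Real.exp (L / 2) := by
        rw [Real.exp_add]; ring
    _ ≤ _ := by
        apply mul_le_mul _ hΩ (Real.exp_pos _).le
        · have := N.s_pos
          positivity
        · linarith

theorem q7 (N : Num A B D C4 CM ε0 K₀ c C5 C7 L l) {Ω : ℝ} (hΩ : Real.exp (L / 2) ≤ Ω) :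
    81 * Real.exp (L / 40) ^ 8 ≤ 1 / L ^ (A + 1) / 2 * Ω := by
  have h2 := N.s_ge
  have hL := N.hL
  have e4 : Real.exp (L / 40) ^ 8 = Real.exp (L / 5) := by
    rw [← Real.exp_nat_mul]; congr 1; push_cast; ring
  rw [e4]
  calc 81 * Real.exp (L / 5) ≤ 1 / 2 * Real.exp (-(L / 1000) + L / 2) := by
        have e1 : Real.exp (-(L / 1000) + L / 2) =
            Real.exp (L / 5) * Real.exp (-(L / 1000) + L / 2 - L / 5) := by
          rw [← Real.exp_add]; congr 1; ring
        have e2 : 162 ≤ Real.exp (-(L / 1000) + L / 2 - L / 5) := by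
          have := Real.add_one_le_exp (-(L / 1000) + L / 2 - L / 5)
          have := N.Lbig
          linarith
        rw [e1]
        have e3 := Real.exp_pos (L / 5)
        nlinarith
    _ = Real.exp (-(L / 1000)) / 2 * Real.exp (L / 2) := by
        rw [Real.exp_add]; ring
    _ ≤ _ := by
        apply mul_le_mul _ hΩ (Real.exp_pos _).le
        · have := N.s_pos
          positivity
        · linarith

/-- the pair correlation -/
theorem q6 (N : Num A B D C4 CM ε0 K₀ c C5 C7 L l) {u S2 lY : ℝ} (hu0 : 0 ≤ u)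
    (hu : u + 1 ≤ L) (hS0 : 0 ≤ S2) (hS : S2 ≤ L / L ^ (A + 10)) (hY0 : 0 ≤ lY) (hY : lY ≤ L) :
    Real.exp (31 * u ^ 2 * S2 + 13 * u * (u + 1) ^ 2 * (u ^ 2 * (2 * lY * (1 / L ^ (A + 10))))) ≤
      1 + 1 / L ^ (A + 1) / 2 := by
  have hL := N.hL
  have hLb := N.Lbig
  have hs := N.s_pos
  have hs1 := N.s_le
  set s := 1 / L ^ (A + 1) with hsdef
  have hwp : 0 < L ^ (A + 10) := pow_pos hL _
  have hw : 1 / L ^ (A + 10) = s * (1 / L ^ 9) := by
    rw [hsdef, show A + 10 = (A + 1) + 9 by ring, pow_add]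
    field_simp
  have hul : u ≤ L := by linarith
  have h1 : 31 * u ^ 2 * S2 ≤ 31 * L ^ 2 * (L * (s * (1 / L ^ 9))) := by
    have e1 : u ^ 2 ≤ L ^ 2 := pow_le_pow_left₀ hu0 hul 2
    have e2 : S2 ≤ L * (s * (1 / L ^ 9)) := by
      rw [← hw]
      refine hS.trans (le_of_eq ?_)
      ring
    exact mul_le_mul (by linarith) e2 hS0 (by positivity)
  have h2 : 13 * u * (u + 1) ^ 2 * (u ^ 2 * (2 * lY * (1 / L ^ (A + 10)))) ≤
      13 * L * L ^ 2 * (L ^ 2 * (2 * L * (s * (1 / L ^ 9)))) := by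
    rw [hw]
    have e1 : u ^ 2 ≤ L ^ 2 := pow_le_pow_left₀ hu0 hul 2
    have e2 : (u + 1) ^ 2 ≤ L ^ 2 := pow_le_pow_left₀ (by linarith) hu 2
    have e3 : 0 ≤ s * (1 / L ^ 9) := by positivity
    have e4 : 13 * u * (u + 1) ^ 2 ≤ 13 * L * L ^ 2 :=
      mul_le_mul (by linarith) e2 (by positivity) (by positivity)
    have e5 : 2 * lY * (s * (1 / L ^ 9)) ≤ 2 * L * (s * (1 / L ^ 9)) :=
      mul_le_mul_of_nonneg_right (by linarith) e3
    have e6 : u ^ 2 * (2 * lY * (s * (1 / L ^ 9))) ≤ L ^ 2 * (2 * L * (s * (1 / L ^ 9))) :=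
      mul_le_mul e1 e5 (by positivity) (by positivity)
    exact mul_le_mul e4 e6 (by positivity) (by positivity)
  have h3 : 31 * L ^ 2 * (L * (s * (1 / L ^ 9))) ≤ s / 8 := by
    have e1 : 31 * L ^ 2 * (L * (s * (1 / L ^ 9))) = s * (31 / L ^ 6) := by
      field_simp
    have e2 : 31 / L ^ 6 ≤ 1 / 8 := by
      rw [div_le_div_iff₀ (by positivity) (by norm_num)]
      have e3 : L ≤ L ^ 6 := le_self_pow₀ (by linarith) (by norm_num)
      linarith
    rw [e1]
    have := mul_le_mul_of_nonneg_left e2 hs.le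
    linarith
  have h4 : 13 * L * L ^ 2 * (L ^ 2 * (2 * L * (s * (1 / L ^ 9)))) ≤ s / 8 := by
    have e1 : 13 * L * L ^ 2 * (L ^ 2 * (2 * L * (s * (1 / L ^ 9)))) = s * (26 / L ^ 3) := by
      field_simp
      ring
    have e2 : 26 / L ^ 3 ≤ 1 / 8 := by
      rw [div_le_div_iff₀ (by positivity) (by norm_num)]
      have e3 : L ≤ L ^ 3 := le_self_pow₀ (by linarith) (by norm_num)
      linarith
    rw [e1]
    have := mul_le_mul_of_nonneg_left e2 hs.le
    linarith
  set x := 31 * u ^ 2 * S2 + 13 * u * (u + 1) ^ 2 * (u ^ 2 * (2 * lY * (1 / L ^ (A + 10)))) with hx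
  have hx0 : 0 ≤ x := by rw [hx]; positivity
  have hx1 : x ≤ s / 4 := by linarith
  have habs := Real.abs_exp_sub_one_le (x := x) (by rw [abs_of_nonneg hx0]; linarith)
  rw [abs_of_nonneg hx0] at habs
  have := (le_abs_self _).trans habs
  linarith

/-- the interval length -/
theorem q8 (N : Num A B D C4 CM ε0 K₀ c C5 C7 L l) {W Y X V : ℝ} {R : ℕ} (hW : 1 ≤ W)
    (hV : 1 ≤ V) (hX : X = Real.exp L) (hWY : W * Real.exp (C5 * l * V) ≤ Y)
    (hY : Y ≤ Real.exp (L / 2)) (hR : (R : ℝ) ≤ V / (40 * ε0)) :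
    4 * W / Y + (1 + 2 * W) * (18 * Real.exp (C7 * l) ^ (2 * R)) / Y + Y / X ≤
      1 / L ^ (A + 1) := by
  have hl := N.l0
  have hε := N.hε0
  have hB := N.B10
  have hC7 : 0 < C7 := by rw [N.hC7]; linarith
  have hW0 : 0 < W := by linarith
  have hY0 : 0 < Y := lt_of_lt_of_le (mul_pos hW0 (Real.exp_pos _)) hWY
  set ρ := Real.exp (-((B + 10) * l)) with hρ
  have hρ0 : 0 < ρ := Real.exp_pos _
  have hlV : l ≤ l * V := le_mul_of_one_le_right hl.le hV
  have hC5 := N.hC5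
  have hq : 0 ≤ C7 / (20 * ε0) := by positivity
  have h1 : 4 * W / Y ≤ 4 * ρ := by
    rw [div_le_iff₀ hY0]
    have e1 : W ≤ ρ * (W * Real.exp (C5 * l * V)) := by
      have e2 : ρ * (W * Real.exp (C5 * l * V)) = W * Real.exp (-((B + 10) * l) + C5 * l * V) := by
        rw [hρ, Real.exp_add]; ring
      rw [e2]
      apply le_mul_of_one_le_right hW0.le
      apply Real.one_le_exp
      have e3 : (B + 10) * l ≤ (B + 10) * (l * V) := mul_le_mul_of_nonneg_left hlV (by linarith)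
      have e4 : 0 ≤ C7 / (20 * ε0) * (l * V) := by positivity
      have e5 : C5 * l * V = C7 / (20 * ε0) * (l * V) + (B + 10) * (l * V) := by rw [hC5]; ring
      linarith
    have e2 := mul_le_mul_of_nonneg_left hWY hρ0.le
    linarith
  have h2 : (1 + 2 * W) * (18 * Real.exp (C7 * l) ^ (2 * R)) / Y ≤ 54 * ρ := by
    rw [div_le_iff₀ hY0]
    have e0 : Real.exp (C7 * l) ^ (2 * R) ≤ Real.exp (C7 / (20 * ε0) * (l * V)) := by
      rw [← Real.exp_nat_mul]
      apply Real.exp_le_exp.mpr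
      push_cast
      have e1 : 2 * (R : ℝ) * (C7 * l) ≤ 2 * (V / (40 * ε0)) * (C7 * l) :=
        mul_le_mul_of_nonneg_right (by linarith) (by positivity)
      refine e1.trans (le_of_eq ?_)
      field_simp
      norm_num
    have e1 : (1 + 2 * W) * (18 * Real.exp (C7 * l) ^ (2 * R)) ≤
        (3 * W) * (18 * Real.exp (C7 / (20 * ε0) * (l * V))) := by
      apply mul_le_mul (by linarith) (by linarith) (by positivity) (by positivity)
    have e2 : (3 * W) * (18 * Real.exp (C7 / (20 * ε0) * (l * V))) ≤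
        54 * (ρ * (W * Real.exp (C5 * l * V))) := by
      have e3 : ρ * (W * Real.exp (C5 * l * V)) = W * Real.exp (-((B + 10) * l) + C5 * l * V) := by
        rw [hρ, Real.exp_add]; ring
      rw [e3]
      have e4 : Real.exp (C7 / (20 * ε0) * (l * V)) ≤ Real.exp (-((B + 10) * l) + C5 * l * V) := by
        apply Real.exp_le_exp.mpr
        have e5 : (B + 10) * l ≤ (B + 10) * (l * V) := mul_le_mul_of_nonneg_left hlV (by linarith)
        have e6 : C5 * l * V = C7 / (20 * ε0) * (l * V) + (B + 10) * (l * V) := by rw [hC5]; ring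
        linarith
      have e5 := mul_le_mul_of_nonneg_left e4 hW0.le
      linarith
    have e3 := mul_le_mul_of_nonneg_left hWY hρ0.le
    linarith
  have h3 : Y / X ≤ ρ := by
    rw [hX, div_le_iff₀ (Real.exp_pos _)]
    refine hY.trans ?_
    rw [hρ, ← Real.exp_add]
    apply Real.exp_le_exp.mpr
    have e1 := N.l5
    have e2 : (B + 10) * l ≤ 100 * ((B + 1) * l) := by
      have : (B + 10) * l ≤ (100 * (B + 1)) * l := mul_le_mul_of_nonneg_right (by linarith) hl.le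
      linarith
    linarith
  have h4 : 59 * ρ ≤ 1 / L ^ (A + 1) := by
    rw [N.s_eq, hρ]
    have e1 : Real.exp (-(((A : ℝ) + 1) * l)) = Real.exp (-((B + 10) * l)) * Real.exp (19 * l) := by
      rw [← Real.exp_add]
      congr 1
      rw [N.hB]
      ring
    rw [e1]
    have e2 : 59 ≤ Real.exp (19 * l) := by
      have := Real.add_one_le_exp (19 * l)
      have := N.big
      linarith
    have e3 := Real.exp_pos (-((B + 10) * l))
    nlinarith
  linarith

end Num

end Pool.Agent.K7.H60.TL
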