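import Pool.Agent.K7.H60.TL.Ns

/-!
Existence of the profile for the primes in `(w, z]`.
-/

set_option autoImplicit false

namespace Pool.Agent.K7.H60.TL

open Finset Pool.Agent.H256R2.SC

theorem profile : ∃ c2 C4 C6 ε0 : ℝ, 0 < c2 ∧ 1 ≤ C4 ∧ 1 ≤ C6 ∧ 0 < ε0 ∧ ε0 ≤ 1 ∧
    ∀ (w u0 : ℝ) (m : ℕ), 4 ≤ w → C6 * Real.log w ≤ u0 →
    ∃ h : Finset (Fin (PS w (Real.exp (2 ^ m * u0)) ∅).card) → ℝ,
      HB (Pf (PS w (Real.exp (2 ^ m * u0)) ∅)) (gf (PS w (Real.exp (2 ^ m * u0)) ∅)) h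
        (Real.exp (2 ^ m * u0)) (8 * Real.log w / (c2 * (m + 1))) C4 (Real.exp (ε0 * u0)) := by
  obtain ⟨c2, hc2, hAl⟩ := A_lower
  obtain ⟨C3, hC3, hUw⟩ := Uw_bound
  set ε0 : ℝ := c2 / (4 * (C3 + c2)) with hε0
  have hε0pos : 0 < ε0 := by positivity
  have hε01 : ε0 ≤ 1 := by
    rw [hε0, div_le_one (by positivity)]
    linarith
  have hεc : C3 * ε0 ≤ c2 / 4 := by
    rw [hε0, mul_div_assoc', div_le_div_iff₀ (by positivity) (by norm_num)]
    nlinarith
  set C4 : ℝ := 2 * C3 / c2 + 1 with hC4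
  have hC41 : 1 ≤ C4 := by
    have : 0 < 2 * C3 / c2 := by positivity
    linarith
  have hC4c : C4 * (c2 / 2) = C3 + c2 / 2 := by
    rw [hC4]
    field_simp
  set C6 : ℝ := 4 / c2 + 2 * C4 / c2 + 1 / ε0 with hC6
  have hq1 : 0 < 4 / c2 := by positivity
  have hq2 : 0 < 2 * C4 / c2 := by positivity
  have hq3 : 1 ≤ 1 / ε0 := by
    rw [le_div_iff₀ hε0pos]
    linarith
  have hC61 : 1 ≤ C6 := by linarith
  refine ⟨c2, C4, C6, ε0, hc2, hC41, hC61, hε0pos, hε01, ?_⟩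
  intro w u0 m hw hu
  set z : ℝ := Real.exp (2 ^ m * u0) with hz
  set PP := PS w z ∅ with hPP
  set z0 : ℝ := Real.exp u0 with hz0
  have hlw : 0 < Real.log w := Real.log_pos (by linarith)
  have hlw1 : 1 ≤ Real.log w := by
    rw [Real.le_log_iff_exp_le (by linarith)]
    have := Real.exp_one_lt_d9
    linarith
  have hu1 : Real.log w ≤ u0 := by nlinarith
  have hu0 : 0 < u0 := by linarith
  have hzz : ∀ j : ℕ, z0 ^ (2 ^ j) = Real.exp (2 ^ j * u0) := by
    intro j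
    rw [hz0, ← Real.exp_nat_mul]
    push_cast
    rfl
  have hzpos : 0 ≤ z := (Real.exp_pos _).le
  have hmem : ∀ p ∈ PP, p.Prime ∧ w < (p : ℝ) ∧ (p : ℝ) ≤ z := fun p hp => PS_mem hzpos hp
  have hP1 : ∀ i, 1 < Pf PP i := fun i => by
    have := (hmem _ (emb_mem PP i)).2.1
    linarith
  have hg0 : ∀ i, 0 < gf PP i := fun i => by
    have := hP1 i
    exact div_pos one_pos (by linarith)
  have hz01 : 1 < z0 := by rw [hz0]; exact Real.one_lt_exp_iff.mpr hu0
  have hlz0 : Real.log z0 = u0 := Real.log_exp _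
  set lam : ℝ := c2 / (2 * Real.log w) with hlam
  have hlam0 : 0 < lam := by positivity
  have hT0w : w ≤ Real.exp (ε0 * u0) := by
    rw [← Real.log_le_iff_le_exp (by linarith)]
    have h1 : 1 / ε0 * Real.log w ≤ C6 * Real.log w :=
      mul_le_mul_of_nonneg_right (by linarith) hlw.le
    have h2 := mul_le_mul_of_nonneg_left (h1.trans hu) hε0pos.le
    have h3 : ε0 * (1 / ε0 * Real.log w) = Real.log w := by field_simp
    linarith
  have hUT := hUw w z (Real.exp (ε0 * u0)) hw hT0w hzpos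
  rw [Real.log_exp] at hUT
  obtain ⟨h, H⟩ := exists_HB (Pf PP) (gf PP) hP1 hg0 (m + 1) (by omega) z0 lam C4
    (Real.exp (ε0 * u0)) hz01 hlam0 hC41 (by
    intro j hj
    rw [hzz j, hlz0]
    set x : ℝ := Real.exp (2 ^ j * u0) with hx
    have h2j : (1:ℝ) ≤ 2 ^ j := one_le_pow₀ (by norm_num)
    have hlx : Real.log x = 2 ^ j * u0 := Real.log_exp _
    have hlx1 : u0 ≤ Real.log x := by rw [hlx]; nlinarith
    have hwx : w ≤ x := by
      rw [hx, ← Real.log_le_iff_le_exp (by linarith)]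
      linarith
    have hxz : x ≤ z := by
      rw [hx, hz]
      apply Real.exp_le_exp.mpr
      apply mul_le_mul_of_nonneg_right _ hu0.le
      exact pow_le_pow_right₀ (by norm_num) (by omega)
    have h1 := hAl w z x ∅ (by linarith) hwx hxz (by
      rw [card_empty]; push_cast; linarith)
    have h2 : Asum (Pf PP) (gf PP) x = _ := Asum_enum PP x
    have h3 : c2 * Real.log x / Real.log w - 1 ≤ Asum (Pf PP) (gf PP) x := by
      rw [h2]
      convert h1
    have h4 := Aw_ge (PP := PP) (Real.exp (ε0 * u0)) x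
    have h5 := hUw w z x hw hwx hzpos
    set ρ : ℝ := Real.log x / Real.log w with hρ
    have h6 : C6 ≤ ρ := by
      rw [hρ, le_div_iff₀ hlw]
      linarith
    have h7 : c2 * Real.log x / Real.log w = c2 * ρ := by rw [hρ]; ring
    rw [h7] at h3
    have h8 : C3 * (ε0 * u0 / Real.log w) ≤ c2 / 4 * ρ := by
      have e1 : u0 / Real.log w ≤ ρ := by
        rw [hρ]
        exact div_le_div_of_nonneg_right hlx1 hlw.le
      have e2 : 0 ≤ u0 / Real.log w := by positivity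
      calc C3 * (ε0 * u0 / Real.log w) = (C3 * ε0) * (u0 / Real.log w) := by ring
        _ ≤ c2 / 4 * ρ := mul_le_mul hεc e1 e2 (by positivity)
    have h9 : 1 ≤ c2 / 4 * ρ := by
      have e1 : 4 / c2 ≤ ρ := by linarith
      calc (1 : ℝ) = c2 / 4 * (4 / c2) := by field_simp
        _ ≤ c2 / 4 * ρ := mul_le_mul_of_nonneg_left e1 (by positivity)
    have h10 : c2 / 2 * ρ ≤ Aw (Pf PP) (gf PP) (Real.exp (ε0 * u0)) x := by
      have e1 : Uw (Pf PP) (gf PP) (Real.exp (ε0 * u0)) ≤ c2 / 4 * ρ := hUT.trans h8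
      linarith
    have h11 : C4 ≤ c2 / 2 * ρ := by
      have e1 : 2 * C4 / c2 ≤ ρ := by linarith
      calc C4 = c2 / 2 * (2 * C4 / c2) := by field_simp
        _ ≤ c2 / 2 * ρ := mul_le_mul_of_nonneg_left e1 (by positivity)
    refine ⟨h11.trans h10, ?_, ?_⟩
    · have e1 : lam * (2 ^ j * u0) = c2 / 2 * ρ := by
        rw [hlam, hρ, hlx]
        field_simp
      rw [e1]
      exact h10
    · refine h5.trans ?_
      have hρ0 : 0 ≤ ρ := by linarith
      calc C3 * ρ ≤ (C3 + c2 / 2) * ρ := mul_le_mul_of_nonneg_right (by linarith) hρ0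
        _ = C4 * (c2 / 2 * ρ) := by rw [← hC4c]; ring
        _ ≤ _ := mul_le_mul_of_nonneg_left h10 (by linarith))
  refine ⟨h, ?_⟩
  have e1 : z0 ^ (2 ^ (m + 1 - 1)) = z := by
    rw [Nat.add_sub_cancel, hzz m]
  have e2 : 4 / (lam * ((m + 1 : ℕ) : ℝ)) = 8 * Real.log w / (c2 * (m + 1)) := by
    rw [hlam]
    push_cast
    field_simp
    norm_num
  rw [e1, e2] at H
  exact H

end Pool.Agent.K7.H60.TL
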