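import Pool.Agent.K7.H60.TL.Co3
import Pool.Agent.K7.H60.TL.Pr
import Pool.Agent.K7.H60.TL.EnA

/-!
The engine: choice of the parameters.
-/

set_option autoImplicit false
set_option linter.unusedSectionVars false

namespace Pool.Agent.K7.H60.TL

open Finset Filter Pool.Agent.H256R2.SC

open scoped Classical

theorem engine (θ : ℝ) (hθ : 0 < θ) (A : ℕ) : ∃ c C5 C6 : ℝ, 0 < c ∧ 0 < C5 ∧
    0 < C6 ∧ ∃ X₀ : ℝ, ∀ X : ℕ, X₀ ≤ X →
    ∀ (κ : Type) [Fintype κ] [DecidableEq κ] (sh : κ → ℕ) (N W b Y : ℕ) (u0 : ℝ),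
    (Fintype.card κ : ℝ) ≤ c * Real.log X → Function.Injective sh → (∀ k, sh k ≤ N) →
    (N : ℝ) ≤ (Real.log X) ^ (A + 10) → N < W → b < W →
    (∀ p : ℕ, p.Prime → (Real.log X) ^ (A + 10) < p → ¬ p ∣ W) →
    C6 * Real.log (Real.log X) ≤ u0 → u0 ≤ (Real.log X) ^ (1 - θ) →
    W * Real.exp (C5 * Real.log (Real.log X) * (Real.log X / u0)) ≤ Y →
    (Y : ℝ) ≤ Real.exp (Real.log X / 2) →
    (((Ico X (2 * X)).filter (fun x => ¬ ∃ n, n % W = b ∧ X ≤ n ∧ x < n ∧ n ≤ x + Y ∧
      ∀ k, ¬ (n + sh k).Prime)).card : ℝ) ≤ X / (Real.log X) ^ A := by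
  obtain ⟨c2, C4, C6', ε0, hc2, hC41, hC61, hε0, hε01, hprof⟩ := profile
  obtain ⟨CM, hCM, hsum⟩ := sum_gf_le
  set B : ℝ := (A : ℝ) + 10 with hB
  have hB10 : 10 ≤ B := by
    have : (0 : ℝ) ≤ A := Nat.cast_nonneg _
    linarith
  set D : ℝ := 10000 * (B + 1) with hD
  have hD1 : 1 ≤ D := by linarith
  set K₀ : ℝ := 16 * B / (c2 * θ) with hK₀
  have hK₀pos : 0 < K₀ := by positivity
  set c : ℝ := min (1 / 8) (5 / (2 * D * K₀)) with hc
  have hc0 : 0 < c := lt_min (by norm_num) (by positivity)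
  have hc8 : c ≤ 1 / 8 := min_le_left _ _
  have hcK : c ≤ 5 / (2 * D * K₀) := min_le_right _ _
  set C7 : ℝ := 35 + 2 * B with hC7
  set C5 : ℝ := C7 / (20 * ε0) + B + 10 with hC5
  have hC5pos : 0 < C5 := by positivity
  set C6 : ℝ := C6' * B with hC6
  set Λ : ℝ := 100000 * (B + 1) + 8 * C4 + 20 * CM with hΛ
  have hΛ1 : 100000 * (B + 1) ≤ Λ := by linarith
  obtain ⟨L₀, hL₀1, hL₀⟩ := ev_facts' θ D Λ hθ hD1
  refine ⟨c, C5, C6, hc0, hC5pos, by positivity, Real.exp L₀, ?_⟩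
  intro X hX κ _ _ sh N W b Y u0 hκ hinj hsh hN hNW hbW hPW hu1 hu2 hWY hYX
  have hX0 : (0 : ℝ) < X := lt_of_lt_of_le (Real.exp_pos _) hX
  set L : ℝ := Real.log X with hL
  have hXL : (X : ℝ) = Real.exp L := (Real.exp_log hX0).symm
  have hLL : L₀ ≤ L := by
    rw [hL, ← Real.log_exp L₀]
    exact Real.log_le_log (Real.exp_pos _) hX
  obtain ⟨f1, f2, f3, f4, f5⟩ := hL₀ L hLL
  set l : ℝ := Real.log L with hl
  have hl0 : 0 < l := by linarith
  have hLpos : 0 < L := by linarith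
  have hf4 : 100000 * (B + 1) * l ≤ L := (mul_le_mul_of_nonneg_right hΛ1 hl0.le).trans f4
  have Nm : Num A B D C4 CM ε0 K₀ c C5 C7 L l :=
    ⟨hB, hD, hC41, hCM, hε0, hε01, hK₀pos, hc0, hc8, hcK, hC7, hC5, hLpos, hl, f2,
      by linarith, by linarith, by linarith, hf4⟩
  have hLexp : L = Real.exp l := Nm.expl
  have hLbig := Nm.Lbig
  have hL1 : 1 ≤ L := by linarith
  -- basic quantities
  set w : ℝ := L ^ (A + 10) with hw
  have hwexp : w = Real.exp (B * l) := by
    rw [hw, Nm.pw]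
    push_cast
    rfl
  have hlogw : Real.log w = B * l := by rw [hwexp, Real.log_exp]
  have hwL : w = L ^ (A + 1) * L ^ 9 := by
    rw [hw, ← pow_add]
  have hLA : 1 ≤ L ^ (A + 1) := one_le_pow₀ hL1
  have hL9 : L ^ 9 ≤ w := by
    rw [hwL]
    exact le_mul_of_one_le_left (by positivity) hLA
  have hL3 : 10 * L ≤ L ^ 9 := by
    calc 10 * L ≤ L * L := mul_le_mul_of_nonneg_right (by linarith) hLpos.le
      _ = L ^ 2 := by ring
      _ ≤ L ^ 9 := pow_le_pow_right₀ hL1 (by norm_num)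
  have hL10w : 10 * L ≤ w := hL3.trans hL9
  have hw4 : 4 ≤ w := by linarith
  have hw0 : 0 < w := by linarith
  have hC6l : C6' * Real.log w ≤ u0 := by
    rw [hlogw]
    calc C6' * (B * l) = C6 * l := by rw [hC6]; ring
      _ ≤ u0 := hu1
  have hu0l : l ≤ u0 := by
    have h1 : 1 ≤ C6' * B := by
      calc (1 : ℝ) = 1 * 1 := by ring
        _ ≤ C6' * B := mul_le_mul hC61 (by linarith) (by norm_num) (by linarith)
    have h2 : 1 * l ≤ C6 * l := mul_le_mul_of_nonneg_right h1 hl0.le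
    linarith
  have hu0pos : 0 < u0 := by linarith
  have hu2' : u0 ≤ Real.exp ((1 - θ) * l) := by
    have : L ^ (1 - θ) = Real.exp ((1 - θ) * l) := by
      rw [Real.rpow_def_of_pos hLpos, mul_comm]
    rwa [this] at hu2
  have hlogu0 : Real.log u0 ≤ (1 - θ) * l := by
    rw [← Real.log_exp ((1 - θ) * l)]
    exact Real.log_le_log hu0pos hu2'
  -- the number of scales
  set ξ : ℝ := L / (D * l * u0) with hξ
  have hξpos : 0 < ξ := by positivity
  have hlogξ : θ / 2 * l ≤ Real.log ξ := by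
    rw [hξ, Real.log_div hLpos.ne' (by positivity), Real.log_mul (by positivity) hu0pos.ne']
    linarith
  have hξ1 : 1 ≤ ξ := by
    have h1 : 0 ≤ Real.log ξ := le_trans (by positivity) hlogξ
    by_contra hcc
    push Not at hcc
    have := Real.log_neg hξpos hcc
    linarith
  obtain ⟨m, hm1, hm2⟩ := exists_nat_pow_near hξ1 (by norm_num : (1 : ℝ) < 2)
  set lz : ℝ := 2 ^ m * u0 with hlz
  have hlz1 : lz ≤ L / (D * l) := by
    rw [hlz, le_div_iff₀ (by positivity)]
    rw [hξ, le_div_iff₀ (by positivity)] at hm1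
    linarith
  have hlz2 : L / (2 * D * l) ≤ lz := by
    rw [hlz, div_le_iff₀ (by positivity)]
    rw [hξ, div_lt_iff₀ (by positivity), pow_succ] at hm2
    linarith
  have hlzpos : 0 < lz := by positivity
  have hm3 : θ / 2 * l ≤ (m : ℝ) + 1 := by
    have h1 : Real.log ξ ≤ ((m : ℝ) + 1) * Real.log 2 := by
      have h2 := Real.log_le_log hξpos hm2.le
      rw [Real.log_pow] at h2
      push_cast at h2
      exact h2
    have h3 : Real.log 2 ≤ 1 := by have := Real.log_two_lt_d9; linarith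
    have h4 : (0 : ℝ) ≤ (m : ℝ) + 1 := by positivity
    have h5 : ((m : ℝ) + 1) * Real.log 2 ≤ ((m : ℝ) + 1) * 1 := mul_le_mul_of_nonneg_left h3 h4
    linarith
  set z : ℝ := Real.exp lz with hz
  have hlogz : Real.log z = lz := Real.log_exp _
  have hzpos : 0 < z := Real.exp_pos _
  set PP := PS w z ∅ with hPP
  have hmem : ∀ p ∈ PP, p.Prime ∧ w < (p : ℝ) ∧ (p : ℝ) ≤ z := fun p hp => PS_mem hzpos.le hp
  obtain ⟨h, H⟩ := hprof w u0 m hw4 hC6l
  set K : ℝ := 8 * Real.log w / (c2 * (m + 1)) with hK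
  have hKK₀ : K ≤ K₀ := by
    rw [hK, hK₀, hlogw, div_le_div_iff₀ (by positivity) (by positivity)]
    have h1 : θ * l ≤ 2 * ((m : ℝ) + 1) := by linarith
    have h2 := mul_le_mul_of_nonneg_left h1 (by positivity : 0 ≤ 8 * B * c2)
    calc 8 * (B * l) * (c2 * θ) = 8 * B * c2 * (θ * l) := by ring
      _ ≤ 8 * B * c2 * (2 * ((m : ℝ) + 1)) := h2
      _ = 16 * B * (c2 * ((m : ℝ) + 1)) := by ring
  have hK0 : 0 ≤ K := H.K0
  set T0 : ℝ := Real.exp (ε0 * u0) with hT0
  set u : ℝ := (Fintype.card κ : ℝ) with hu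
  have hu0' : 0 ≤ u := Nat.cast_nonneg _
  have huL : u + 1 ≤ L := by
    have h1 : c * L ≤ 1 / 8 * L := mul_le_mul_of_nonneg_right hc8 hLpos.le
    linarith
  have huL' : u ≤ L := by linarith
  have hDl : 0 < D * l := by positivity
  have hlzL : lz ≤ L / 10000 := by
    refine hlz1.trans ?_
    apply div_le_div_of_nonneg_left hLpos.le (by norm_num)
    calc (10000 : ℝ) = 10000 * 1 := by ring
      _ ≤ D * l := mul_le_mul (by linarith) f2 (by norm_num) (by linarith)
  have hz3 : 3 ≤ z := by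
    have e1 : (2:ℝ) ≤ lz := by
      refine le_trans ?_ hlz2
      rw [le_div_iff₀ (by positivity)]
      have e2 : 2 * (2 * D * l) ≤ 100000 * (B + 1) * l := by
        rw [hD]
        have : 0 ≤ (B + 1) * l := by positivity
        linarith
      linarith
    have e4 : Real.exp 2 ≤ z := Real.exp_le_exp.mpr e1
    have e5 : (3:ℝ) ≤ Real.exp 2 := by
      have := Real.add_one_le_exp (2:ℝ); linarith
    linarith
  set G : ℝ := ∑ i, gf PP i with hG
  have hG1 : G ≤ l + CM := by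
    have h1 := hsum w z hz3
    rw [hlogz] at h1
    have h2 : Real.log lz ≤ l := by
      rw [hl]
      apply Real.log_le_log hlzpos
      linarith
    linarith
  have hGL : G ≤ L := by
    have h1 := Nm.l4
    have h2 := Nm.l5
    have h3 : 1 * l ≤ (B + 1) * l := mul_le_mul_of_nonneg_right (by linarith) hl0.le
    linarith
  have hg0 : ∀ i, 0 ≤ gf PP i := fun i => (H.g0 i).le
  have hG0 : 0 ≤ G := sum_nonneg fun i _ => hg0 i
  have hgw : ∀ i, gf PP i ≤ 1 / w := fun i =>
    one_div_le_one_div_of_le hw0 (hmem _ (emb_mem PP i)).2.1.le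
  have hS2 : ∑ i, (gf PP i) ^ 2 ≤ L / w := by
    calc ∑ i, (gf PP i) ^ 2 ≤ ∑ i, 1 / w * gf PP i := by
          apply sum_le_sum
          intro i _
          rw [sq]
          exact mul_le_mul_of_nonneg_right (hgw i) (hg0 i)
      _ = 1 / w * G := by rw [← mul_sum]
      _ ≤ 1 / w * L := mul_le_mul_of_nonneg_left hGL (by positivity)
      _ = L / w := by ring
  have hS20 : 0 ≤ ∑ i, (gf PP i) ^ 2 := sum_nonneg fun i _ => sq_nonneg _
  set Q : ℝ := Real.exp (L / 40) with hQ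
  set δ : ℝ := C4 * L / w with hδ
  have hsupp : ∀ D' : Col PP.card κ, qq (Pf PP) D' ≤ Q → ((supp D').card : ℝ) ≤ L / 40 := by
    intro D' hD'
    have h1 : Real.exp ((supp D').card : ℝ) ≤ qq (Pf PP) D' := by
      unfold qq
      rw [prod_nu1]
      have : Real.exp ((supp D').card : ℝ) = ∏ i ∈ supp D', Real.exp 1 := by
        rw [Finset.prod_const, ← Real.exp_nat_mul, mul_one]
      rw [this]
      apply Finset.prod_le_prod
      · intro i _; exact (Real.exp_pos _).le
      · intro i _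
        have h2 := Real.exp_one_lt_d9
        have h3 := (hmem _ (emb_mem PP i)).2.1
        show Real.exp 1 ≤ ((emb PP i : ℕ) : ℝ)
        linarith
    have h2 := h1.trans hD'
    rw [hQ] at h2
    exact Real.exp_le_exp.mp h2
  have hC40 : 0 ≤ C4 := by linarith
  have hδ' : ∀ D' : Col PP.card κ, qq (Pf PP) D' ≤ Q →
      C4 * ∑ i with D' i ≠ none, gf PP i ≤ δ := by
    intro D' hD'
    have h1 : ∑ i with D' i ≠ none, gf PP i ≤ (supp D').card * (1 / w) := by
      have : ∑ i ∈ supp D', gf PP i ≤ ∑ i ∈ supp D', (1 / w) := Finset.sum_le_sum (fun i _ => hgw i)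
      rw [Finset.sum_const, nsmul_eq_mul] at this
      exact this
    have h2 := hsupp D' hD'
    have h3 : ((supp D').card : ℝ) * (1 / w) ≤ L * (1 / w) :=
      mul_le_mul_of_nonneg_right (by linarith) (by positivity)
    calc C4 * ∑ i with D' i ≠ none, gf PP i ≤ C4 * (L * (1 / w)) :=
          mul_le_mul_of_nonneg_left (h1.trans h3) hC40
      _ = δ := by rw [hδ]; ring
  have hW1 : 1 ≤ W := by omega
  have hWr : (1 : ℝ) ≤ W := by exact_mod_cast hW1
  have hX1 : 1 ≤ X := by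
    have : (0 : ℝ) < X := hX0
    have : 0 < X := by exact_mod_cast this
    omega
  have dat : Dat PP sh h z K C4 T0 Q δ w X W b N := by
    refine ⟨H, fun p hp => (hmem p hp).1, fun p hp => (hmem p hp).2.2,
      fun p hp => (hmem p hp).2.1, hsh, hinj, hN, hX1, hNW, hbW,
      fun p hp => hPW p (hmem p hp).1 (hmem p hp).2.1, ?_, ?_, ?_, ?_, ?_, hδ'⟩
    · exact Real.one_le_exp (by positivity)
    · linarith
    · linarith
    · have h1 : ∑ i, 1 / (Pf PP i) ^ 2 = ∑ i, (gf PP i) ^ 2 := by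
        apply sum_congr rfl
        intro i _
        simp only [Pf, gf]
        rw [div_pow, one_pow]
      rw [h1]
      have h2 : 2 * u * ∑ i, (gf PP i) ^ 2 ≤ 2 * L * (L / w) :=
        mul_le_mul (by linarith) hS2 hS20 (by positivity)
      have h3 : 2 * L * (L / w) ≤ 1 := by
        rw [mul_div_assoc', div_le_one hw0]
        calc 2 * L * L ≤ L * L * L := by
              apply mul_le_mul_of_nonneg_right _ hLpos.le
              exact mul_le_mul_of_nonneg_right (by linarith) hLpos.le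
          _ = L ^ 3 := by ring
          _ ≤ L ^ 9 := pow_le_pow_right₀ hL1 (by norm_num)
          _ ≤ w := hL9
      linarith
    · rw [hδ]
      positivity
  -- parameters of the core
  set s : ℝ := 1 / L ^ (A + 1) with hs
  have hs0 : 0 < s := Nm.s_pos
  have hs1 : s ≤ 1 := Nm.s_le
  set J : ℕ := 2 * ⌈(15 + B) * l⌉₊ with hJ
  have hJ1 : 2 * ((15 + B) * l) ≤ (J : ℝ) := by
    have := Nat.le_ceil ((15 + B) * l)
    rw [hJ]; push_cast; linarith
  have hJ2 : (J : ℝ) ≤ (32 + 2 * B) * l := by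
    have h1 := Nat.ceil_lt_add_one (show 0 ≤ (15 + B) * l by positivity)
    rw [hJ]; push_cast; linarith
  have hJe : Even J := ⟨⌈(15 + B) * l⌉₊, by rw [hJ]; ring⟩
  set R : ℕ := ⌊L / (40 * (ε0 * u0))⌋₊ with hR
  have hR1 : (R : ℝ) ≤ L / (40 * (ε0 * u0)) := Nat.floor_le (by positivity)
  have hR2 : L / (40 * (ε0 * u0)) < (R : ℝ) + 1 := Nat.lt_floor_add_one _
  have hR3 : Q < T0 ^ (R + 1) := by
    rw [hQ, hT0, ← Real.exp_nat_mul]
    apply Real.exp_lt_exp.mpr
    rw [div_lt_iff₀ (by positivity)] at hR2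
    push_cast
    linarith
  have hzJ : ((PP.card : ℝ) + 1) ^ J ≤ Real.exp (L / 300) := by
    have h1 := card_PS w z (by linarith)
    have h2 : (0 : ℝ) ≤ (PP.card : ℝ) + 1 := add_nonneg (Nat.cast_nonneg _) zero_le_one
    refine (pow_le_pow_left₀ h2 h1 J).trans ?_
    rw [hz, ← Real.exp_nat_mul]
    apply Real.exp_le_exp.mpr
    calc (J:ℝ) * lz ≤ ((32 + 2 * B) * l) * (L / (D * l)) :=
          mul_le_mul hJ2 hlz1 hlzpos.le (by positivity)
      _ = (32 + 2 * B) / D * L := by field_simp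
      _ ≤ 1 / 300 * L := by
          apply mul_le_mul_of_nonneg_right _ hLpos.le
          rw [div_le_div_iff₀ (by linarith) (by norm_num), hD]
          linarith
      _ = L / 300 := by ring
  have hΩ : Real.exp (L / 2) ≤ (X : ℝ) / W := by
    rw [le_div_iff₀ (by linarith), hXL]
    have h1 : (W : ℝ) ≤ Real.exp (L / 2) := by
      refine le_trans ?_ (hWY.trans hYX)
      apply le_mul_of_one_le_right (by linarith)
      apply Real.one_le_exp
      positivity
    calc Real.exp (L / 2) * W ≤ Real.exp (L / 2) * Real.exp (L / 2) :=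
          mul_le_mul_of_nonneg_left h1 (Real.exp_pos _).le
      _ = Real.exp L := by rw [← Real.exp_add]; congr 1; ring
  have hY0r : (0 : ℝ) < Y := lt_of_lt_of_le (mul_pos (by linarith) (Real.exp_pos _)) hWY
  have hY0 : 0 < Y := by exact_mod_cast hY0r
  have hYX' : Y ≤ X := by
    have : (Y : ℝ) ≤ X := by
      rw [hXL]
      exact hYX.trans (Real.exp_le_exp.mpr (by linarith))
    exact_mod_cast this
  have hV : 1 ≤ L / u0 := by
    rw [le_div_iff₀ hu0pos, one_mul]
    calc u0 ≤ Real.exp ((1 - θ) * l) := hu2'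
      _ ≤ Real.exp l := Real.exp_le_exp.mpr (by
          have : 0 ≤ θ * l := by positivity
          linarith)
      _ = L := hLexp.symm
  have hlogQz : Real.log (Q / z) = L / 40 - lz := by
    rw [Real.log_div (Real.exp_pos _).ne' hzpos.ne', Real.log_exp, hlogz]
  have hE := Nm.tail hκ hKK₀ hK0 hlzpos hlz1 hlz2
  have hE' : Real.exp (2 * u * K / Real.log z - Real.log (Q / z) / Real.log z) ≤
      s * (1 / L ^ 3) := by
    rw [hlogQz, hlogz]
    exact hE
  have hτ := Nm.tau hJ1 hG1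
  have hL3' : 1 / L ^ 3 ≤ 1 / (8 * L) := by
    apply one_div_le_one_div_of_le (by positivity)
    have h8L : (8 : ℝ) ≤ L := by linarith
    have h8L2 : L ≤ L ^ 2 := le_self_pow₀ hL1 (by norm_num)
    calc 8 * L ≤ L ^ 2 * L := mul_le_mul_of_nonneg_right (h8L.trans h8L2) hLpos.le
      _ = L ^ 3 := by ring
  have hsL : s * (1 / L ^ 3) ≤ s * (1 / (8 * L)) := mul_le_mul_of_nonneg_left hL3' hs0.le
  have hsL2 : L * (s * (1 / (8 * L))) = s / 8 := by field_simp
  have hsL3 : s * (1 / (8 * L)) ≤ s / 8 := by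
    have h1 : s * (1 / (8 * L)) ≤ L * (s * (1 / (8 * L))) :=
      le_mul_of_one_le_left (by positivity) hL1
    linarith
  have huδ : u * δ ≤ s / 8 := by
    have h1 : u * δ ≤ L * δ := mul_le_mul_of_nonneg_right huL' dat.hδ0
    have h2 : L * δ = s * (C4 / L ^ 7) := by
      rw [hδ, hs, hwL]
      field_simp
    have h3 : C4 / L ^ 7 ≤ 1 / 8 := by
      rw [div_le_div_iff₀ (by positivity) (by norm_num)]
      have e1 := Nm.l3
      have e2 := Nm.lL
      have e3 : L ≤ L ^ 7 := le_self_pow₀ hL1 (by norm_num)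
      linarith
    have h4 := mul_le_mul_of_nonneg_left h3 hs0.le
    linarith
  have hδ1 : δ ≤ 1 := by
    rw [hδ, div_le_one hw0]
    have e1 := Nm.l3
    have e2 := Nm.lL
    calc C4 * L ≤ L * L := mul_le_mul_of_nonneg_right (by linarith) hLpos.le
      _ = L ^ 2 := by ring
      _ ≤ L ^ 9 := pow_le_pow_right₀ hL1 (by norm_num)
      _ ≤ w := hL9
  have hτ0 : 0 ≤ (1 / 3 : ℝ) ^ J * Real.exp (20 * G) := by positivity
  have huτ : u * ((1 / 3 : ℝ) ^ J * Real.exp (20 * G)) ≤ s / 8 := by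
    calc u * ((1 / 3 : ℝ) ^ J * Real.exp (20 * G)) ≤ L * (s * (1 / (8 * L))) :=
          mul_le_mul huL' (hτ.trans hsL) hτ0 hLpos.le
      _ = s / 8 := hsL2
  have huE : u * Real.exp (2 * u * K / Real.log z - Real.log (Q / z) / Real.log z) ≤ s / 8 := by
    calc u * Real.exp (2 * u * K / Real.log z - Real.log (Q / z) / Real.log z) ≤
          L * (s * (1 / (8 * L))) :=
          mul_le_mul huL' (hE'.trans hsL) (Real.exp_pos _).le hLpos.le
      _ = s / 8 := hsL2
  have hlogY : Real.log (2 * Y) ≤ L := by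
    rw [Real.log_mul (by norm_num) hY0r.ne']
    have h1 : Real.log Y ≤ L / 2 := by
      rw [← Real.log_exp (L / 2)]
      exact Real.log_le_log hY0r hYX
    have h2 := Real.log_two_lt_d9
    linarith
  have hlogY0 : 0 ≤ Real.log (2 * Y) := by
    apply Real.log_nonneg
    have : (1 : ℝ) ≤ Y := by exact_mod_cast hY0
    linarith
  have hPPJ : (0 : ℝ) ≤ ((PP.card : ℝ) + 1) ^ J :=
    pow_nonneg (add_nonneg (Nat.cast_nonneg _) zero_le_one) J
  have hC7l : 0 ≤ C7 * l := mul_nonneg (by linarith) hl0.le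
  have hS2l : 0 ≤ L / 40 := by linarith
  have hcore := dat.core (Y := Y) (J := J) (J1 := J) (R := R) (s := s)
    (lam := Real.exp (C7 * l)) hJe (by omega) hs0 hs1 hYX' hY0
    (Real.one_lt_exp_iff.mpr (mul_pos hε0 hu0pos)) hR3
    (Real.one_le_exp hC7l) (Nm.lam_ge huL' hJ2) huδ
    (hE'.trans (hsL.trans hsL3))
    (Nm.q3 huL hzJ hPPJ hΩ)
    (by
      refine huτ.trans ?_
      apply le_mul_of_one_le_right (by positivity)
      have : 1 ≤ (J + 1).choose J := Nat.succ_le_of_lt (Nat.choose_pos (by omega))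
      exact_mod_cast this)
    (by
      have h1 : u * δ ^ 2 ≤ s / 8 := by
        calc u * δ ^ 2 = (u * δ) * δ := by ring
          _ ≤ (u * δ) * 1 := mul_le_mul_of_nonneg_left hδ1 (mul_nonneg hu0' dat.hδ0)
          _ ≤ s / 8 := by rw [mul_one]; exact huδ
      have h2 : u * (δ ^ 2 + Real.exp (2 * u * K / Real.log z - Real.log (Q / z) / Real.log z) +
          (1 / 3) ^ J * Real.exp (20 * G)) = u * δ ^ 2 +
          u * Real.exp (2 * u * K / Real.log z - Real.log (Q / z) / Real.log z) +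
          u * ((1 / 3) ^ J * Real.exp (20 * G)) := by ring
      rw [h2]
      linarith)
    (Nm.q6 hu0' huL hS20 hS2 hlogY0 hlogY)
    (Nm.q7 hΩ)
    (Nm.q8 (V := L / u0) hWr hV hXL (by
      refine le_trans (le_of_eq ?_) hWY
      ring_nf) hYX (by
      refine hR1.trans (le_of_eq ?_)
      field_simp))
  have hfin : 21 * s * X ≤ X / L ^ A := by
    rw [hs, pow_succ]
    have h1 : 21 * (1 / (L ^ A * L)) * X = X / L ^ A * (21 / L) := by field_simp
    rw [h1]
    apply mul_le_of_le_one_right (by positivity)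
    rw [div_le_one hLpos]
    linarith
  refine le_trans ?_ (hcore.trans hfin)
  have hsub : (Ico X (2 * X)).filter (fun x => ¬ ∃ n, n % W = b ∧ X ≤ n ∧ x < n ∧ n ≤ x + Y ∧
      ∀ k, ¬ (n + sh k).Prime) ⊆
      (Ico X (2 * X)).filter (fun x => ¬ ∃ n, n ∈ Sx X W b ∧ x < n ∧ n ≤ x + Y ∧
      ∀ k, ∃ i, cl PP sh n i = some k) := by
    intro x hx
    rw [mem_filter] at hx ⊢
    refine ⟨hx.1, ?_⟩
    rintro ⟨n, hn, h1, h2, h3⟩
    apply hx.2
    unfold Sx at hn
    rw [mem_filter, mem_Ico] at hn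
    refine ⟨n, hn.2, hn.1.1, h1, h2, fun k hk => ?_⟩
    obtain ⟨i, hi⟩ := h3 k
    have h4 := (colr_eq dat.injr (n : ℤ) i k).mp hi
    have h5 : (emb PP i : ℕ) ∣ n + sh k := by
      unfold rs at h4
      have e : (n : ℤ) - -(sh k : ℤ) = ((n + sh k : ℕ) : ℤ) := by push_cast; ring
      rw [e] at h4
      exact_mod_cast h4
    have h6 := hmem _ (emb_mem PP i)
    rcases (Nat.dvd_prime hk).1 h5 with h7 | h7
    · exact h6.1.one_lt.ne' h7
    · have h8 : (X : ℝ) ≤ z := by
        calc (X : ℝ) ≤ n := by exact_mod_cast hn.1.1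
          _ ≤ ((n + sh k : ℕ) : ℝ) := by push_cast; linarith [(Nat.cast_nonneg (sh k) : (0:ℝ) ≤ _)]
          _ = ((emb PP i : ℕ) : ℝ) := by rw [h7]
          _ ≤ z := h6.2.2
      rw [hXL, hz] at h8
      have h9 := Real.exp_le_exp.mp h8
      linarith
  exact_mod_cast card_le_card hsub

end Pool.Agent.K7.H60.TL
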