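import Pool.Agent.H256R2.SC.J

/-!
The covering sieve with a profile supported on large sizes: hypotheses and the bounds of the
reduced coefficients (variants of the lemmas of `Pool.Agent.H256R2.SC.D`, without monotonicity).
-/

set_option autoImplicit false
set_option linter.unusedSectionVars false

namespace Pool.Agent.K7.H60.TL

open Finset Pool.Agent.H256R2.SC

variable {n : ℕ} {κ : Type} [Fintype κ] [DecidableEq κ]

/-- hypotheses on the profile `h` -/
structure HB (p g : Fin n → ℝ) (h : Finset (Fin n) → ℝ) (z K C4 T0 : ℝ) : Prop where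
  p1 : ∀ i, 1 < p i
  g0 : ∀ i, 0 < g i
  z1 : 1 < z
  K0 : 0 ≤ K
  c4 : 1 ≤ C4
  h0 : ∀ s, 0 ≤ h s
  hC : ∀ s, h s * C4 ≤ 1
  conc : ∀ T : Finset (Fin n), ∑ s : Finset (Fin n) with Disjoint s T, h (T ∪ s) * ∏ i ∈ s, g i ≤ C4
  supp : ∀ s, h s ≠ 0 → T0 ≤ ∏ i ∈ s, p i ∧ ∏ i ∈ s, p i ≤ z
  sum1 : ∑ s : Finset (Fin n) with s.Nonempty, h s * ∏ i ∈ s, g i = 1
  cost : ∑ s : Finset (Fin n) with s.Nonempty,
    (h s) ^ 2 * (∏ i ∈ s, g i) * Real.log (∏ i ∈ s, p i) ≤ K

section
variable {p g : Fin n → ℝ} {h : Finset (Fin n) → ℝ} {z K C4 T0 : ℝ}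

theorem HB.h1 (H : HB p g h z K C4 T0) (s : Finset (Fin n)) : h s ≤ 1 := by
  have h1 := H.hC s
  have h2 := H.h0 s
  have h3 := H.c4
  nlinarith

theorem sum_mem (H : HB p g h z K C4 T0) (i : Fin n) :
    ∑ s : Finset (Fin n) with i ∈ s, h s * ∏ j ∈ s, g j ≤ C4 * g i := by
  have h1 : ∑ s : Finset (Fin n) with i ∈ s, h s * ∏ j ∈ s, g j =
      g i * ∑ s : Finset (Fin n) with Disjoint s {i}, h ({i} ∪ s) * ∏ j ∈ s, g j := by
    rw [Finset.mul_sum]
    refine Finset.sum_bij' (fun s _ => s.erase i) (fun s _ => {i} ∪ s) ?_ ?_ ?_ ?_ ?_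
    · intro s _; simp
    · intro s _; simp
    · intro s hs
      rw [Finset.mem_filter] at hs
      ext j
      by_cases hj : j = i
      · subst hj; simp [hs.2]
      · simp [hj]
    · intro s hs
      rw [Finset.mem_filter, Finset.disjoint_singleton_right] at hs
      ext j
      by_cases hj : j = i
      · subst hj; simp [hs.2]
      · simp [hj]
    · intro s hs
      rw [Finset.mem_filter] at hs
      have h3 : {i} ∪ s.erase i = s := by
        ext j
        by_cases hj : j = i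
        · subst hj; simp [hs.2]
        · simp [hj]
      rw [h3, ← Finset.mul_prod_erase s g hs.2]
      ring
  rw [h1, mul_comm C4]
  exact mul_le_mul_of_nonneg_left (H.conc {i}) (H.g0 i).le

theorem prod_ge_one (H : HB p g h z K C4 T0) (s : Finset (Fin n)) : 1 ≤ ∏ i ∈ s, p i := by
  calc (1 : ℝ) = ∏ i ∈ s, (1 : ℝ) := by simp
    _ ≤ ∏ i ∈ s, p i := Finset.prod_le_prod (fun _ _ => zero_le_one) fun i _ => (H.p1 i).le

theorem qq_pos (H : HB p g h z K C4 T0) (D : Col n κ) : 1 ≤ qq p D := by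
  unfold qq
  rw [prod_nu1]
  exact prod_ge_one H _

theorem nu_nonneg' (H : HB p g h z K C4 T0) (D : Col n κ) : 0 ≤ nu g D := nu_nonneg H.g0 D

theorem RR_big (H : HB p g h z K C4 T0) (Q : ℝ)
    (D : Col n κ) (hQ : Q < qq p D) : DD.RR p g h Q D = 0 := by
  unfold DD.RR
  refine Finset.sum_eq_zero fun s _ => ?_
  rw [if_neg]
  have h1 := prod_ge_one H s
  have h2 := qq_pos H D
  nlinarith

theorem RR_le_one (H : HB p g h z K C4 T0) (Q : ℝ)
    (D : Col n κ) : 0 ≤ DD.RR p g h Q D ∧ DD.RR p g h Q D ≤ 1 := by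
  have hG : ∀ s : Finset (Fin n), 0 ≤ ∏ j ∈ s, g j := fun s =>
    Finset.prod_nonneg fun j _ => (H.g0 j).le
  by_cases hQ : qq p D ≤ Q
  · rw [DD.RR_eq p g h Q D hQ]
    have h1 : 0 ≤ ∑ s ∈ (free D).powerset with s.Nonempty ∧ (∏ i ∈ s, p i) * qq p D ≤ Q,
        h s * ∏ i ∈ s, g i := Finset.sum_nonneg fun s _ => mul_nonneg (H.h0 s) (hG s)
    have h2 : ∑ s ∈ (free D).powerset with s.Nonempty ∧ (∏ i ∈ s, p i) * qq p D ≤ Q,
        h s * ∏ i ∈ s, g i ≤ ∑ s : Finset (Fin n) with s.Nonempty, h s * ∏ i ∈ s, g i := by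
      refine Finset.sum_le_sum_of_subset_of_nonneg ?_ fun s _ _ => mul_nonneg (H.h0 s) (hG s)
      intro s hs
      rw [Finset.mem_filter] at hs
      exact Finset.mem_filter.2 ⟨Finset.mem_univ _, hs.2.1⟩
    rw [H.sum1] at h2
    constructor <;> linarith
  · rw [RR_big H Q D (not_le.1 hQ)]
    norm_num

theorem RR_le_delta (H : HB p g h z K C4 T0)
    (Q : ℝ) (D : Col n κ) (hQ : qq p D ≤ Q / z) :
    DD.RR p g h Q D ≤ C4 * ∑ i with D i ≠ none, g i := by
  have hG : ∀ s : Finset (Fin n), 0 ≤ ∏ j ∈ s, g j := fun s =>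
    Finset.prod_nonneg fun j _ => (H.g0 j).le
  have hz0 : 0 < z := by linarith [H.z1]
  have hqz : qq p D * z ≤ Q := (le_div_iff₀ hz0).1 hQ
  have hq1 := qq_pos H D
  have hQ' : qq p D ≤ Q := by nlinarith [H.z1]
  rw [DD.RR_eq p g h Q D hQ']
  -- the truncation is void
  have h1 : ∑ s ∈ (free D).powerset with s.Nonempty ∧ (∏ i ∈ s, p i) * qq p D ≤ Q,
        h s * ∏ i ∈ s, g i = ∑ s ∈ (free D).powerset with s.Nonempty, h s * ∏ i ∈ s, g i := by
    refine Finset.sum_subset ?_ ?_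
    · intro s hs
      rw [Finset.mem_filter] at hs ⊢
      exact ⟨hs.1, hs.2.1⟩
    · intro s hs hs'
      rw [Finset.mem_filter] at hs hs'
      by_cases h0 : h s = 0
      · rw [h0, zero_mul]
      · exfalso
        apply hs'
        refine ⟨hs.1, hs.2, ?_⟩
        have h2 := (H.supp s h0).2
        calc (∏ i ∈ s, p i) * qq p D ≤ z * qq p D :=
              mul_le_mul_of_nonneg_right h2 (by linarith)
          _ ≤ Q := by linarith
  rw [h1]
  -- sets meeting the support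
  have h3 : 1 = ∑ s ∈ (free D).powerset with s.Nonempty, h s * ∏ i ∈ s, g i +
      ∑ s : Finset (Fin n) with ¬ s ⊆ free D, h s * ∏ i ∈ s, g i := by
    rw [← H.sum1, ← Finset.sum_filter_add_sum_filter_not
      (univ.filter (fun s : Finset (Fin n) => s.Nonempty)) (fun s => s ⊆ free D)]
    congr 1
    · refine Finset.sum_congr ?_ fun _ _ => rfl
      ext s
      simp only [Finset.mem_filter, Finset.mem_univ, true_and, Finset.mem_powerset]
      exact and_comm
    · refine Finset.sum_congr ?_ fun _ _ => rfl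
      ext s
      simp only [Finset.mem_filter, Finset.mem_univ, true_and]
      constructor
      · exact fun h => h.2
      · intro h
        refine ⟨?_, h⟩
        rw [Finset.nonempty_iff_ne_empty]
        rintro rfl
        exact h (Finset.empty_subset _)
  have h4 : ∑ s : Finset (Fin n) with ¬ s ⊆ free D, h s * ∏ i ∈ s, g i ≤
      ∑ i with D i ≠ none, ∑ s : Finset (Fin n) with i ∈ s, h s * ∏ j ∈ s, g j := by
    have h5 : ∀ i : Fin n, ∑ s : Finset (Fin n) with i ∈ s, h s * ∏ j ∈ s, g j =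
        ∑ s : Finset (Fin n), if i ∈ s then h s * ∏ j ∈ s, g j else 0 := fun i =>
      Finset.sum_filter _ _
    simp_rw [h5]
    rw [Finset.sum_comm, Finset.sum_filter]
    refine Finset.sum_le_sum fun s _ => ?_
    have hnn : ∀ i ∈ univ.filter (fun i => D i ≠ none),
        0 ≤ (if i ∈ s then h s * ∏ j ∈ s, g j else 0) := by
      intro i _
      split_ifs
      · exact mul_nonneg (H.h0 s) (hG s)
      · exact le_rfl
    by_cases hs : s ⊆ free D
    · rw [if_neg (not_not.2 hs)]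
      exact Finset.sum_nonneg hnn
    · rw [if_pos hs]
      rw [Finset.not_subset] at hs
      obtain ⟨i, his, hi⟩ := hs
      have hi' : i ∈ univ.filter (fun i => D i ≠ none) := by
        rw [Finset.mem_filter]
        exact ⟨Finset.mem_univ _, fun h => hi (mem_free.2 h)⟩
      calc h s * ∏ j ∈ s, g j = (if i ∈ s then h s * ∏ j ∈ s, g j else 0) := by rw [if_pos his]
        _ ≤ _ := Finset.single_le_sum hnn hi'
  have h6 : ∑ i with D i ≠ none, ∑ s : Finset (Fin n) with i ∈ s, h s * ∏ j ∈ s, g j ≤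
      ∑ i with D i ≠ none, C4 * g i := Finset.sum_le_sum fun i _ => sum_mem H i
  rw [Finset.mul_sum]
  linarith

theorem red_yT (H : HB p g h z K C4 T0)
    (Q δ : ℝ) (hQ : 0 < Q)
    (hδ : ∀ D : Col n κ, qq p D ≤ Q → C4 * ∑ i with D i ≠ none, g i ≤ δ) (k : κ) :
    ∑ D : Col n κ, nu g D * (red g (yT p h Q) k D) ^ 2 ≤
      δ ^ 2 * Zs κ g h + ∑ D : Col n κ with Q / z < qq p D, (yy h D) ^ 2 * nu g D := by
  have hz0 : 0 < z := by linarith [H.z1]
  have hnu : ∀ D : Col n κ, 0 ≤ nu g D := nu_nonneg' H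
  unfold Zs
  rw [Finset.mul_sum, Finset.sum_filter, ← Finset.sum_add_distrib]
  refine Finset.sum_le_sum fun D _ => ?_
  have hy : 0 ≤ (yy h D) ^ 2 * nu g D := mul_nonneg (sq_nonneg _) (hnu D)
  by_cases hD : D ∈ avoid n k
  · rw [DD.red_eq p g h Q k D hD]
    obtain ⟨hR0, hR1⟩ := RR_le_one H Q D
    by_cases hq : Q / z < qq p D
    · rw [if_pos hq]
      have h1 : (DD.RR p g h Q D) ^ 2 ≤ 1 := by nlinarith
      have h2 : 0 ≤ δ ^ 2 * ((yy h D) ^ 2 * nu g D) := mul_nonneg (sq_nonneg _) hy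
      calc nu g D * (yy h D * DD.RR p g h Q D) ^ 2 =
            ((yy h D) ^ 2 * nu g D) * (DD.RR p g h Q D) ^ 2 := by
            ring
        _ ≤ ((yy h D) ^ 2 * nu g D) * 1 := mul_le_mul_of_nonneg_left h1 hy
        _ ≤ _ := by linarith
    · rw [if_neg hq, add_zero]
      have h3 := RR_le_delta H Q D (not_lt.1 hq)
      have hqQ : qq p D ≤ Q := (not_lt.1 hq).trans (div_le_self hQ.le H.z1.le)
      have h4 := h3.trans (hδ D hqQ)
      have h5 : (DD.RR p g h Q D) ^ 2 ≤ δ ^ 2 := pow_le_pow_left₀ hR0 h4 2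
      calc nu g D * (yy h D * DD.RR p g h Q D) ^ 2 =
            (DD.RR p g h Q D) ^ 2 * ((yy h D) ^ 2 * nu g D) := by
            ring
        _ ≤ δ ^ 2 * ((yy h D) ^ 2 * nu g D) := mul_le_mul_of_nonneg_right h5 hy
  · rw [DD.red_zero p g h Q k D hD]
    have h2 : 0 ≤ δ ^ 2 * ((yy h D) ^ 2 * nu g D) := mul_nonneg (sq_nonneg _) hy
    split_ifs
    · nlinarith
    · nlinarith

end

end Pool.Agent.K7.H60.TL
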