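import Pool.Agent.H256R2.SC.Defs

/-!
Tensorised quadratic forms over general finite alphabets; sums over pairs of assignments.
-/

set_option autoImplicit false
set_option linter.unusedSectionVars false

namespace Pool.Agent.K7.H60.TL

open Finset Pool.Agent.H256R2.SC

theorem sum_consG {A : Type} [Fintype A] {n : ℕ} (F : (Fin (n + 1) → A) → ℝ) :
    ∑ x : Fin (n + 1) → A, F x =
      ∑ c : A, ∑ x : Fin n → A, F (Fin.cons c x : Fin (n + 1) → A) := by
  rw [← (Fin.consEquiv (fun _ : Fin (n + 1) => A)).sum_comp, Fintype.sum_prod_type]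
  rfl

theorem tensor_up {A C : Type} [Fintype A] [Fintype C] {n : ℕ} (w : Fin n → C → ℝ)
    (Ψ : Fin n → A → C → ℝ) (β : Fin n → A → ℝ)
    (hw : ∀ i c, 0 ≤ w i c) (hβ : ∀ i a, 0 ≤ β i a)
    (hloc : ∀ i (Y : A → ℝ),
      ∑ c, w i c * (∑ a, Ψ i a c * Y a) ^ 2 ≤ ∑ a, β i a * (Y a) ^ 2)
    (y : (Fin n → A) → ℝ) :
    ∑ x : Fin n → C, (∏ i, w i (x i)) * (∑ D : Fin n → A, y D * ∏ i, Ψ i (D i) (x i)) ^ 2 ≤
      ∑ D : Fin n → A, (∏ i, β i (D i)) * (y D) ^ 2 := by
  induction n with
  | zero => simp
  | succ n ih =>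
    have h1 : ∀ c : C, ∑ x : Fin n → C, (∏ i : Fin n, w i.succ (x i)) *
        (∑ D : Fin n → A, (∑ a : A, Ψ 0 a c * y (Fin.cons a D : Fin (n + 1) → A)) *
          ∏ i : Fin n, Ψ i.succ (D i) (x i)) ^ 2 ≤
        ∑ D : Fin n → A, (∏ i : Fin n, β i.succ (D i)) *
          (∑ a : A, Ψ 0 a c * y (Fin.cons a D : Fin (n + 1) → A)) ^ 2 := by
      intro c
      exact ih (fun i => w i.succ) (fun i => Ψ i.succ) (fun i => β i.succ)
        (fun i c => hw i.succ c) (fun i c => hβ i.succ c) (fun i Y => hloc i.succ Y) _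
    rw [sum_consG]
    calc _ = ∑ c : C, w 0 c * ∑ x : Fin n → C, (∏ i : Fin n, w i.succ (x i)) *
        (∑ D : Fin n → A, (∑ a : A, Ψ 0 a c * y (Fin.cons a D : Fin (n + 1) → A)) *
          ∏ i : Fin n, Ψ i.succ (D i) (x i)) ^ 2 := by
          apply Finset.sum_congr rfl
          intro c _
          rw [Finset.mul_sum]
          apply Finset.sum_congr rfl
          intro x _
          rw [Fin.prod_univ_succ, sum_consG, Finset.sum_comm]
          simp only [Fin.cons_zero, Fin.cons_succ]
          rw [mul_assoc]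
          congr 3
          congr 1
          funext D
          rw [Finset.sum_mul]
          apply Finset.sum_congr rfl
          intro a _
          rw [Fin.prod_univ_succ]
          simp only [Fin.cons_zero, Fin.cons_succ]
          ring
      _ ≤ ∑ c : C, w 0 c * ∑ D : Fin n → A, (∏ i : Fin n, β i.succ (D i)) *
          (∑ a : A, Ψ 0 a c * y (Fin.cons a D : Fin (n + 1) → A)) ^ 2 := by
          apply Finset.sum_le_sum
          intro c _
          exact mul_le_mul_of_nonneg_left (h1 c) (hw 0 c)
      _ = ∑ D : Fin n → A, (∏ i : Fin n, β i.succ (D i)) * ∑ c : C, w 0 c *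
          (∑ a : A, Ψ 0 a c * y (Fin.cons a D : Fin (n + 1) → A)) ^ 2 := by
          simp only [Finset.mul_sum]
          rw [Finset.sum_comm]
          apply Finset.sum_congr rfl
          intro D _
          apply Finset.sum_congr rfl
          intro c _
          ring
      _ ≤ ∑ D : Fin n → A, (∏ i : Fin n, β i.succ (D i)) * ∑ a : A, β 0 a *
          (y (Fin.cons a D : Fin (n + 1) → A)) ^ 2 := by
          apply Finset.sum_le_sum
          intro D _
          apply mul_le_mul_of_nonneg_left _ (Finset.prod_nonneg (fun i _ => hβ i.succ _))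
          exact hloc 0 (fun a => y (Fin.cons a D : Fin (n + 1) → A))
      _ = _ := by
          rw [sum_consG, Finset.sum_comm]
          apply Finset.sum_congr rfl
          intro D _
          rw [Finset.mul_sum]
          apply Finset.sum_congr rfl
          intro a _
          rw [Fin.prod_univ_succ]
          simp only [Fin.cons_zero, Fin.cons_succ]
          ring

variable {n : ℕ} {κ : Type} [Fintype κ] [DecidableEq κ]

/-- local weights of a pattern: `none` is free, `some a` is fixed to `a` -/
noncomputable def om (g : ℝ) (P : Option (Option κ)) (d : Option κ) : ℝ :=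
  match P with
  | none => nu1 g d
  | some a => if d = a then 1 else 0

/-- the sums over all patterns are at most `Z` -/
def JP (g : Fin n → ℝ) (F : Col n κ → ℝ) (Z : ℝ) : Prop :=
  ∀ P : Fin n → Option (Option κ), ∑ D, (∏ i, om (g i) (P i) (D i)) * F D ≤ Z

/-- first components -/
def fs (x : Fin n → Option κ × Option κ) : Col n κ := fun i => (x i).1

/-- second components -/
def sn (x : Fin n → Option κ × Option κ) : Col n κ := fun i => (x i).2

theorem fs_cons (a : Option κ × Option κ) (D : Fin n → Option κ × Option κ) :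
    fs (Fin.cons a D : Fin (n + 1) → Option κ × Option κ) =
      (Fin.cons a.1 (fs D) : Fin (n + 1) → Option κ) := by
  funext i
  refine Fin.cases ?_ (fun j => ?_) i
  · simp [fs]
  · simp [fs]

theorem sn_cons (a : Option κ × Option κ) (D : Fin n → Option κ × Option κ) :
    sn (Fin.cons a D : Fin (n + 1) → Option κ × Option κ) =
      (Fin.cons a.2 (sn D) : Fin (n + 1) → Option κ) := by
  funext i
  refine Fin.cases ?_ (fun j => ?_) i
  · simp [sn]
  · simp [sn]

theorem JP_free {g : Fin (n + 1) → ℝ} {F : Col (n + 1) κ → ℝ} {Z : ℝ} (h : JP g F Z) :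
    JP (fun i => g i.succ) (fun D : Col n κ => ∑ a : Option κ, nu1 (g 0) a *
      F (Fin.cons a D : Fin (n + 1) → Option κ)) Z := by
  intro P
  have h1 := h (Fin.cons none P : Fin (n + 1) → Option (Option κ))
  refine le_trans (le_of_eq ?_) h1
  rw [sum_consG, Finset.sum_comm]
  apply Finset.sum_congr rfl
  intro D _
  rw [Finset.mul_sum]
  apply Finset.sum_congr rfl
  intro a _
  rw [Fin.prod_univ_succ]
  simp only [Fin.cons_zero, Fin.cons_succ, om]
  ring

theorem JP_fix {g : Fin (n + 1) → ℝ} {F : Col (n + 1) κ → ℝ} {Z : ℝ} (h : JP g F Z)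
    (a : Option κ) :
    JP (fun i => g i.succ) (fun D : Col n κ => F (Fin.cons a D : Fin (n + 1) → Option κ)) Z := by
  intro P
  have h1 := h (Fin.cons (some a) P : Fin (n + 1) → Option (Option κ))
  refine le_trans (le_of_eq ?_) h1
  rw [sum_consG, Finset.sum_comm]
  apply Finset.sum_congr rfl
  intro D _
  rw [Finset.sum_eq_single a]
  · rw [Fin.prod_univ_succ]
    simp only [Fin.cons_zero, Fin.cons_succ, om, if_true]
    ring
  · intro b _ hb
    rw [Fin.prod_univ_succ]
    simp only [Fin.cons_zero, Fin.cons_succ, om, if_neg hb]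
    ring
  · intro hh
    exact absurd (mem_univ _) hh

/-- sums over pairs of assignments with perturbed product weights -/
theorem pair_sum {n : ℕ} (g : Fin n → ℝ) (hg : ∀ i, 0 ≤ g i)
    (e : Fin n → Option κ × Option κ → ℝ)
    (he : ∀ i a, 0 ≤ e i a) (F F' : Col n κ → ℝ)
    {Z Z' : ℝ} (hZ : 0 ≤ Z) (h : JP g F Z) (h' : JP g F' Z')
    (hF : ∀ D, 0 ≤ F D) (hF' : ∀ D, 0 ≤ F' D) :
    ∑ D : Fin n → Option κ × Option κ,
      (∏ i, (nu1 (g i) (D i).1 * nu1 (g i) (D i).2 + e i (D i))) * (F (fs D) * F' (sn D)) ≤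
      (∏ i, (1 + ∑ a, e i a)) * (Z * Z') := by
  induction n with
  | zero =>
    have h1 := h (fun _ => none)
    have h2 := h' (fun _ => none)
    rw [Fintype.sum_subsingleton _ (fun _ => none : Col 0 κ)] at h1 h2
    rw [Fintype.sum_subsingleton _ (fun _ => (none, none) : Fin 0 → Option κ × Option κ)]
    simp only [Finset.univ_eq_empty, Finset.prod_empty, one_mul] at h1 h2 ⊢
    exact mul_le_mul h1 h2 (hF' _) hZ
  | succ n ih =>
    rw [sum_consG, Fin.prod_univ_succ]
    -- split the sum over the first coordinate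
    set β : (Fin n → Option κ × Option κ) → ℝ := fun D =>
      ∏ i : Fin n, (nu1 (g i.succ) (D i).1 * nu1 (g i.succ) (D i).2 + e i.succ (D i)) with hβ
    have e0 : ∀ a : Option κ × Option κ, ∑ D : Fin n → Option κ × Option κ,
        (∏ i, (nu1 (g i) ((Fin.cons a D : Fin (n + 1) → Option κ × Option κ) i).1 *
          nu1 (g i) ((Fin.cons a D : Fin (n + 1) → Option κ × Option κ) i).2 +
          e i ((Fin.cons a D : Fin (n + 1) → Option κ × Option κ) i))) *
          (F (fs (Fin.cons a D : Fin (n + 1) → Option κ × Option κ)) *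
            F' (sn (Fin.cons a D : Fin (n + 1) → Option κ × Option κ))) =
        nu1 (g 0) a.1 * nu1 (g 0) a.2 * ∑ D, β D *
            (F (Fin.cons a.1 (fs D) : Fin (n + 1) → Option κ) *
              F' (Fin.cons a.2 (sn D) : Fin (n + 1) → Option κ)) +
          e 0 a * ∑ D, β D * (F (Fin.cons a.1 (fs D) : Fin (n + 1) → Option κ) *
              F' (Fin.cons a.2 (sn D) : Fin (n + 1) → Option κ)) := by
      intro a
      rw [← add_mul, Finset.mul_sum]
      apply Finset.sum_congr rfl
      intro D _
      rw [Fin.prod_univ_succ, fs_cons, sn_cons]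
      simp only [Fin.cons_zero, Fin.cons_succ, hβ]
      ring
    rw [Finset.sum_congr rfl (fun a _ => e0 a), Finset.sum_add_distrib]
    have nn : ∀ (x : Option κ), 0 ≤ nu1 (g 0) x := by
      intro x
      cases x with
      | none => simp [nu1]
      | some k => simpa [nu1] using hg 0
    have p0 : 0 ≤ ∏ i : Fin n, (1 + ∑ a, e i.succ a) :=
      prod_nonneg fun i _ => by
        have := sum_nonneg (s := univ) fun a _ => he i.succ a
        linarith
    -- the free part
    have f1 : ∑ a : Option κ × Option κ, nu1 (g 0) a.1 * nu1 (g 0) a.2 * ∑ D, β D *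
            (F (Fin.cons a.1 (fs D) : Fin (n + 1) → Option κ) *
              F' (Fin.cons a.2 (sn D) : Fin (n + 1) → Option κ)) ≤
        (∏ i : Fin n, (1 + ∑ a, e i.succ a)) * (Z * Z') := by
      have f2 := ih (fun i => g i.succ) (fun i => hg _) (fun i => e i.succ)
        (fun i a => he i.succ a)
        (fun D : Col n κ => ∑ a : Option κ, nu1 (g 0) a *
          F (Fin.cons a D : Fin (n + 1) → Option κ))
        (fun D : Col n κ => ∑ a : Option κ, nu1 (g 0) a *
          F' (Fin.cons a D : Fin (n + 1) → Option κ)) (JP_free h) (JP_free h')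
        (fun D => sum_nonneg fun a _ => mul_nonneg (nn a) (hF _))
        (fun D => sum_nonneg fun a _ => mul_nonneg (nn a) (hF' _))
      refine le_trans (le_of_eq ?_) f2
      rw [Finset.sum_congr rfl (fun a _ => Finset.mul_sum _ _ _), Finset.sum_comm]
      apply Finset.sum_congr rfl
      intro D _
      rw [Finset.sum_mul_sum, Finset.mul_sum, Fintype.sum_prod_type]
      apply Finset.sum_congr rfl
      intro a _
      rw [Finset.mul_sum]
      apply Finset.sum_congr rfl
      intro b _
      simp only [hβ]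
      ring
    -- the fixed part
    have f3 : ∀ a : Option κ × Option κ, ∑ D, β D *
            (F (Fin.cons a.1 (fs D) : Fin (n + 1) → Option κ) *
              F' (Fin.cons a.2 (sn D) : Fin (n + 1) → Option κ)) ≤
        (∏ i : Fin n, (1 + ∑ a, e i.succ a)) * (Z * Z') := by
      intro a
      exact ih (fun i => g i.succ) (fun i => hg _) (fun i => e i.succ)
        (fun i a => he i.succ a)
        (fun D : Col n κ => F (Fin.cons a.1 D : Fin (n + 1) → Option κ))
        (fun D : Col n κ => F' (Fin.cons a.2 D : Fin (n + 1) → Option κ))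
        (JP_fix h a.1) (JP_fix h' a.2) (fun D => hF _) (fun D => hF' _)
    calc _ ≤ (∏ i : Fin n, (1 + ∑ a, e i.succ a)) * (Z * Z') +
          ∑ a : Option κ × Option κ, e 0 a * ((∏ i : Fin n, (1 + ∑ a, e i.succ a)) * (Z * Z')) := by
          apply add_le_add f1
          apply Finset.sum_le_sum
          intro a _
          exact mul_le_mul_of_nonneg_left (f3 a) (he 0 a)
      _ = _ := by
          rw [← Finset.sum_mul]
          ring

end Pool.Agent.K7.H60.TL
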