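import Pool.Agent.K7.H60.TL.MB
import Pool.Agent.K7.H60.TL.TU

/-!
The squares of the truncated coherent coefficients satisfy the pattern bound `JP`.
-/

set_option autoImplicit false
set_option linter.unusedSectionVars false

namespace Pool.Agent.K7.H60.TL

open Finset Pool.Agent.H256R2.SC

variable {n : ℕ} {κ : Type} [Fintype κ] [DecidableEq κ]

theorem qq_er_le {p : Fin n → ℝ} (hp : ∀ i, 1 ≤ p i) (k : κ) (D : Col n κ) :
    qq p (er k D) ≤ qq p D := by
  unfold qq
  apply prod_le_prod
  · intro i _
    exact zero_le_one.trans (one_le_nu1 (hp i) _)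
  · intro i _
    unfold er
    split_ifs with h
    · simpa [nu1] using one_le_nu1 (hp i) (D i)
    · exact le_rfl

/-- indicator of the truncation -/
noncomputable def chi (p : Fin n → ℝ) (Q : ℝ) (D : Col n κ) : ℝ := if qq p D ≤ Q then 1 else 0

theorem chi_nonneg (p : Fin n → ℝ) (Q : ℝ) (D : Col n κ) : 0 ≤ chi p Q D := by
  unfold chi
  split_ifs <;> norm_num

theorem chi_er {p : Fin n → ℝ} (hp : ∀ i, 1 ≤ p i) (Q : ℝ) (k : κ) (D : Col n κ) :
    chi p Q D ≤ chi p Q (er k D) := by
  unfold chi
  by_cases h : qq p D ≤ Q
  · rw [if_pos h, if_pos ((qq_er_le hp k D).trans h)]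
  · rw [if_neg h]
    split_ifs <;> norm_num

/-- changing the weight of one colour -/
theorem step_le {p : Fin n → ℝ} (hp : ∀ i, 1 ≤ p i) (Q : ℝ) (W : κ → Finset (Fin n) → ℝ)
    (hW : ∀ k s, 0 ≤ W k s) (k : κ) (hk : W k ∅ = 1) (v : Finset (Fin n) → ℝ)
    (hv : ∀ s, 0 ≤ v s) (hc : ∑ s : Finset (Fin n), v s ≤ 1) :
    ∑ D : Col n κ, chi p Q D * ∏ l, (Function.update W k v) l (fib D l) ≤
      ∑ D : Col n κ, chi p Q D * ∏ l, W l (fib D l) := by
  classical
  set rest : Col n κ → ℝ := fun D => ∏ l ∈ univ.erase k, W l (fib D l) with hrest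
  have hrest0 : ∀ D, 0 ≤ rest D := fun D => Finset.prod_nonneg fun l _ => hW _ _
  have hrest_er : ∀ D : Col n κ, rest (er k D) = rest D := by
    intro D
    simp only [hrest]
    refine Finset.prod_congr rfl fun l hl => ?_
    rw [E_fib_er_ne (Finset.ne_of_mem_erase hl)]
  have hsplit : ∀ D : Col n κ, ∏ l, W l (fib D l) = W k (fib D k) * rest D := by
    intro D
    rw [← Finset.mul_prod_erase univ _ (mem_univ k)]
  have hsplit' : ∀ D : Col n κ, ∏ l, (Function.update W k v) l (fib D l) =
      v (fib D k) * rest D := by
    intro D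
    rw [← Finset.mul_prod_erase univ _ (mem_univ k)]
    congr 1
    · simp
    · simp only [hrest]
      refine Finset.prod_congr rfl fun l hl => ?_
      rw [Function.update_of_ne (Finset.ne_of_mem_erase hl)]
  set N0 : Finset (Col n κ) := univ.filter (fun D => fib D k = ∅) with hN0
  set F : Col n κ × Finset (Fin n) → ℝ := fun q => (chi p Q q.1 * rest q.1) * v q.2 with hF
  have hF0 : ∀ q, 0 ≤ F q := fun q =>
    mul_nonneg (mul_nonneg (chi_nonneg _ _ _) (hrest0 _)) (hv _)
  calc ∑ D : Col n κ, chi p Q D * ∏ l, (Function.update W k v) l (fib D l)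
      ≤ ∑ D : Col n κ, F (er k D, fib D k) := by
        refine Finset.sum_le_sum fun D _ => ?_
        simp only [hF]
        rw [hsplit', hrest_er]
        have h1 := mul_le_mul_of_nonneg_right (chi_er hp Q k D)
          (mul_nonneg (hv (fib D k)) (hrest0 D))
        refine h1.trans (le_of_eq ?_)
        ring
    _ = ∑ q ∈ univ.image (fun D : Col n κ => (er k D, fib D k)), F q := by
        rw [Finset.sum_image]
        intro D _ D' _ h
        exact E_inj k h
    _ ≤ ∑ q ∈ N0 ×ˢ (univ : Finset (Finset (Fin n))), F q := by
        refine Finset.sum_le_sum_of_subset_of_nonneg ?_ fun q _ _ => hF0 q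
        intro q hq
        obtain ⟨D, _, rfl⟩ := mem_image.mp hq
        rw [mem_product]
        refine ⟨?_, mem_univ _⟩
        rw [hN0, mem_filter]
        exact ⟨mem_univ _, E_fib_er_self k D⟩
    _ = (∑ D ∈ N0, chi p Q D * rest D) * ∑ s : Finset (Fin n), v s := by
        rw [Finset.sum_product, Finset.sum_mul]
        refine Finset.sum_congr rfl fun D _ => ?_
        rw [Finset.mul_sum]
    _ ≤ (∑ D ∈ N0, chi p Q D * rest D) * 1 := by
        apply mul_le_mul_of_nonneg_left hc
        exact sum_nonneg fun D _ => mul_nonneg (chi_nonneg _ _ _) (hrest0 _)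
    _ = ∑ D ∈ N0, chi p Q D * ∏ l, W l (fib D l) := by
        rw [mul_one]
        refine Finset.sum_congr rfl fun D hD => ?_
        rw [hsplit, (mem_filter.mp hD).2, hk, one_mul]
    _ ≤ _ := Finset.sum_le_sum_of_subset_of_nonneg (Finset.subset_univ _) fun D _ _ =>
        mul_nonneg (chi_nonneg _ _ _) (Finset.prod_nonneg fun l _ => hW _ _)

theorem al_sq {h : Finset (Fin n) → ℝ} {s : Finset (Fin n)} (hs : s.Nonempty) :
    (al h s) ^ 2 = (h s) ^ 2 := by
  unfold al
  rw [if_neg hs.ne_empty, neg_sq, mul_pow, ← pow_mul, mul_comm s.card 2, pow_mul]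
  norm_num

section
variable {p g : Fin n → ℝ} {h : Finset (Fin n) → ℝ} {z K C4 T0 : ℝ}

theorem yT_sq (Q : ℝ) (D : Col n κ) :
    (yT p h Q D) ^ 2 = chi p Q D * ∏ k, (al h (fib D k)) ^ 2 := by
  unfold yT chi yy
  split_ifs
  · rw [one_mul, prod_pow]
  · simp

/-- supersets of a fixed nonempty set -/
theorem sum_super (H : HB p g h z K C4 T0) (T : Finset (Fin n)) :
    ∑ s : Finset (Fin n) with T ⊆ s, (h s) ^ 2 * ∏ i ∈ s \ T, g i ≤ 1 := by
  have hG : ∀ s : Finset (Fin n), 0 ≤ ∏ j ∈ s, g j := fun s =>
    Finset.prod_nonneg fun j _ => (H.g0 j).le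
  have h1 : ∑ s : Finset (Fin n) with T ⊆ s, (h s) ^ 2 * ∏ i ∈ s \ T, g i =
      ∑ t : Finset (Fin n) with Disjoint t T, (h (T ∪ t)) ^ 2 * ∏ i ∈ t, g i := by
    refine Finset.sum_bij' (fun s _ => s \ T) (fun t _ => T ∪ t) ?_ ?_ ?_ ?_ ?_
    · intro s _
      rw [mem_filter]
      exact ⟨mem_univ _, sdiff_disjoint⟩
    · intro t _
      rw [mem_filter]
      exact ⟨mem_univ _, subset_union_left⟩
    · intro s hs
      rw [mem_filter] at hs
      exact union_sdiff_of_subset hs.2
    · intro t ht
      rw [mem_filter] at ht
      rw [union_sdiff_left]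
      exact ht.2.sdiff_eq_left
    · intro s hs
      rw [mem_filter] at hs
      rw [union_sdiff_of_subset hs.2]
  rw [h1]
  have h2 : ∀ t : Finset (Fin n), C4 * ((h (T ∪ t)) ^ 2 * ∏ i ∈ t, g i) ≤
      h (T ∪ t) * ∏ i ∈ t, g i := by
    intro t
    have h3 := mul_le_mul_of_nonneg_right (H.hC (T ∪ t))
      (mul_nonneg (H.h0 (T ∪ t)) (hG t))
    nlinarith
  have h3 : C4 * ∑ t : Finset (Fin n) with Disjoint t T, (h (T ∪ t)) ^ 2 * ∏ i ∈ t, g i ≤ C4 * 1 := by
    rw [mul_one, Finset.mul_sum]
    exact (sum_le_sum fun t _ => h2 t).trans (H.conc T)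
  have h4 : 0 < C4 := lt_of_lt_of_le one_pos H.c4
  exact le_of_mul_le_mul_left h3 h4

open Classical in
theorem JP_yT (H : HB p g h z K C4 T0) (Q : ℝ) :
    JP g (fun D : Col n κ => (yT p h Q D) ^ 2) (ZT κ p g h Q) := by
  intro P
  have hp1 : ∀ i, 1 ≤ p i := fun i => (H.p1 i).le
  have hG : ∀ s : Finset (Fin n), 0 ≤ ∏ j ∈ s, g j := fun s =>
    Finset.prod_nonneg fun j _ => (H.g0 j).le
  set p' : Fin n → ℝ := fun i => if P i = none then g i else 1 with hp'
  have hp'0 : ∀ i, 0 ≤ p' i := by
    intro i
    simp only [hp']
    split_ifs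
    · exact (H.g0 i).le
    · exact zero_le_one
  set cond : κ → Finset (Fin n) → Prop := fun k s =>
    (∀ i ∈ s, P i = none ∨ P i = some (some k)) ∧ (∀ i, P i = some (some k) → i ∈ s) with hcond
  set Ω : κ → Finset (Fin n) → ℝ := fun k s => if cond k s then ∏ i ∈ s, p' i else 0 with hΩ
  have hΩ0 : ∀ k s, 0 ≤ Ω k s := by
    intro k s
    simp only [hΩ]
    split_ifs
    · exact prod_nonneg fun i _ => hp'0 i
    · exact le_rfl
  -- weights by colours
  have hom : ∀ D : Col n κ, ∏ i, om (g i) (P i) (D i) ≤ ∏ k, Ω k (fib D k) := by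
    intro D
    by_cases hD : ∀ i a, P i = some a → D i = a
    · have h1 : ∏ i, om (g i) (P i) (D i) = qq p' D := by
        unfold qq
        apply prod_congr rfl
        intro i _
        cases hPi : P i with
        | none =>
          simp only [om, hp', hPi, if_true]
        | some a =>
          have h2 := hD i a hPi
          simp only [om, hp', hPi, h2, if_true]
          cases a <;> simp [nu1]
      rw [h1, qq_eq_prod_fib]
      apply le_of_eq
      apply prod_congr rfl
      intro k _
      simp only [hΩ]
      rw [if_pos]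
      refine ⟨?_, ?_⟩
      · intro i hi
        have hi' := mem_fib.1 hi
        cases hPi : P i with
        | none => exact Or.inl rfl
        | some a =>
          right
          rw [← hD i a hPi, hi']
      · intro i hi
        exact mem_fib.2 (hD i _ hi)
    · push Not at hD
      obtain ⟨i, a, h1, h2⟩ := hD
      have h3 : ∏ i, om (g i) (P i) (D i) = 0 := by
        apply prod_eq_zero (mem_univ i)
        rw [h1]
        simp only [om, if_neg h2]
      rw [h3]
      exact prod_nonneg fun k _ => hΩ0 _ _
  set A : κ → Finset (Fin n) → ℝ := fun k s => Ω k s * (al h s) ^ 2 with hA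
  set B : Finset (Fin n) → ℝ := fun s => (∏ i ∈ s, g i) * (al h s) ^ 2 with hB
  have hA0 : ∀ k s, 0 ≤ A k s := fun k s => mul_nonneg (hΩ0 k s) (sq_nonneg _)
  have hB0 : ∀ s, 0 ≤ B s := fun s => mul_nonneg (hG s) (sq_nonneg _)
  have hBe : B ∅ = 1 := by simp [hB, al]
  set W : Finset κ → κ → Finset (Fin n) → ℝ := fun τ k => if k ∈ τ then A k else B with hW
  have hW0 : ∀ τ k s, 0 ≤ W τ k s := by
    intro τ k s
    simp only [hW]
    split_ifs
    · exact hA0 k s
    · exact hB0 s
  have hstep : ∀ τ : Finset κ, ∑ D : Col n κ, chi p Q D * ∏ l, W τ l (fib D l) ≤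
      ∑ D : Col n κ, chi p Q D * ∏ l, W ∅ l (fib D l) := by
    intro τ
    induction τ using Finset.induction_on with
    | empty => exact le_rfl
    | insert k τ hk ih =>
      refine le_trans ?_ ih
      have hupd : W (insert k τ) = Function.update (W τ) k (A k) := by
        funext l
        by_cases hl : l = k
        · subst hl
          simp [hW]
        · rw [Function.update_of_ne hl]
          simp only [hW, mem_insert, hl, false_or]
      have hWk : W τ k = B := by simp only [hW, if_neg hk]
      by_cases hex : ∃ i, P i = some (some k)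
      · rw [hupd]
        apply step_le hp1 Q (W τ) (hW0 τ) k (by rw [hWk, hBe]) (A k) (hA0 k)
        set T : Finset (Fin n) := univ.filter (fun i => P i = some (some k)) with hT
        have hTne : T.Nonempty := by
          obtain ⟨i, hi⟩ := hex
          exact ⟨i, by rw [hT, mem_filter]; exact ⟨mem_univ _, hi⟩⟩
        refine le_trans ?_ (sum_super H T)
        rw [sum_filter]
        apply sum_le_sum
        intro s _
        by_cases hTs : T ⊆ s
        · rw [if_pos hTs]
          simp only [hA, hΩ]
          rw [al_sq (hTne.mono hTs)]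
          split_ifs with hc
          · have h1 : ∏ i ∈ s, p' i = ∏ i ∈ s \ T, g i := by
              rw [← Finset.prod_sdiff hTs]
              have h2 : ∏ i ∈ T, p' i = 1 := by
                apply prod_eq_one
                intro i hi
                rw [hT, mem_filter] at hi
                simp only [hp', hi.2]
                rw [if_neg (by simp)]
              rw [h2, mul_one]
              apply prod_congr rfl
              intro i hi
              rw [mem_sdiff] at hi
              have h3 : P i = none := by
                rcases hc.1 i hi.1 with h3 | h3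
                · exact h3
                · exfalso
                  apply hi.2
                  rw [hT, mem_filter]
                  exact ⟨mem_univ _, h3⟩
              simp only [hp', h3, if_true]
            rw [h1, mul_comm]
          · rw [zero_mul]
            exact mul_nonneg (sq_nonneg _) (hG _)
        · rw [if_neg hTs]
          simp only [hA, hΩ]
          rw [if_neg, zero_mul]
          intro hc
          apply hTs
          intro i hi
          rw [hT, mem_filter] at hi
          exact hc.2 i hi.2
      · rw [hupd]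
        apply sum_le_sum
        intro D _
        apply mul_le_mul_of_nonneg_left _ (chi_nonneg _ _ _)
        apply prod_le_prod
        · intro l _
          by_cases hl : l = k
          · subst hl
            simp only [Function.update_self]
            exact hA0 _ _
          · rw [Function.update_of_ne hl]
            exact hW0 _ _ _
        · intro l _
          by_cases hl : l = k
          · subst hl
            simp only [Function.update_self]
            rw [hWk]
            simp only [hA, hB]
            apply mul_le_mul_of_nonneg_right _ (sq_nonneg _)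
            simp only [hΩ]
            split_ifs with hc
            · apply le_of_eq
              apply prod_congr rfl
              intro i hi
              have h3 : P i = none := by
                rcases hc.1 i hi with h3 | h3
                · exact h3
                · exact absurd ⟨i, h3⟩ hex
              simp only [hp', h3, if_true]
            · exact hG _
          · rw [Function.update_of_ne hl]
  calc ∑ D, (∏ i, om (g i) (P i) (D i)) * (yT p h Q D) ^ 2
      ≤ ∑ D : Col n κ, chi p Q D * ∏ l, W univ l (fib D l) := by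
        apply sum_le_sum
        intro D _
        rw [yT_sq]
        have h1 : ∏ l, W univ l (fib D l) = (∏ l, Ω l (fib D l)) * ∏ l, (al h (fib D l)) ^ 2 := by
          rw [← prod_mul_distrib]
          apply prod_congr rfl
          intro l _
          simp only [hW, mem_univ, if_true, hA]
        rw [h1]
        have h2 := mul_le_mul_of_nonneg_right (hom D)
          (mul_nonneg (chi_nonneg p Q D) (prod_nonneg fun k (_ : k ∈ univ) =>
            sq_nonneg (al h (fib D k))))
        refine h2.trans (le_of_eq ?_)
        ring
    _ ≤ ∑ D : Col n κ, chi p Q D * ∏ l, W ∅ l (fib D l) := hstep univ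
    _ = ZT κ p g h Q := by
        unfold ZT
        apply sum_congr rfl
        intro D _
        rw [yT_sq]
        have h1 : ∏ l, W ∅ l (fib D l) = nu g D * ∏ l, (al h (fib D l)) ^ 2 := by
          have h2 : nu g D = ∏ k, ∏ i ∈ fib D k, g i := qq_eq_prod_fib g D
          rw [h2, ← prod_mul_distrib]
          apply prod_congr rfl
          intro l _
          simp only [hW, notMem_empty, if_false, hB]
        rw [h1]
        ring

end

end Pool.Agent.K7.H60.TL
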