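import Pool.Agent.H256R2.SC.B
import Pool.Agent.K7.H60.TL.TU

/-!
The local laws of pairs of colours and their quadratic forms.
-/

set_option autoImplicit false
set_option linter.unusedSectionVars false

namespace Pool.Agent.K7.H60.TL

open Finset Pool.Agent.H256R2.SC

open scoped Classical

variable {κ : Type} [Fintype κ] [DecidableEq κ]

/-- the local law of the pair of colours; `m k l` means that the two colours coincide -/
noncomputable def mu2 (g : ℝ) (m : κ → κ → Prop) (c : Option κ × Option κ) : ℝ :=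
  match c with
  | (none, none) => 1 - 2 * (Fintype.card κ : ℝ) * g +
      g * ((univ.filter (fun q : κ × κ => m q.1 q.2)).card : ℝ)
  | (some k, none) => if ∃ l, m k l then 0 else g
  | (none, some l) => if ∃ k, m k l then 0 else g
  | (some k, some l) => if m k l then g else 0

/-- partial matchings -/
def Mt (m : κ → κ → Prop) : Prop :=
  (∀ k l l', m k l → m k l' → l = l') ∧ (∀ k k' l, m k l → m k' l → k = k')

theorem mu2_nonneg {g : ℝ} {m : κ → κ → Prop} (hg : 0 ≤ g)
    (h : 2 * (Fintype.card κ : ℝ) * g ≤ 1) (c : Option κ × Option κ) : 0 ≤ mu2 g m c := by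
  obtain ⟨a, b⟩ := c
  cases a with
  | none =>
    cases b with
    | none =>
      simp only [mu2]
      have : 0 ≤ g * ((univ.filter (fun q : κ × κ => m q.1 q.2)).card : ℝ) := by positivity
      linarith
    | some l =>
      simp only [mu2]
      split_ifs <;> linarith
  | some k =>
    cases b with
    | none =>
      simp only [mu2]
      split_ifs <;> linarith
    | some l =>
      simp only [mu2]
      split_ifs <;> linarith

theorem mu2_row (g : ℝ) {m : κ → κ → Prop} (hm : Mt m) (k : κ) :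
    ∑ c', mu2 g m (some k, c') = g := by
  rw [Fintype.sum_option]
  simp only [mu2]
  by_cases h : ∃ l, m k l
  · obtain ⟨l, hl⟩ := h
    rw [if_pos ⟨l, hl⟩, sum_eq_single l]
    · rw [if_pos hl, zero_add]
    · intro b _ hb
      rw [if_neg]
      intro hb'
      exact hb (hm.1 k b l hb' hl)
    · intro hh
      exact absurd (mem_univ _) hh
  · rw [if_neg h, sum_eq_zero, add_zero]
    intro l _
    rw [if_neg]
    intro hl
    exact h ⟨l, hl⟩

theorem mu2_col (g : ℝ) {m : κ → κ → Prop} (hm : Mt m) (l : κ) :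
    ∑ c, mu2 g m (c, some l) = g := by
  rw [Fintype.sum_option]
  simp only [mu2]
  by_cases h : ∃ k, m k l
  · obtain ⟨k, hk⟩ := h
    rw [if_pos ⟨k, hk⟩, sum_eq_single k]
    · rw [if_pos hk, zero_add]
    · intro b _ hb
      rw [if_neg]
      intro hb'
      exact hb (hm.2 b k l hb' hk)
    · intro hh
      exact absurd (mem_univ _) hh
  · rw [if_neg h, sum_eq_zero, add_zero]
    intro k _
    rw [if_neg]
    intro hk
    exact h ⟨k, hk⟩

theorem mu2_total (g : ℝ) {m : κ → κ → Prop} (hm : Mt m) : ∑ c, mu2 g m c = 1 := by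
  rw [Fintype.sum_prod_type, Fintype.sum_option]
  simp only [mu2_row g hm]
  rw [Fintype.sum_option]
  have h1 : ∀ l : κ, mu2 g m (none, some l) = g - ∑ k, (if m k l then g else 0) := by
    intro l
    have h2 := mu2_col g hm l
    rw [Fintype.sum_option] at h2
    have h3 : ∑ k, mu2 g m (some k, some l) = ∑ k, (if m k l then g else 0) := by
      simp only [mu2]
    rw [h3] at h2
    linarith
  simp only [h1]
  rw [sum_sub_distrib]
  have h4 : ∑ l : κ, ∑ k : κ, (if m k l then g else 0) =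
      g * ((univ.filter (fun q : κ × κ => m q.1 q.2)).card : ℝ) := by
    rw [sum_comm, ← Fintype.sum_prod_type' (f := fun k l => if m k l then g else 0),
      ← sum_filter, sum_const, nsmul_eq_mul, mul_comm]
  rw [h4]
  simp only [mu2, sum_const, card_univ, nsmul_eq_mul]
  ring

theorem abs_psi1_le {g : ℝ} (hg : 0 ≤ g) (hg1 : g ≤ 1) (a c : Option κ) : |psi1 g a c| ≤ 1 := by
  cases a with
  | none => simp [psi1]
  | some k =>
    simp only [psi1]
    split_ifs
    · rw [abs_le]; constructor <;> linarith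
    · rw [abs_le]; constructor <;> linarith

theorem abs_psi1_none {g : ℝ} (hg : 0 ≤ g) (a : Option κ) : |psi1 g a none| = nu1 g a := by
  cases a with
  | none => simp [psi1, nu1]
  | some k => simp [psi1, nu1, abs_of_nonneg hg]

theorem sum_nu1' (g : ℝ) : ∑ a : Option κ, nu1 g a = 1 + (Fintype.card κ : ℝ) * g := by
  rw [Fintype.sum_option]
  simp [nu1]

theorem sum_abs_psi1 {g : ℝ} (hg : 0 ≤ g) (c : Option κ) :
    ∑ a, |psi1 g a c| ≤ 2 + (Fintype.card κ : ℝ) * g := by
  cases c with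
  | none =>
    simp only [abs_psi1_none hg, sum_nu1']
    linarith
  | some k =>
    rw [Fintype.sum_option]
    have h1 : ∀ l : κ, |psi1 g (some l) (some k)| ≤ (if l = k then 1 else 0) + g := by
      intro l
      simp only [psi1]
      by_cases h : k = l
      · subst h
        simp only [if_true]
        rw [abs_le]; constructor <;> linarith
      · have h' : ¬ (some k = some l) := fun e => h (Option.some.inj e)
        rw [if_neg h', if_neg (fun e => h e.symm)]
        rw [abs_le]; constructor <;> linarith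
    have h2 := sum_le_sum (s := univ) fun l _ => h1 l
    rw [sum_add_distrib, sum_ite_eq' univ k, if_pos (mem_univ _), sum_const, card_univ,
      nsmul_eq_mul] at h2
    simp only [psi1, abs_one] at h2 ⊢
    linarith

/-- weighted Cauchy-Schwarz inequality -/
theorem wcs {ι : Type} (s : Finset ι) (ψ Y : ι → ℝ) :
    (∑ a ∈ s, ψ a * Y a) ^ 2 ≤ (∑ a ∈ s, |ψ a|) * ∑ a ∈ s, |ψ a| * Y a ^ 2 := by
  apply sum_sq_le_sum_mul_sum_of_sq_le_mul
  · intro i _
    exact abs_nonneg _
  · intro i _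
    positivity
  · intro i _
    refine le_of_eq ?_
    have : |ψ i| * (|ψ i| * Y i ^ 2) = |ψ i| ^ 2 * Y i ^ 2 := by ring
    rw [this, sq_abs]
    ring

/-- the local quadratic form at a general prime -/
theorem local_bad {g : ℝ} {m : κ → κ → Prop} (hm : Mt m) (hg : 0 ≤ g)
    (h : 10 * (Fintype.card κ : ℝ) * g ≤ 1) (hg1 : g ≤ 1) (Y : Option κ × Option κ → ℝ) :
    ∑ c, mu2 g m c * (∑ a, psi1 g a.1 c.1 * psi1 g a.2 c.2 * Y a) ^ 2 ≤
      ∑ a : Option κ × Option κ,
        (nu1 g a.1 * nu1 g a.2 + 13 * (Fintype.card κ : ℝ) * g) * (Y a) ^ 2 := by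
  set u : ℝ := (Fintype.card κ : ℝ) with hu
  have hu0 : 0 ≤ u := Nat.cast_nonneg _
  have hug : 0 ≤ u * g := mul_nonneg hu0 hg
  have hμ0 : ∀ c, 0 ≤ mu2 g m c := mu2_nonneg hg (by linarith)
  set S : ℝ := ∑ a : Option κ × Option κ, (Y a) ^ 2 with hS
  have hS0 : 0 ≤ S := sum_nonneg fun a _ => sq_nonneg _
  set N : ℝ := ∑ a : Option κ × Option κ, nu1 g a.1 * nu1 g a.2 * (Y a) ^ 2 with hN
  have hn : ∀ a : Option κ, 0 ≤ nu1 g a := by
    intro a
    rw [← abs_psi1_none hg]
    exact abs_nonneg _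
  have hn1 : ∀ a : Option κ, nu1 g a ≤ 1 := by
    intro a
    cases a with
    | none => simp [nu1]
    | some k => simpa [nu1] using hg1
  have hNS : N ≤ S := by
    apply sum_le_sum
    intro a _
    have h1 : nu1 g a.1 * nu1 g a.2 ≤ 1 := by
      have := mul_le_mul (hn1 a.1) (hn1 a.2) (hn a.2) zero_le_one
      simpa using this
    nlinarith [sq_nonneg (Y a)]
  have hN0 : 0 ≤ N := sum_nonneg fun a _ =>
    mul_nonneg (mul_nonneg (hn _) (hn _)) (sq_nonneg _)
  -- one term
  have hT : ∀ c : Option κ × Option κ, (∑ a, psi1 g a.1 c.1 * psi1 g a.2 c.2 * Y a) ^ 2 ≤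
      5 * S := by
    intro c
    have h1 := wcs (univ : Finset (Option κ × Option κ))
      (fun a => psi1 g a.1 c.1 * psi1 g a.2 c.2) Y
    refine h1.trans ?_
    have h2 : ∑ a : Option κ × Option κ, |psi1 g a.1 c.1 * psi1 g a.2 c.2| ≤ 5 := by
      rw [Fintype.sum_prod_type]
      simp only [abs_mul, ← Finset.mul_sum]
      rw [← Finset.sum_mul]
      have q1 := sum_abs_psi1 (κ := κ) hg c.1
      have q2 := sum_abs_psi1 (κ := κ) hg c.2
      rw [← hu] at q1 q2
      have q3 : 0 ≤ ∑ a, |psi1 g a c.2| := sum_nonneg fun a _ => abs_nonneg _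
      calc (∑ a, |psi1 g a c.1|) * ∑ a, |psi1 g a c.2| ≤ (2 + u * g) * (2 + u * g) :=
            mul_le_mul q1 q2 q3 (by positivity)
        _ ≤ 5 := by nlinarith
    have h3 : ∑ a : Option κ × Option κ, |psi1 g a.1 c.1 * psi1 g a.2 c.2| * Y a ^ 2 ≤ S := by
      apply sum_le_sum
      intro a _
      rw [abs_mul]
      have q1 := abs_psi1_le hg hg1 a.1 c.1
      have q2 := abs_psi1_le hg hg1 a.2 c.2
      have q3 : |psi1 g a.1 c.1| * |psi1 g a.2 c.2| ≤ 1 := by
        have := mul_le_mul q1 q2 (abs_nonneg _) zero_le_one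
        simpa using this
      nlinarith [sq_nonneg (Y a)]
    have h4 : 0 ≤ ∑ a : Option κ × Option κ, |psi1 g a.1 c.1 * psi1 g a.2 c.2| * Y a ^ 2 :=
      sum_nonneg fun a _ => by positivity
    exact mul_le_mul h2 h3 h4 (by norm_num)
  have hT0 : (∑ a : Option κ × Option κ, psi1 g a.1 none * psi1 g a.2 none * Y a) ^ 2 ≤
      (1 + 3 * (u * g)) * N := by
    have h1 := wcs (univ : Finset (Option κ × Option κ))
      (fun a => psi1 g a.1 none * psi1 g a.2 none) Y
    refine h1.trans ?_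
    simp only [abs_mul, abs_psi1_none hg]
    have h2 : ∑ a : Option κ × Option κ, nu1 g a.1 * nu1 g a.2 = (1 + u * g) * (1 + u * g) := by
      rw [Fintype.sum_prod_type]
      simp only [← Finset.mul_sum]
      rw [← Finset.sum_mul, sum_nu1']
    rw [h2]
    apply mul_le_mul_of_nonneg_right _ hN0
    nlinarith
  -- the sum
  have hsplit : ∑ c, mu2 g m c * (∑ a, psi1 g a.1 c.1 * psi1 g a.2 c.2 * Y a) ^ 2 ≤
      mu2 g m (none, none) * ((1 + 3 * (u * g)) * N) + (1 - mu2 g m (none, none)) * (5 * S) := by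
    rw [← Finset.add_sum_erase univ _ (mem_univ ((none, none) : Option κ × Option κ))]
    apply add_le_add
    · exact mul_le_mul_of_nonneg_left hT0 (hμ0 _)
    · have h5 : 1 - mu2 g m (none, none) = ∑ c ∈ univ.erase (none, none), mu2 g m c := by
        rw [← mu2_total g hm, ← Finset.add_sum_erase univ _
          (mem_univ ((none, none) : Option κ × Option κ))]
        ring
      rw [h5, Finset.sum_mul]
      apply sum_le_sum
      intro c _
      exact mul_le_mul_of_nonneg_left (hT c) (hμ0 _)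
  have hμ1 : mu2 g m (none, none) ≤ 1 := by
    rw [← mu2_total g hm]
    exact single_le_sum (fun c _ => hμ0 c) (mem_univ _)
  have hμ2 : 1 - mu2 g m (none, none) ≤ 2 * (u * g) := by
    simp only [mu2]
    have : 0 ≤ g * ((univ.filter (fun q : κ × κ => m q.1 q.2)).card : ℝ) := by positivity
    rw [← hu]
    linarith
  have hR : ∑ a : Option κ × Option κ, (nu1 g a.1 * nu1 g a.2 + 13 * u * g) * (Y a) ^ 2 =
      N + 13 * (u * g) * S := by
    simp only [add_mul, sum_add_distrib, hN, hS, Finset.mul_sum]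
    congr 1
    refine sum_congr rfl fun a _ => ?_
    ring
  rw [hR]
  refine hsplit.trans ?_
  have g1 : mu2 g m (none, none) * ((1 + 3 * (u * g)) * N) ≤ 1 * ((1 + 3 * (u * g)) * N) :=
    mul_le_mul_of_nonneg_right hμ1 (by positivity)
  have g2 : (1 - mu2 g m (none, none)) * (5 * S) ≤ 2 * (u * g) * (5 * S) :=
    mul_le_mul_of_nonneg_right hμ2 (by positivity)
  have g3 : 3 * (u * g) * N ≤ 3 * (u * g) * S := mul_le_mul_of_nonneg_left hNS (by positivity)
  linarith

/-- extra weights at a good prime -/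
noncomputable def eg (κ : Type) [Fintype κ] (g : ℝ) (a : Option κ × Option κ) : ℝ :=
  match a with
  | (none, none) => 12 * ((Fintype.card κ : ℝ) * g) ^ 2
  | (some _, none) => 9 * (Fintype.card κ : ℝ) * g ^ 2
  | (none, some _) => 9 * (Fintype.card κ : ℝ) * g ^ 2
  | (some _, some _) => g ^ 2

theorem eg_nonneg (g : ℝ) (a : Option κ × Option κ) : 0 ≤ eg κ g a := by
  obtain ⟨a, b⟩ := a
  cases a <;> cases b <;> simp only [eg] <;> positivity

theorem sum_eg (g : ℝ) : ∑ a : Option κ × Option κ, eg κ g a =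
    31 * ((Fintype.card κ : ℝ) * g) ^ 2 := by
  rw [Fintype.sum_prod_type, Fintype.sum_option]
  simp only [Fintype.sum_option, eg, sum_const, card_univ, nsmul_eq_mul]
  ring

theorem prod_upper {g : ℝ} (hg : 0 ≤ g) (hw : (Fintype.card κ : ℝ) * g ≤ 1)
    (Y : Option κ × Option κ → ℝ) :
    ∑ c : Option κ × Option κ, wt g c.1 * wt g c.2 *
      (∑ a : Option κ × Option κ, psi1 g a.1 c.1 * psi1 g a.2 c.2 * Y a) ^ 2 ≤
      ∑ a : Option κ × Option κ, nu1 g a.1 * nu1 g a.2 * (Y a) ^ 2 := by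
  have hwt : ∀ c : Option κ, 0 ≤ wt g c := by
    intro c
    cases c with
    | none => simp only [wt]; linarith
    | some k => simpa only [wt] using hg
  have hn : ∀ a : Option κ, 0 ≤ nu1 g a := by
    intro a
    rw [← abs_psi1_none hg]
    exact abs_nonneg _
  rw [Fintype.sum_prod_type, Fintype.sum_prod_type]
  have h1 : ∀ c c' : Option κ, ∑ a : Option κ × Option κ, psi1 g a.1 c * psi1 g a.2 c' * Y a =
      ∑ b : Option κ, psi1 g b c' * (∑ a : Option κ, psi1 g a c * Y (a, b)) := by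
    intro c c'
    rw [Fintype.sum_prod_type, sum_comm]
    apply sum_congr rfl
    intro b _
    rw [mul_sum]
    apply sum_congr rfl
    intro a _
    ring
  simp only [h1]
  calc ∑ c : Option κ, ∑ c' : Option κ, wt g c * wt g c' *
        (∑ b : Option κ, psi1 g b c' * (∑ a : Option κ, psi1 g a c * Y (a, b))) ^ 2
      = ∑ c : Option κ, wt g c * ∑ c' : Option κ, wt g c' *
        (∑ b : Option κ, psi1 g b c' * (∑ a : Option κ, psi1 g a c * Y (a, b))) ^ 2 := by
        apply sum_congr rfl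
        intro c _
        rw [mul_sum]
        apply sum_congr rfl
        intro c' _
        ring
    _ ≤ ∑ c : Option κ, wt g c * ∑ b : Option κ, nu1 g b *
        (∑ a : Option κ, psi1 g a c * Y (a, b)) ^ 2 := by
        apply sum_le_sum
        intro c _
        exact mul_le_mul_of_nonneg_left (local_upper g hg _) (hwt c)
    _ = ∑ b : Option κ, nu1 g b * ∑ c : Option κ, wt g c *
        (∑ a : Option κ, psi1 g a c * Y (a, b)) ^ 2 := by
        simp only [mul_sum]
        rw [sum_comm]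
        apply sum_congr rfl
        intro b _
        apply sum_congr rfl
        intro c _
        ring
    _ ≤ ∑ b : Option κ, nu1 g b * ∑ a : Option κ, nu1 g a * (Y (a, b)) ^ 2 := by
        apply sum_le_sum
        intro b _
        exact mul_le_mul_of_nonneg_left (local_upper g hg _) (hn b)
    _ = _ := by
        simp only [mul_sum]
        rw [sum_comm]
        apply sum_congr rfl
        intro a _
        apply sum_congr rfl
        intro b _
        ring

theorem single_upper {g : ℝ} (hg : 0 ≤ g) (hw : 10 * (Fintype.card κ : ℝ) * g ≤ 1)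
    (Y : Option κ → Option κ → ℝ) :
    ∑ k : κ, (∑ a : Option κ, psi1 g a (some k) * ∑ b : Option κ, psi1 g b none * Y a b) ^ 2 ≤
      6 * (Fintype.card κ : ℝ) * (Y none none) ^ 2 + 8 * ∑ k : κ, (Y (some k) none) ^ 2 +
      6 * ((Fintype.card κ : ℝ) * g) ^ 2 * ∑ l : κ, (Y none (some l)) ^ 2 +
      8 * (Fintype.card κ : ℝ) * g ^ 2 * ∑ k : κ, ∑ l : κ, (Y (some k) (some l)) ^ 2 := by
  set u : ℝ := (Fintype.card κ : ℝ) with hu
  have hu0 : 0 ≤ u := Nat.cast_nonneg _
  have hug : 0 ≤ u * g := mul_nonneg hu0 hg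
  set A : Option κ → ℝ := fun a => ∑ b : Option κ, psi1 g b none * Y a b with hA
  have hA1 : ∀ a, A a = Y a none - g * ∑ l : κ, Y a (some l) := fun a => inner_none g (Y a)
  have hAq : ∀ a, A a ^ 2 ≤ 2 * (Y a none) ^ 2 + 2 * u * g ^ 2 * ∑ l : κ, (Y a (some l)) ^ 2 := by
    intro a
    rw [hA1]
    have h1 : (∑ l : κ, Y a (some l)) ^ 2 ≤ u * ∑ l : κ, (Y a (some l)) ^ 2 := by
      have := sq_sum_le_card_mul_sum_sq (s := (univ : Finset κ)) (f := fun l => Y a (some l))
      rwa [card_univ] at this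
    have h2 : g ^ 2 * (∑ l : κ, Y a (some l)) ^ 2 ≤ g ^ 2 * (u * ∑ l : κ, (Y a (some l)) ^ 2) :=
      mul_le_mul_of_nonneg_left h1 (sq_nonneg g)
    nlinarith [sq_nonneg (Y a none + g * ∑ l : κ, Y a (some l))]
  have hT : ∀ k : κ, (∑ a : Option κ, psi1 g a (some k) * A a) ^ 2 ≤
      3 * (A none) ^ 2 + 3 * (A (some k)) ^ 2 + 3 * (g ^ 2 * (u * ∑ l : κ, (A (some l)) ^ 2)) := by
    intro k
    rw [inner_some]
    have h1 : (∑ l : κ, A (some l)) ^ 2 ≤ u * ∑ l : κ, (A (some l)) ^ 2 := by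
      have := sq_sum_le_card_mul_sum_sq (s := (univ : Finset κ)) (f := fun l => A (some l))
      rwa [card_univ] at this
    have h2 : g ^ 2 * (∑ l : κ, A (some l)) ^ 2 ≤ g ^ 2 * (u * ∑ l : κ, (A (some l)) ^ 2) :=
      mul_le_mul_of_nonneg_left h1 (sq_nonneg g)
    set B := g * ∑ l : κ, A (some l) with hB
    have h3 : B ^ 2 ≤ g ^ 2 * (u * ∑ l : κ, (A (some l)) ^ 2) := by
      rw [hB, mul_pow]
      exact h2
    nlinarith [sq_nonneg (A none + B), sq_nonneg (A none - A (some k)),
      sq_nonneg (B + A (some k))]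
  have hsum : ∑ k : κ, (∑ a : Option κ, psi1 g a (some k) * A a) ^ 2 ≤
      3 * u * (A none) ^ 2 + 4 * ∑ k : κ, (A (some k)) ^ 2 := by
    refine (sum_le_sum fun k _ => hT k).trans ?_
    rw [sum_add_distrib, sum_add_distrib, sum_const, sum_const, card_univ, nsmul_eq_mul,
      nsmul_eq_mul, ← mul_sum, ← hu]
    have h4 : 0 ≤ ∑ k : κ, (A (some k)) ^ 2 := sum_nonneg fun k _ => sq_nonneg _
    have h5 : 3 * (u * g) ^ 2 ≤ 1 := by nlinarith
    nlinarith [mul_le_mul_of_nonneg_right h5 h4]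
  refine hsum.trans ?_
  have h6 := mul_le_mul_of_nonneg_left (hAq none) (by positivity : 0 ≤ 3 * u)
  have h7 : 4 * ∑ k : κ, (A (some k)) ^ 2 ≤ 4 * ∑ k : κ, (2 * (Y (some k) none) ^ 2 +
      2 * u * g ^ 2 * ∑ l : κ, (Y (some k) (some l)) ^ 2) :=
    mul_le_mul_of_nonneg_left (sum_le_sum fun k _ => hAq (some k)) (by norm_num)
  rw [sum_add_distrib, ← mul_sum, ← mul_sum] at h7
  nlinarith

/-- the local quadratic form at a good prime -/
theorem local_good {g : ℝ} {m : κ → κ → Prop} (hm : ∀ k l, ¬ m k l) (hg : 0 ≤ g)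
    (h : 10 * (Fintype.card κ : ℝ) * g ≤ 1) (Y : Option κ × Option κ → ℝ) :
    ∑ c, mu2 g m c * (∑ a, psi1 g a.1 c.1 * psi1 g a.2 c.2 * Y a) ^ 2 ≤
      ∑ a : Option κ × Option κ, (nu1 g a.1 * nu1 g a.2 + eg κ g a) * (Y a) ^ 2 := by
  set u : ℝ := (Fintype.card κ : ℝ) with hu
  have hu0 : 0 ≤ u := Nat.cast_nonneg _
  have hug : 0 ≤ u * g := mul_nonneg hu0 hg
  set T : Option κ × Option κ → ℝ := fun c =>
    (∑ a : Option κ × Option κ, psi1 g a.1 c.1 * psi1 g a.2 c.2 * Y a) ^ 2 with hT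
  have hT0 : ∀ c, 0 ≤ T c := fun c => sq_nonneg _
  have h1 : ∑ c, mu2 g m c * T c ≤ ∑ c : Option κ × Option κ, wt g c.1 * wt g c.2 * T c +
      u * g ^ 2 * (∑ k : κ, T (some k, none) + ∑ l : κ, T (none, some l)) := by
    have e1 : ∑ c, mu2 g m c * T c = (1 - 2 * u * g) * T (none, none) +
        ∑ l : κ, g * T (none, some l) + ∑ k : κ, g * T (some k, none) := by
      rw [Fintype.sum_prod_type, Fintype.sum_option]
      simp only [Fintype.sum_option, mu2]
      have q1 : (univ.filter (fun q : κ × κ => m q.1 q.2)) = ∅ :=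
        filter_eq_empty_iff.2 fun q _ => hm _ _
      rw [q1]
      simp only [card_empty, Nat.cast_zero, mul_zero, add_zero]
      simp only [hm, exists_false, if_false, zero_mul, sum_const_zero, add_zero]
      rfl
    have e2 : ∑ c : Option κ × Option κ, wt g c.1 * wt g c.2 * T c =
        (1 - u * g) * (1 - u * g) * T (none, none) + ∑ l : κ, (1 - u * g) * g * T (none, some l) +
        ∑ k : κ, (g * (1 - u * g) * T (some k, none) + ∑ l : κ, g * g * T (some k, some l)) := by
      rw [Fintype.sum_prod_type, Fintype.sum_option]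
      simp only [Fintype.sum_option, wt]
      rfl
    rw [e1, e2, sum_add_distrib, ← mul_sum, ← mul_sum, ← mul_sum, ← mul_sum]
    have e3 : 0 ≤ ∑ k : κ, ∑ l : κ, g * g * T (some k, some l) :=
      sum_nonneg fun k _ => sum_nonneg fun l _ => mul_nonneg (mul_nonneg hg hg) (hT0 _)
    have e4 := hT0 (none, none)
    have e5 : 0 ≤ (u * g) ^ 2 * T (none, none) := by positivity
    nlinarith
  refine h1.trans ?_
  have h2 := prod_upper hg (by linarith : u * g ≤ 1) Y
  have h3 : ∑ k : κ, T (some k, none) ≤ 6 * u * (Y (none, none)) ^ 2 +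
      8 * ∑ k : κ, (Y (some k, none)) ^ 2 +
      6 * (u * g) ^ 2 * ∑ l : κ, (Y (none, some l)) ^ 2 +
      8 * u * g ^ 2 * ∑ k : κ, ∑ l : κ, (Y (some k, some l)) ^ 2 := by
    refine le_trans (le_of_eq ?_) (single_upper hg h (fun a b => Y (a, b)))
    apply sum_congr rfl
    intro k _
    simp only [hT]
    congr 1
    rw [Fintype.sum_prod_type]
    apply sum_congr rfl
    intro a _
    rw [mul_sum]
    apply sum_congr rfl
    intro b _
    ring
  have h4 : ∑ l : κ, T (none, some l) ≤ 6 * u * (Y (none, none)) ^ 2 +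
      8 * ∑ l : κ, (Y (none, some l)) ^ 2 +
      6 * (u * g) ^ 2 * ∑ k : κ, (Y (some k, none)) ^ 2 +
      8 * u * g ^ 2 * ∑ l : κ, ∑ k : κ, (Y (some k, some l)) ^ 2 := by
    refine le_trans (le_of_eq ?_) (single_upper hg h (fun a b => Y (b, a)))
    apply sum_congr rfl
    intro l _
    simp only [hT]
    congr 1
    rw [Fintype.sum_prod_type, sum_comm]
    apply sum_congr rfl
    intro a _
    rw [mul_sum]
    apply sum_congr rfl
    intro b _
    ring
  rw [sum_comm] at h4
  have hR : ∑ a : Option κ × Option κ, (nu1 g a.1 * nu1 g a.2 + eg κ g a) * (Y a) ^ 2 =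
      ∑ a : Option κ × Option κ, nu1 g a.1 * nu1 g a.2 * (Y a) ^ 2 +
      (12 * (u * g) ^ 2 * (Y (none, none)) ^ 2 +
        9 * u * g ^ 2 * ∑ l : κ, (Y (none, some l)) ^ 2 +
        (9 * u * g ^ 2 * ∑ k : κ, (Y (some k, none)) ^ 2 +
        g ^ 2 * ∑ k : κ, ∑ l : κ, (Y (some k, some l)) ^ 2)) := by
    simp only [add_mul, sum_add_distrib]
    congr 1
    rw [Fintype.sum_prod_type, Fintype.sum_option]
    simp only [Fintype.sum_option, eg, sum_add_distrib, ← mul_sum]
    rfl
  rw [hR]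
  set S1 := ∑ k : κ, (Y (some k, none)) ^ 2 with hS1
  set S2 := ∑ l : κ, (Y (none, some l)) ^ 2 with hS2
  set S3 := ∑ k : κ, ∑ l : κ, (Y (some k, some l)) ^ 2 with hS3
  have s1 : 0 ≤ S1 := sum_nonneg fun k _ => sq_nonneg _
  have s2 : 0 ≤ S2 := sum_nonneg fun k _ => sq_nonneg _
  have s3 : 0 ≤ S3 := sum_nonneg fun k _ => sum_nonneg fun l _ => sq_nonneg _
  have h5 := mul_le_mul_of_nonneg_left (add_le_add h3 h4) (by positivity : 0 ≤ u * g ^ 2)
  have h6 : (u * g) ^ 2 ≤ 1 / 100 := by nlinarith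
  have h7 : u * g ^ 2 * (6 * (u * g) ^ 2 * S2 + 6 * (u * g) ^ 2 * S1) ≤
      u * g ^ 2 * (S2 + S1) := by
    apply mul_le_mul_of_nonneg_left _ (by positivity)
    nlinarith [mul_le_mul_of_nonneg_right h6 s1, mul_le_mul_of_nonneg_right h6 s2]
  have h8 : u * g ^ 2 * (16 * u * g ^ 2 * S3) ≤ g ^ 2 * S3 := by
    have : u * g ^ 2 * (16 * u * g ^ 2 * S3) = 16 * (u * g) ^ 2 * (g ^ 2 * S3) := by ring
    rw [this]
    have h9 : 0 ≤ g ^ 2 * S3 := by positivity
    nlinarith
  nlinarith

end Pool.Agent.K7.H60.TL
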