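import Pool.Agent.K7.H60.TL.EF

/-!
The covering sieve with a profile supported on large sizes: moments in the model.
-/

set_option autoImplicit false
set_option linter.unusedSectionVars false

namespace Pool.Agent.K7.H60.TL

open Finset Pool.Agent.H256R2.SC

variable {n : ℕ} {κ : Type} [Fintype κ] [DecidableEq κ]

/-- number of `J`-subsets of the set of hits -/
noncomputable def Bn (J : ℕ) (k : κ) (x : Col n κ) : ℝ := ((hits k x).card.choose J : ℝ)

theorem Bn_nonneg (J : ℕ) (k : κ) (x : Col n κ) : 0 ≤ Bn J k x := Nat.cast_nonneg _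

theorem Bn_le (J : ℕ) (t : ℝ) (ht : 0 < t) (k : κ) (x : Col n κ) :
    Bn J k x ≤ (1 / t) ^ J * ∏ i, (if x i = some k then 1 + t else 1) := by
  have hprod : ∏ i, (if x i = some k then 1 + t else 1) = (1 + t) ^ (hits k x).card := by
    rw [prod_ite, prod_const_one, mul_one, prod_const]
    rfl
  unfold Bn
  rw [hprod]
  set N := (hits k x).card
  have h2 : t ^ J * (N.choose J : ℝ) ≤ (1 + t) ^ N := by
    rcases le_or_gt J N with hJN | hJN
    · rw [add_comm 1 t, add_pow]
      have h3 := single_le_sum (f := fun m => t ^ m * 1 ^ (N - m) *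
        (N.choose m : ℝ)) (s := range (N + 1)) (fun m _ => by positivity)
        (mem_range.2 (by omega : J < N + 1))
      simpa using h3
    · rw [Nat.choose_eq_zero_of_lt hJN, Nat.cast_zero, mul_zero]
      positivity
  have h4 : (1 / t) ^ J * t ^ J = 1 := by
    rw [← mul_pow, one_div_mul_cancel ht.ne', one_pow]
  calc (N.choose J : ℝ) = (1 / t) ^ J * (t ^ J * (N.choose J : ℝ)) := by
        rw [← mul_assoc, h4, one_mul]
    _ ≤ (1 / t) ^ J * (1 + t) ^ N := by gcongr

section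
variable {p g : Fin n → ℝ} {h : Finset (Fin n) → ℝ} {z K C4 T0 : ℝ}

/-- truncated mass -/
noncomputable def ZT (κ : Type) [Fintype κ] [DecidableEq κ] (p g : Fin n → ℝ)
    (h : Finset (Fin n) → ℝ) (Q : ℝ) : ℝ := ∑ D : Col n κ, nu g D * (yT p h Q D) ^ 2

theorem ZT_le (H : HB p g h z K C4 T0) (Q : ℝ) : ZT κ p g h Q ≤ Zs κ g h := by
  unfold ZT Zs
  refine sum_le_sum fun D _ => ?_
  unfold yT
  split_ifs
  · rw [mul_comm]
  · have := mul_nonneg (sq_nonneg (yy h D)) (nu_nonneg H.g0 D)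
    simpa using this

/-- upper bound of the second moment -/
theorem EV_le (H : HB p g h z K C4 T0) (Q : ℝ) (hug : ∀ i, (Fintype.card κ : ℝ) * g i ≤ 1) :
    EE g (fun x => (VV g (yT p h Q : Col n κ → ℝ) x) ^ 2) ≤ ZT κ p g h Q := by
  have hw : ∀ i (c : Option κ), 0 ≤ wt (g i) c := fun i c => wt_nonneg (H.g0 i).le (hug i) c
  have h1 := tensor_upper (κ := κ) g (fun _ _ => 1) (fun i c => nu1 (g i) c) hw
    (fun _ _ => zero_le_one)
    (by
      intro i c
      cases c with
      | none => simp [nu1]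
      | some k => simpa [nu1] using (H.g0 i).le)
    (fun i Y => by simpa using local_upper (g i) (H.g0 i).le Y) (yT p h Q)
  simp only [prod_const_one, one_mul] at h1
  exact h1

/-- lower bound of the second moment -/
theorem second_lower (H : HB p g h z K C4 T0) (Q δ T : ℝ)
    (hug : ∀ i, (Fintype.card κ : ℝ) * g i ≤ 1)
    (hδ : ∀ D : Col n κ, qq p D ≤ Q → C4 * ∑ i with D i ≠ none, g i ≤ δ)
    (hu : (Fintype.card κ : ℝ) * δ ≤ 1) (hδ0 : 0 ≤ δ) (hQ0 : 0 < Q)
    (hT : ∑ D : Col n κ with Q / z < qq p D, (yy h D) ^ 2 * nu g D ≤ T) :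
    (1 - (Fintype.card κ : ℝ) * δ) * Zs κ g h - T ≤
      EE g (fun x => (VV g (yT p h Q : Col n κ → ℝ) x) ^ 2) := by
  have hw : ∀ i (c : Option κ), 0 ≤ wt (g i) c := fun i c => wt_nonneg (H.g0 i).le (hug i) c
  have h1 := tensor_lower (κ := κ) g
    (fun i c => nu1 (g i) c * nu1 (1 - (Fintype.card κ : ℝ) * g i) c) hw
    (by
      intro i c
      cases c with
      | none => simp [nu1]
      | some k =>
        simp only [nu1]
        exact mul_nonneg (H.g0 i).le (by linarith [hug i]))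
    (fun i Y => local_lower (g i) (H.g0 i).le Y) (yT p h Q)
  refine le_trans ?_ h1
  set u : ℝ := (Fintype.card κ : ℝ) with hudef
  have hu0 : 0 ≤ u := Nat.cast_nonneg _
  have h2 : ∀ D : Col n κ, (if qq p D ≤ Q then (1 - u * δ) * ((yy h D) ^ 2 * nu g D) else 0) ≤
      (∏ i, nu1 (g i) (D i) * nu1 (1 - u * g i) (D i)) * (yT p h Q D) ^ 2 := by
    intro D
    unfold yT
    split_ifs with hD
    · rw [Finset.prod_mul_distrib]
      have e1 : ∏ i, nu1 (1 - u * g i) (D i) = ∏ i ∈ supp D, (1 - u * g i) := prod_nu1 _ D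
      rw [e1]
      have e2 : 1 - u * δ ≤ ∏ i ∈ supp D, (1 - u * g i) := by
        refine le_trans ?_ (prod_ge_one_sub_sum (supp D) (fun i => u * g i)
          (fun i => mul_nonneg hu0 (H.g0 i).le) hug)
        rw [← Finset.mul_sum]
        have e3 := hδ D hD
        have e4 : ∑ i ∈ supp D, g i ≤ δ := by
          have e5 : 0 ≤ ∑ i with D i ≠ none, g i := sum_nonneg fun i _ => (H.g0 i).le
          have e6 : ∑ i ∈ supp D, g i = ∑ i with D i ≠ none, g i := rfl
          rw [e6]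
          nlinarith [H.c4]
        have e5 := mul_le_mul_of_nonneg_left e4 hu0
        linarith
      have e6 : 0 ≤ (yy h D) ^ 2 * nu g D := mul_nonneg (sq_nonneg _) (nu_nonneg H.g0 D)
      have e7 : ∏ i, nu1 (g i) (D i) = nu g D := rfl
      rw [e7]
      nlinarith [mul_le_mul_of_nonneg_left e2 e6]
    · simp
  refine le_trans ?_ (Finset.sum_le_sum (fun D _ => h2 D))
  rw [← Finset.sum_filter, ← Finset.mul_sum]
  have h3 : Zs κ g h = ∑ D : Col n κ with qq p D ≤ Q, (yy h D) ^ 2 * nu g D +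
      ∑ D : Col n κ with ¬ qq p D ≤ Q, (yy h D) ^ 2 * nu g D := by
    unfold Zs
    rw [Finset.sum_filter_add_sum_filter_not]
  have h4 : ∑ D : Col n κ with ¬ qq p D ≤ Q, (yy h D) ^ 2 * nu g D ≤
      ∑ D : Col n κ with Q / z < qq p D, (yy h D) ^ 2 * nu g D := by
    apply Finset.sum_le_sum_of_subset_of_nonneg
    · intro D hD
      rw [Finset.mem_filter] at hD ⊢
      refine ⟨hD.1, lt_of_le_of_lt ?_ (not_le.mp hD.2)⟩
      exact div_le_self hQ0.le H.z1.le
    · intro D _ _
      exact mul_nonneg (sq_nonneg _) (nu_nonneg H.g0 D)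
  have h5 := Zs_ge_one (κ := κ) H
  have h6 : 0 ≤ ∑ D : Col n κ with ¬ qq p D ≤ Q, (yy h D) ^ 2 * nu g D :=
    sum_nonneg fun D _ => mul_nonneg (sq_nonneg _) (nu_nonneg H.g0 D)
  have h7 : 0 ≤ u * δ := mul_nonneg hu0 hδ0
  nlinarith

/-- exponential moments of the hits of one colour -/
theorem mom_upper (H : HB p g h z K C4 T0) (Q t : ℝ) (ht : 0 < t)
    (htg : ∀ i, 3 * t * g i ≤ 1) (hug : ∀ i, (Fintype.card κ : ℝ) * g i ≤ 1) (k : κ) :
    EE g (fun x => (∏ i, (if x i = some k then 1 + t else 1)) *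
      (VV g (yT p h Q : Col n κ → ℝ) x) ^ 2) ≤
      Real.exp ((2 + 6 * t) * ∑ i, g i) * Zs κ g h := by
  have hw : ∀ i (c : Option κ), 0 ≤ wt (g i) c := fun i c => wt_nonneg (H.g0 i).le (hug i) c
  refine le_trans ?_ (weighted_sum H t ht.le k)
  have hbet : ∀ i (c : Option κ), 0 ≤ bet (g i) t k c := by
    intro i c
    have := (H.g0 i).le
    cases c with
    | none =>
      simp only [bet]
      positivity
    | some l =>
      simp only [bet]
      split_ifs
      · positivity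
      · exact this
  have h4 := tensor_upper (κ := κ) g (fun _ c => if c = some k then 1 + t else 1)
    (fun i c => bet (g i) t k c) hw
    (by intro i c; split_ifs <;> linarith) hbet
    (fun i Y => local_wt (g i) t (H.g0 i).le ht.le (htg i) k Y) (yT p h Q)
  refine h4.trans ?_
  apply Finset.sum_le_sum
  intro D _
  apply mul_le_mul_of_nonneg_left
  · unfold yT
    split_ifs
    · exact le_rfl
    · simpa using sq_nonneg (yy h D)
  · exact Finset.prod_nonneg fun i _ => hbet i _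

/-- upper bound of the sieve majorant part -/
theorem second_upper (H : HB p g h z K C4 T0) (Q δ t T : ℝ) (J : ℕ) (hJ : Even J) (ht : 0 < t)
    (htg : ∀ i, 3 * t * g i ≤ 1)
    (hug : ∀ i, (Fintype.card κ : ℝ) * g i ≤ 1) (hQ0 : 0 < Q)
    (hδ : ∀ D : Col n κ, qq p D ≤ Q → C4 * ∑ i with D i ≠ none, g i ≤ δ)
    (hT : ∑ D : Col n κ with Q / z < qq p D, (yy h D) ^ 2 * nu g D ≤ T) (k : κ) :
    EE g (fun x => (VV g (yT p h Q : Col n κ → ℝ) x) ^ 2 * SS J k x) ≤
      δ ^ 2 * Zs κ g h + T + (1 / t) ^ J * (Real.exp ((2 + 6 * t) * ∑ i, g i) * Zs κ g h) := by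
  have hw : ∀ i (c : Option κ), 0 ≤ wt (g i) c := fun i c => wt_nonneg (H.g0 i).le (hug i) c
  have h1 : EE g (fun x => (VV g (yT p h Q : Col n κ → ℝ) x) ^ 2 * SS J k x) ≤
      EE g (fun x => (if ∀ i, x i ≠ some k then 1 else 0) *
        (VV g (yT p h Q : Col n κ → ℝ) x) ^ 2 +
        (1 / t) ^ J * ((∏ i, (if x i = some k then 1 + t else 1)) *
          (VV g (yT p h Q : Col n κ → ℝ) x) ^ 2)) := by
    apply EE_mono hw
    intro x
    have := mul_le_mul_of_nonneg_left (SS_upper J hJ t ht k x)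
      (sq_nonneg (VV g (yT p h Q : Col n κ → ℝ) x))
    refine this.trans (le_of_eq ?_)
    ring
  refine h1.trans ?_
  rw [EE_add, EE_smul]
  have h2 : EE g (fun x => (if ∀ i, x i ≠ some k then (1:ℝ) else 0) *
      (VV g (yT p h Q : Col n κ → ℝ) x) ^ 2) ≤ δ ^ 2 * Zs κ g h + T := by
    refine (rough_bound g (fun i => (H.g0 i).le) hw _ k).trans ?_
    refine (red_yT H Q δ hQ0 hδ k).trans ?_
    linarith
  have h3 := mom_upper H Q t ht htg hug k
  have h5 : (0:ℝ) ≤ (1 / t) ^ J := by positivity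
  have h6 := mul_le_mul_of_nonneg_left h3 h5
  linarith

/-- many hits are rare -/
theorem bn_upper (H : HB p g h z K C4 T0) (Q t : ℝ) (J : ℕ) (ht : 0 < t)
    (htg : ∀ i, 3 * t * g i ≤ 1) (hug : ∀ i, (Fintype.card κ : ℝ) * g i ≤ 1) (k : κ) :
    EE g (fun x => (VV g (yT p h Q : Col n κ → ℝ) x) ^ 2 * Bn J k x) ≤
      (1 / t) ^ J * (Real.exp ((2 + 6 * t) * ∑ i, g i) * Zs κ g h) := by
  have hw : ∀ i (c : Option κ), 0 ≤ wt (g i) c := fun i c => wt_nonneg (H.g0 i).le (hug i) c
  have h1 : EE g (fun x => (VV g (yT p h Q : Col n κ → ℝ) x) ^ 2 * Bn J k x) ≤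
      EE g (fun x => (1 / t) ^ J * ((∏ i, (if x i = some k then 1 + t else 1)) *
          (VV g (yT p h Q : Col n κ → ℝ) x) ^ 2)) := by
    apply EE_mono hw
    intro x
    have := mul_le_mul_of_nonneg_left (Bn_le J t ht k x)
      (sq_nonneg (VV g (yT p h Q : Col n κ → ℝ) x))
    refine this.trans (le_of_eq ?_)
    ring
  refine h1.trans ?_
  rw [EE_smul]
  exact mul_le_mul_of_nonneg_left (mom_upper H Q t ht htg hug k) (by positivity)

end

end Pool.Agent.K7.H60.TL
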