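import Pool.Agent.K7.H60.TL.JPf
import Pool.Agent.K7.H60.TL.LQ

/-!
The pair correlation of the weights in the model.
-/

set_option autoImplicit false
set_option linter.unusedSectionVars false

namespace Pool.Agent.K7.H60.TL

open Finset Pool.Agent.H256R2.SC

open scoped Classical

variable {n : ℕ} {κ : Type} [Fintype κ] [DecidableEq κ]

/-- expectation in the pair model -/
noncomputable def E2 (μ : Fin n → Option κ × Option κ → ℝ) (F : Col n κ → Col n κ → ℝ) : ℝ :=
  ∑ x : Fin n → Option κ × Option κ, (∏ i, μ i (x i)) * F (fs x) (sn x)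

theorem sum_pairs (F : Col n κ → Col n κ → ℝ) :
    ∑ D : Fin n → Option κ × Option κ, F (fs D) (sn D) = ∑ D : Col n κ, ∑ D' : Col n κ, F D D' := by
  rw [← Fintype.sum_prod_type' (f := F)]
  exact Fintype.sum_equiv (Equiv.arrowProdEquivProdArrow (Fin n) (fun _ => Option κ)
    (fun _ => Option κ)) _ _ (fun D => rfl)

section
variable {p g : Fin n → ℝ} {h : Finset (Fin n) → ℝ} {z K C4 T0 : ℝ}

/-- extra weights -/
noncomputable def ex (κ : Type) [Fintype κ] (g : Fin n → ℝ) (bad : Finset (Fin n)) (i : Fin n)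
    (a : Option κ × Option κ) : ℝ :=
  if i ∈ bad then 13 * (Fintype.card κ : ℝ) * g i else eg κ (g i) a

theorem pair_bound (H : HB p g h z K C4 T0) (Q : ℝ) (m : Fin n → κ → κ → Prop)
    (hm : ∀ i, Mt (m i)) (h10 : ∀ i, 10 * (Fintype.card κ : ℝ) * g i ≤ 1) (hg1 : ∀ i, g i ≤ 1)
    (bad : Finset (Fin n)) (hgood : ∀ i, i ∉ bad → ∀ k l, ¬ m i k l) :
    E2 (fun i => mu2 (g i) (m i)) (fun x x' => (VV g (yT p h Q : Col n κ → ℝ) x) ^ 2 *
      (VV g (yT p h Q : Col n κ → ℝ) x') ^ 2) ≤
    Real.exp (31 * (Fintype.card κ : ℝ) ^ 2 * ∑ i, (g i) ^ 2 +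
      13 * (Fintype.card κ : ℝ) * ((Fintype.card κ : ℝ) + 1) ^ 2 * ∑ i ∈ bad, g i) *
      (ZT κ p g h Q * ZT κ p g h Q) := by
  set u : ℝ := (Fintype.card κ : ℝ) with hu
  have hu0 : 0 ≤ u := Nat.cast_nonneg _
  have hg0 : ∀ i, 0 ≤ g i := fun i => (H.g0 i).le
  have hex0 : ∀ i (a : Option κ × Option κ), 0 ≤ ex κ g bad i a := by
    intro i a
    unfold ex
    split_ifs
    · have := hg0 i
      positivity
    · exact eg_nonneg _ _
  have hn : ∀ i (a : Option κ), 0 ≤ nu1 (g i) a := by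
    intro i a
    rw [← abs_psi1_none (hg0 i)]
    exact abs_nonneg _
  set β : Fin n → Option κ × Option κ → ℝ := fun i a =>
    nu1 (g i) a.1 * nu1 (g i) a.2 + ex κ g bad i a with hβ
  have hβ0 : ∀ i a, 0 ≤ β i a := fun i a =>
    add_nonneg (mul_nonneg (hn _ _) (hn _ _)) (hex0 i a)
  have hμ0 : ∀ i c, 0 ≤ mu2 (g i) (m i) c := fun i c =>
    mu2_nonneg (hg0 i) (by
      have h1 := h10 i
      have h2 : 0 ≤ u * g i := mul_nonneg hu0 (hg0 i)
      rw [← hu]
      linarith) c
  have h1 := tensor_up (fun i => mu2 (g i) (m i))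
    (fun i (a c : Option κ × Option κ) => psi1 (g i) a.1 c.1 * psi1 (g i) a.2 c.2) β hμ0 hβ0
    (by
      intro i Y
      by_cases hi : i ∈ bad
      · have h2 := local_bad (hm i) (hg0 i) (h10 i) (hg1 i) Y
        simp only [hβ, ex, if_pos hi]
        exact h2
      · have h2 := local_good (hgood i hi) (hg0 i) (h10 i) Y
        simp only [hβ, ex, if_neg hi]
        exact h2)
    (fun D => yT p h Q (fs D) * yT p h Q (sn D))
  have h2 : ∀ x : Fin n → Option κ × Option κ,
      (∑ D : Fin n → Option κ × Option κ, yT p h Q (fs D) * yT p h Q (sn D) *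
        ∏ i, psi1 (g i) (D i).1 (x i).1 * psi1 (g i) (D i).2 (x i).2) =
      VV g (yT p h Q : Col n κ → ℝ) (fs x) * VV g (yT p h Q : Col n κ → ℝ) (sn x) := by
    intro x
    unfold VV
    rw [sum_mul_sum, ← sum_pairs (fun D D' => yT p h Q D * psi g D (fs x) *
      (yT p h Q D' * psi g D' (sn x)))]
    apply sum_congr rfl
    intro D _
    rw [prod_mul_distrib]
    unfold psi fs sn
    ring
  have h3 : E2 (fun i => mu2 (g i) (m i)) (fun x x' => (VV g (yT p h Q : Col n κ → ℝ) x) ^ 2 *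
      (VV g (yT p h Q : Col n κ → ℝ) x') ^ 2) ≤
      ∑ D : Fin n → Option κ × Option κ, (∏ i, β i (D i)) *
        (yT p h Q (fs D) * yT p h Q (sn D)) ^ 2 := by
    refine le_trans (le_of_eq ?_) h1
    unfold E2
    apply sum_congr rfl
    intro x _
    rw [h2 x]
    ring
  refine h3.trans ?_
  have hZ0 : 0 ≤ ZT κ p g h Q :=
    sum_nonneg fun D _ => mul_nonneg (nu_nonneg H.g0 D) (sq_nonneg _)
  have h4 := pair_sum g hg0 (ex κ g bad) hex0 (fun D => (yT p h Q D) ^ 2)
    (fun D => (yT p h Q D) ^ 2) hZ0 (JP_yT H Q) (JP_yT H Q) (fun D => sq_nonneg _)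
    (fun D => sq_nonneg _)
  have h5 : ∑ D : Fin n → Option κ × Option κ, (∏ i, β i (D i)) *
        (yT p h Q (fs D) * yT p h Q (sn D)) ^ 2 ≤
      (∏ i, (1 + ∑ a, ex κ g bad i a)) * (ZT κ p g h Q * ZT κ p g h Q) := by
    refine le_trans (le_of_eq ?_) h4
    apply sum_congr rfl
    intro D _
    simp only [hβ]
    ring
  refine h5.trans ?_
  apply mul_le_mul_of_nonneg_right _ (mul_nonneg hZ0 hZ0)
  -- the product of the local factors
  have h6 : ∀ i, 1 + ∑ a, ex κ g bad i a ≤
      Real.exp (31 * u ^ 2 * (g i) ^ 2 + (if i ∈ bad then 13 * u * (u + 1) ^ 2 * g i else 0)) := by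
    intro i
    rw [add_comm]
    refine le_trans ?_ (Real.add_one_le_exp _)
    have h7 : ∑ a, ex κ g bad i a ≤
        31 * u ^ 2 * (g i) ^ 2 + (if i ∈ bad then 13 * u * (u + 1) ^ 2 * g i else 0) := by
      unfold ex
      by_cases hi : i ∈ bad
      · simp only [if_pos hi, sum_const, card_univ, Fintype.card_prod, Fintype.card_option,
          nsmul_eq_mul]
        push_cast
        rw [← hu]
        have h8 : 0 ≤ 31 * u ^ 2 * (g i) ^ 2 := by positivity
        nlinarith
      · simp only [if_neg hi, sum_eg]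
        rw [← hu]
        nlinarith
    linarith
  calc ∏ i, (1 + ∑ a, ex κ g bad i a) ≤ ∏ i, Real.exp (31 * u ^ 2 * (g i) ^ 2 +
        (if i ∈ bad then 13 * u * (u + 1) ^ 2 * g i else 0)) := by
        apply prod_le_prod
        · intro i _
          have := sum_nonneg (s := univ) fun a _ => hex0 i a
          linarith
        · intro i _
          exact h6 i
    _ = _ := by
        rw [← Real.exp_sum, sum_add_distrib, ← mul_sum, ← sum_filter, mul_sum bad]
        congr 3
        ext i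
        simp

end

end Pool.Agent.K7.H60.TL
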