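import Pool.Agent.K7.H60.TL.JPf

/-!
Pointwise bound of the weight at the points where no colour is hit too often.
-/

set_option autoImplicit false
set_option linter.unusedSectionVars false

namespace Pool.Agent.K7.H60.TL

open Finset Pool.Agent.H256R2.SC

open scoped Classical

variable {n : ℕ} {κ : Type} [Fintype κ] [DecidableEq κ]

theorem sum_fib_le (w : κ → Finset (Fin n) → ℝ) (hw : ∀ k s, 0 ≤ w k s) :
    ∑ D : Col n κ, ∏ k, w k (fib D k) ≤ ∏ k, ∑ s, w k s := by
  have hinj : Function.Injective (fun (D : Col n κ) (k : κ) => fib D k) := by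
    intro D D' hDD
    funext i
    have h1 : ∀ k, i ∈ fib D k ↔ i ∈ fib D' k := by
      intro k
      have := congrFun hDD k
      simp only at this
      rw [this]
    simp only [mem_fib] at h1
    cases hD : D i with
    | none =>
      cases hD' : D' i with
      | none => rfl
      | some l =>
        have := (h1 l).2 hD'
        rw [hD] at this
        exact absurd this (by simp)
    | some k => exact ((h1 k).1 hD).symm
  have h2 := Finset.prod_univ_sum (fun _ : κ => (Finset.univ : Finset (Finset (Fin n)))) w
  rw [Fintype.piFinset_univ] at h2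
  rw [h2]
  calc ∑ D : Col n κ, ∏ k, w k (fib D k) =
      ∑ f ∈ univ.image (fun (D : Col n κ) (k : κ) => fib D k), ∏ k, w k (f k) := by
        rw [sum_image]
        intro D _ D' _ hh
        exact hinj hh
    _ ≤ ∑ f : κ → Finset (Fin n), ∏ k, w k (f k) :=
        sum_le_sum_of_subset_of_nonneg (subset_univ _) fun f _ _ => prod_nonneg fun k _ => hw _ _

section
variable {p g : Fin n → ℝ} {h : Finset (Fin n) → ℝ} {z K C4 T0 : ℝ}

/-- number of colours that occur -/
noncomputable def occ (D : Col n κ) : ℕ := (univ.filter (fun k => fib D k ≠ ∅)).card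

theorem phi_le (H : HB p g h z K C4 T0) (U : Finset (Fin n)) :
    ∑ s : Finset (Fin n), h s * ∏ i ∈ s, ((if i ∈ U then (1 : ℝ) else 0) + g i) ≤
      2 ^ U.card * C4 := by
  have hG : ∀ s : Finset (Fin n), 0 ≤ ∏ j ∈ s, g j := fun s =>
    Finset.prod_nonneg fun j _ => (H.g0 j).le
  have h1 : ∀ s : Finset (Fin n), h s * ∏ i ∈ s, ((if i ∈ U then (1 : ℝ) else 0) + g i) ≤
      ∑ a ∈ U.powerset, if a ⊆ s then h s * ∏ i ∈ s \ a, g i else 0 := by
    intro s
    rw [prod_add, mul_sum]
    have h2 : ∀ a ∈ s.powerset, h s * ((∏ i ∈ a, (if i ∈ U then (1 : ℝ) else 0)) *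
        ∏ i ∈ s \ a, g i) = if a ⊆ U then h s * ∏ i ∈ s \ a, g i else 0 := by
      intro a _
      by_cases ha : a ⊆ U
      · rw [if_pos ha]
        have h3 : ∏ i ∈ a, (if i ∈ U then (1 : ℝ) else 0) = 1 :=
          prod_eq_one fun i hi => if_pos (ha hi)
        rw [h3, one_mul]
      · rw [if_neg ha]
        rw [not_subset] at ha
        obtain ⟨i, hi, hiU⟩ := ha
        have h3 : ∏ i ∈ a, (if i ∈ U then (1 : ℝ) else 0) = 0 :=
          prod_eq_zero hi (if_neg hiU)
        rw [h3]
        ring
    rw [sum_congr rfl h2, ← sum_filter, ← sum_filter]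
    apply le_of_eq
    apply sum_congr _ fun _ _ => rfl
    ext a
    simp only [mem_filter, mem_powerset]
    exact and_comm
  calc ∑ s : Finset (Fin n), h s * ∏ i ∈ s, ((if i ∈ U then (1 : ℝ) else 0) + g i)
      ≤ ∑ s : Finset (Fin n), ∑ a ∈ U.powerset, if a ⊆ s then h s * ∏ i ∈ s \ a, g i else 0 :=
        sum_le_sum fun s _ => h1 s
    _ = ∑ a ∈ U.powerset, ∑ s : Finset (Fin n) with a ⊆ s, h s * ∏ i ∈ s \ a, g i := by
        rw [sum_comm]
        apply sum_congr rfl
        intro a _
        rw [sum_filter]
    _ ≤ ∑ a ∈ U.powerset, C4 := by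
        apply sum_le_sum
        intro T _
        refine le_trans (le_of_eq ?_) (H.conc T)
        refine Finset.sum_bij' (fun s _ => s \ T) (fun t _ => T ∪ t) ?_ ?_ ?_ ?_ ?_
        · intro s _
          rw [mem_filter]
          exact ⟨mem_univ _, sdiff_disjoint⟩
        · intro t _
          rw [mem_filter]
          exact ⟨mem_univ _, subset_union_left⟩
        · intro s hs
          rw [mem_filter] at hs
          exact union_sdiff_of_subset hs.2
        · intro t ht
          rw [mem_filter] at ht
          rw [union_sdiff_left]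
          exact ht.2.sdiff_eq_left
        · intro s hs
          rw [mem_filter] at hs
          rw [union_sdiff_of_subset hs.2]
    _ = _ := by
        rw [sum_const, card_powerset, nsmul_eq_mul]
        push_cast
        ring

theorem occ_le (H : HB p g h z K C4 T0) (hT0 : 1 ≤ T0) (Q : ℝ) (D : Col n κ)
    (hD : yT p h Q D ≠ 0) : T0 ^ (occ D) ≤ Q := by
  have hQ : qq p D ≤ Q := by
    by_contra hc
    exact hD (by unfold yT; rw [if_neg hc])
  have hy : yy h D ≠ 0 := by
    unfold yT at hD
    rwa [if_pos hQ] at hD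
  refine le_trans ?_ hQ
  rw [qq_eq_prod_fib]
  unfold occ
  rw [← prod_const, prod_filter]
  apply prod_le_prod
  · intro k _
    split_ifs
    · linarith
    · exact zero_le_one
  · intro k _
    split_ifs with hk
    · have h1 : al h (fib D k) ≠ 0 := by
        intro h0
        apply hy
        unfold yy
        exact prod_eq_zero (mem_univ k) h0
      unfold al at h1
      rw [if_neg hk] at h1
      have h2 : h (fib D k) ≠ 0 := by
        intro h0
        apply h1
        rw [h0]
        ring
      exact (H.supp _ h2).1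
    · exact prod_ge_one H _

theorem V_le (H : HB p g h z K C4 T0) (hT0 : 1 < T0) (Q : ℝ) (R J1 : ℕ)
    (hR : Q < T0 ^ (R + 1)) (lam : ℝ) (hlam : 1 ≤ lam) (hg1 : ∀ i, g i ≤ 1)
    (hlam2 : (Fintype.card κ : ℝ) * (2 ^ J1 * C4) ≤ lam) (x : Col n κ)
    (hx : ∀ k, (hits k x).card ≤ J1) :
    |VV g (yT p h Q : Col n κ → ℝ) x| ≤ 3 * lam ^ R := by
  have hlam0 : 0 < lam := by linarith
  have hG : ∀ s : Finset (Fin n), 0 ≤ ∏ j ∈ s, g j := fun s =>
    Finset.prod_nonneg fun j _ => (H.g0 j).le
  set b : κ → Fin n → ℝ := fun k i => (if i ∈ hits k x then (1 : ℝ) else 0) + g i with hb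
  have hb0 : ∀ k i, 0 ≤ b k i := by
    intro k i
    have := (H.g0 i).le
    simp only [hb]
    split_ifs <;> linarith
  set w : κ → Finset (Fin n) → ℝ := fun k s =>
    if s = ∅ then 1 else lam⁻¹ * (h s * ∏ i ∈ s, b k i) with hw
  have hw0 : ∀ k s, 0 ≤ w k s := by
    intro k s
    simp only [hw]
    split_ifs
    · exact zero_le_one
    · exact mul_nonneg (inv_nonneg.2 hlam0.le) (mul_nonneg (H.h0 s) (prod_nonneg fun i _ => hb0 k i))
  have hpsi : ∀ D : Col n κ, |psi g D x| ≤ ∏ k, ∏ i ∈ fib D k, b k i := by
    intro D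
    have h1 : ∏ k, ∏ i ∈ fib D k, b k i = ∏ i, (match D i with | none => 1 | some k => b k i) := by
      unfold fib
      simp_rw [Finset.prod_filter]
      rw [Finset.prod_comm]
      refine Finset.prod_congr rfl fun i _ => ?_
      cases h : D i with
      | none => simp
      | some l =>
        simp only [Option.some.injEq]
        rw [Finset.prod_ite_eq]
        simp
    rw [h1]
    unfold psi
    rw [abs_prod]
    apply prod_le_prod
    · intro i _
      exact abs_nonneg _
    · intro i _
      cases hD : D i with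
      | none => simp [psi1]
      | some k =>
        simp only [psi1, hb]
        have hgi := H.g0 i
        have hgi1 := hg1 i
        have hmem : i ∈ hits k x ↔ x i = some k := by
          unfold hits
          simp
        by_cases hxi : x i = some k
        · rw [if_pos hxi, if_pos (hmem.2 hxi), abs_le]
          constructor <;> linarith
        · rw [if_neg hxi, if_neg (fun hh => hxi (hmem.1 hh)), abs_le]
          constructor <;> linarith
  have hterm : ∀ D : Col n κ, |yT p h Q D * psi g D x| ≤ lam ^ R * ∏ k, w k (fib D k) := by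
    intro D
    by_cases hD : yT p h Q D = 0
    · rw [hD, zero_mul, abs_zero]
      exact mul_nonneg (pow_nonneg hlam0.le _) (prod_nonneg fun k _ => hw0 _ _)
    · have h1 := occ_le H hT0.le Q D hD
      have h2 : occ D ≤ R := by
        by_contra hc
        push Not at hc
        have h3 : T0 ^ (R + 1) ≤ T0 ^ (occ D) := pow_le_pow_right₀ hT0.le hc
        linarith
      have h3 : |yT p h Q D| ≤ ∏ k, (if fib D k = ∅ then (1 : ℝ) else h (fib D k)) := by
        unfold yT
        split_ifs
        · unfold yy
          rw [abs_prod]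
          apply prod_le_prod
          · intro k _
            exact abs_nonneg _
          · intro k _
            unfold al
            split_ifs
            · simp
            · rw [abs_neg, abs_mul, abs_pow, abs_neg, abs_one, one_pow, one_mul,
                abs_of_nonneg (H.h0 _)]
        · rw [abs_zero]
          apply prod_nonneg
          intro k _
          split_ifs
          · exact zero_le_one
          · exact H.h0 _
      have h3' : 0 ≤ ∏ k, (if fib D k = ∅ then (1 : ℝ) else h (fib D k)) := by
        apply prod_nonneg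
        intro k _
        split_ifs
        · exact zero_le_one
        · exact H.h0 _
      rw [abs_mul]
      refine (mul_le_mul h3 (hpsi D) (abs_nonneg _) h3').trans ?_
      have h4 : ∏ k, w k (fib D k) = (lam⁻¹) ^ (occ D) *
          ((∏ k, (if fib D k = ∅ then (1 : ℝ) else h (fib D k))) *
            ∏ k, ∏ i ∈ fib D k, b k i) := by
        unfold occ
        rw [← prod_const, prod_filter, ← prod_mul_distrib, ← prod_mul_distrib]
        apply prod_congr rfl
        intro k _
        simp only [hw]
        by_cases hk : fib D k = ∅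
        · rw [if_pos hk, if_pos hk, if_neg (not_not.2 hk), hk]
          simp
        · rw [if_neg hk, if_neg hk, if_pos hk]
      rw [h4, ← mul_assoc]
      have h5 : 1 ≤ lam ^ R * (lam⁻¹) ^ (occ D) := by
        have h6 : lam ^ R = lam ^ (R - occ D) * lam ^ (occ D) := by
          rw [← pow_add]
          congr 1
          omega
        rw [h6, inv_pow, mul_assoc, mul_inv_cancel₀ (pow_ne_zero _ hlam0.ne'), mul_one]
        exact one_le_pow₀ hlam
      have h6 : 0 ≤ (∏ k, (if fib D k = ∅ then (1 : ℝ) else h (fib D k))) *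
            ∏ k, ∏ i ∈ fib D k, b k i :=
        mul_nonneg h3' (prod_nonneg fun k _ => prod_nonneg fun i _ => hb0 k i)
      exact le_mul_of_one_le_left h6 h5
  have hsum : |VV g (yT p h Q : Col n κ → ℝ) x| ≤ lam ^ R * ∏ k, ∑ s, w k s := by
    unfold VV
    refine (abs_sum_le_sum_abs _ _).trans ?_
    refine (sum_le_sum fun D _ => hterm D).trans ?_
    rw [← mul_sum]
    exact mul_le_mul_of_nonneg_left (sum_fib_le w hw0) (pow_nonneg hlam0.le _)
  refine hsum.trans ?_
  have hk : ∀ k, ∑ s, w k s ≤ 1 + lam⁻¹ * (2 ^ J1 * C4) := by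
    intro k
    have h1 : ∀ s : Finset (Fin n), w k s ≤ (if s = ∅ then (1 : ℝ) else 0) +
        lam⁻¹ * (h s * ∏ i ∈ s, b k i) := by
      intro s
      simp only [hw]
      split_ifs
      · have := mul_nonneg (inv_nonneg.2 hlam0.le)
          (mul_nonneg (H.h0 s) (prod_nonneg fun i (_ : i ∈ s) => hb0 k i))
        linarith
      · rw [zero_add]
    refine (sum_le_sum fun s _ => h1 s).trans ?_
    rw [sum_add_distrib, sum_ite_eq' univ ∅, if_pos (mem_univ _), ← mul_sum]
    have h2 := phi_le H (hits k x)
    have h3 : (2 : ℝ) ^ (hits k x).card * C4 ≤ 2 ^ J1 * C4 := by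
      apply mul_le_mul_of_nonneg_right _ (by linarith [H.c4])
      exact pow_le_pow_right₀ (by norm_num) (hx k)
    have h4 := mul_le_mul_of_nonneg_left (h2.trans h3) (inv_nonneg.2 hlam0.le)
    linarith
  have hprod : ∏ k : κ, ∑ s, w k s ≤ 3 := by
    calc ∏ k : κ, ∑ s, w k s ≤ ∏ _k : κ, Real.exp (lam⁻¹ * (2 ^ J1 * C4)) := by
          apply prod_le_prod
          · intro k _
            exact sum_nonneg fun s _ => hw0 k s
          · intro k _
            refine (hk k).trans ?_
            rw [add_comm]
            exact Real.add_one_le_exp _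
      _ = Real.exp ((Fintype.card κ : ℝ) * (lam⁻¹ * (2 ^ J1 * C4))) := by
          rw [prod_const, card_univ, ← Real.exp_nat_mul]
      _ ≤ Real.exp 1 := by
          apply Real.exp_le_exp.mpr
          have h1 : (Fintype.card κ : ℝ) * (lam⁻¹ * (2 ^ J1 * C4)) =
              lam⁻¹ * ((Fintype.card κ : ℝ) * (2 ^ J1 * C4)) := by ring
          rw [h1]
          calc lam⁻¹ * ((Fintype.card κ : ℝ) * (2 ^ J1 * C4)) ≤ lam⁻¹ * lam :=
                mul_le_mul_of_nonneg_left hlam2 (inv_nonneg.2 hlam0.le)
            _ = 1 := inv_mul_cancel₀ hlam0.ne'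
      _ ≤ 3 := Real.exp_one_lt_three.le
  calc lam ^ R * ∏ k : κ, ∑ s, w k s ≤ lam ^ R * 3 :=
        mul_le_mul_of_nonneg_left hprod (pow_nonneg hlam0.le _)
    _ = 3 * lam ^ R := by ring

end

end Pool.Agent.K7.H60.TL
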