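import Pool.Agent.K7.H60.TL.En
import Pool.Agent.H256R2.SC.G3

/-!
From the engine to runs of composite numbers, and from dyadic to full ranges.
-/

set_option autoImplicit false
set_option linter.unusedSectionVars false

namespace Pool.Agent.K7.H60.TL

open Finset Filter Pool.Agent.H256R2.SC

open scoped Classical

/-- the engine, with the small primes given by a set of residue classes -/
theorem runs (θ : ℝ) (hθ : 0 < θ) (A : ℕ) : ∃ c C5 C6 : ℝ, 0 < c ∧ 0 < C5 ∧
    0 < C6 ∧ ∃ X₀ : ℝ, ∀ X : ℕ, X₀ ≤ X →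
    ∀ (P0 : Finset ℕ) (e : ℕ → ℕ) (N Y : ℕ) (u0 : ℝ),
    (∀ p ∈ P0, p.Prime ∧ p < X) → (∀ p ∈ P0, (p : ℝ) ≤ (Real.log X) ^ (A + 10)) →
    (N : ℝ) + 1 ≤ (Real.log X) ^ (A + 10) →
    (((Icc 1 N).filter (fun k => ∀ p ∈ P0, ¬ k ≡ e p [MOD p])).card : ℝ) ≤ c * Real.log X →
    C6 * Real.log (Real.log X) ≤ u0 → u0 ≤ (Real.log X) ^ (1 - θ) →
    ((∏ p ∈ P0, p : ℕ) : ℝ) * (N + 1) *
      Real.exp (C5 * Real.log (Real.log X) * (Real.log X / u0)) ≤ Y →
    (Y : ℝ) ≤ Real.exp (Real.log X / 2) →
    (((Ico X (2 * X)).filter (fun x => ¬ ∃ n, x < n ∧ n ≤ x + Y ∧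
      ∀ k ∈ Icc 1 N, ¬ (n + k).Prime)).card : ℝ) ≤ X / (Real.log X) ^ A := by
  obtain ⟨c, C5, C6, hc, hC5, hC6, X₀, hX₀⟩ := engine θ hθ A
  refine ⟨c, C5, C6, hc, hC5, hC6, X₀, ?_⟩
  intro X hX P0 e N Y u0 hP0 hPs hN hcard hu1 hu2 hWY hY
  obtain ⟨b, hb, hbe⟩ := Pool.Agent.H256R2.SC.G3.crt_small P0 (fun p hp => (hP0 p hp).1) e
  set S := (Icc 1 N).filter (fun k => ∀ p ∈ P0, ¬ k ≡ e p [MOD p]) with hS
  have hprod1 : 1 ≤ ∏ p ∈ P0, p := Finset.prod_pos fun p hp => (hP0 p hp).1.pos
  have hmain := hX₀ X hX S (fun k => (k : ℕ)) N ((∏ p ∈ P0, p) * (N + 1)) b Y u0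
    (by rw [Fintype.card_coe]; exact hcard) Subtype.val_injective
    (fun k => (mem_Icc.1 (mem_filter.1 k.2).1).2)
    (by linarith)
    (by
      calc N < N + 1 := Nat.lt_succ_self _
        _ = 1 * (N + 1) := (one_mul _).symm
        _ ≤ _ := Nat.mul_le_mul_right _ hprod1)
    (by
      calc b < ∏ p ∈ P0, p := hb
        _ = (∏ p ∈ P0, p) * 1 := (mul_one _).symm
        _ ≤ _ := Nat.mul_le_mul_left _ (by omega))
    (by
      intro p hp hlt hdvd
      rcases (Nat.Prime.dvd_mul hp).1 hdvd with h1 | h1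
      · obtain ⟨q, hq, hpq⟩ := (Prime.dvd_finsetProd_iff hp.prime _).1 h1
        have h2 : p = q := (Nat.prime_dvd_prime_iff_eq hp (hP0 q hq).1).1 hpq
        have h3 := hPs q hq
        rw [← h2] at h3
        linarith
      · have h2 : p ≤ N + 1 := Nat.le_of_dvd (by omega) h1
        have h3 : (p : ℝ) ≤ (N : ℝ) + 1 := by exact_mod_cast h2
        linarith)
    hu1 hu2
    (by push_cast at hWY ⊢; exact hWY)
    hY
  refine le_trans ?_ hmain
  apply Nat.cast_le.mpr
  apply card_le_card
  intro x hx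
  rw [mem_filter] at hx ⊢
  refine ⟨hx.1, ?_⟩
  rintro ⟨n, hn1, hn2, hn3, hn4, hn5⟩
  apply hx.2
  refine ⟨n, hn3, hn4, ?_⟩
  intro k hk hprime
  by_cases hkS : k ∈ S
  · exact hn5 ⟨k, hkS⟩ hprime
  · rw [hS, mem_filter] at hkS
    push Not at hkS
    obtain ⟨p, hp, hkp⟩ := hkS hk
    have hpp := (hP0 p hp).1
    have h1 : n ≡ b [MOD ((∏ p ∈ P0, p) * (N + 1))] := by
      unfold Nat.ModEq
      rw [hn1, Nat.mod_eq_of_lt]
      calc b < ∏ p ∈ P0, p := hb
        _ = (∏ p ∈ P0, p) * 1 := (mul_one _).symm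
        _ ≤ _ := Nat.mul_le_mul_left _ (by omega)
    have h2 : n ≡ b [MOD p] := h1.of_dvd ((Finset.dvd_prod_of_mem _ hp).trans (dvd_mul_right _ _))
    have h3 : n + k ≡ b + e p [MOD p] := h2.add hkp
    have h4 : p ∣ n + k := (Nat.modEq_zero_iff_dvd.1 (h3.trans (Nat.modEq_zero_iff_dvd.2 (hbe p hp))))
    rcases (Nat.dvd_prime hprime).1 h4 with h5 | h5
    · exact hpp.one_lt.ne' h5
    · have h6 := (hP0 p hp).2
      omega

/-- from dyadic ranges to full ranges -/
theorem dyadic_to_range (good : ℕ → Prop) (A : ℕ)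
    (h : ∃ X₀ : ℝ, ∀ X : ℕ, X₀ ≤ X →
      (((Ico X (2 * X)).filter (fun x => ¬ good x)).card : ℝ) ≤ X / (Real.log X) ^ (A + 1)) :
    ∃ X₁ : ℕ, ∀ X : ℕ, X₁ ≤ X →
      (((range X).filter (fun x => ¬ good x)).card : ℝ) ≤ X / (Real.log X) ^ A := by
  obtain ⟨X₀, h⟩ := h
  -- threshold
  set T : ℕ := ⌈X₀⌉₊ + ⌈Real.exp (3 * ((A : ℝ) + 1) + 10)⌉₊ with hT
  have hTX : X₀ ≤ (T : ℝ) := by
    have h1 := Nat.le_ceil X₀
    rw [hT]; push_cast
    have : (0 : ℝ) ≤ (⌈Real.exp (3 * ((A : ℝ) + 1) + 10)⌉₊ : ℝ) := Nat.cast_nonneg _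
    linarith
  have hTe : Real.exp (3 * ((A : ℝ) + 1) + 10) ≤ (T : ℝ) := by
    have h1 := Nat.le_ceil (Real.exp (3 * ((A : ℝ) + 1) + 10))
    rw [hT]; push_cast
    have : (0 : ℝ) ≤ (⌈X₀⌉₊ : ℝ) := Nat.cast_nonneg _
    linarith
  have hTpos : (0 : ℝ) < T := lt_of_lt_of_le (Real.exp_pos _) hTe
  have hlogT : 3 * ((A : ℝ) + 1) + 10 ≤ Real.log T := by
    rw [← Real.log_exp (3 * ((A : ℝ) + 1) + 10)]
    exact Real.log_le_log (Real.exp_pos _) hTe
  have hA0 : (0 : ℝ) ≤ A := Nat.cast_nonneg _
  have hT100 : (100 : ℝ) ≤ T := by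
    have h1 : (10 : ℝ) ≤ 3 * ((A : ℝ) + 1) + 10 := by linarith
    have h2 := Real.exp_le_exp.mpr h1
    have h3 : (100 : ℝ) ≤ Real.exp 10 := by
      have h4 : (2 : ℝ) ≤ Real.exp 1 := by have := Real.exp_one_gt_d9; linarith
      have h5 : Real.exp 10 = (Real.exp 1) ^ 10 := by rw [← Real.exp_nat_mul]; norm_num
      rw [h5]
      calc (100 : ℝ) ≤ 2 ^ 10 := by norm_num
        _ ≤ (Real.exp 1) ^ 10 := pow_le_pow_left₀ (by norm_num) h4 10
    linarith
  set C : ℝ := 4 + (Real.log (2 * T)) ^ (A + 1) with hC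
  have hlog2T : 0 ≤ Real.log (2 * T) := Real.log_nonneg (by linarith)
  have hC4 : 4 ≤ C := by
    have : 0 ≤ (Real.log (2 * T)) ^ (A + 1) := pow_nonneg hlog2T _
    linarith
  have key : ∀ X : ℕ, T ≤ X →
      (((range X).filter (fun x => ¬ good x)).card : ℝ) ≤ C * X / (Real.log X) ^ (A + 1) := by
    intro X
    induction X using Nat.strong_induction_on with
    | _ X ih =>
      intro hTX'
      have hXT : (T : ℝ) ≤ X := by exact_mod_cast hTX'
      have hXpos : (0 : ℝ) < X := by linarith
      have hlogX : 3 * ((A : ℝ) + 1) + 10 ≤ Real.log X :=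
        hlogT.trans (Real.log_le_log hTpos hXT)
      have hlogXpos : 0 < Real.log X := by linarith
      by_cases hX2 : X ≤ 2 * T
      · have h1 : (((range X).filter (fun x => ¬ good x)).card : ℝ) ≤ X := by
          have := card_filter_le (range X) (fun x => ¬ good x)
          rw [card_range] at this
          exact_mod_cast this
        refine h1.trans ?_
        rw [le_div_iff₀ (by positivity), mul_comm]
        apply mul_le_mul_of_nonneg_right _ hXpos.le
        have h2 : Real.log X ≤ Real.log (2 * T) :=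
          Real.log_le_log hXpos (by exact_mod_cast hX2)
        have h3 := pow_le_pow_left₀ hlogXpos.le h2 (A + 1)
        linarith
      · push Not at hX2
        set Z : ℕ := (X + 1) / 2 with hZ
        have hZT : T ≤ Z := by omega
        have hZX : Z < X := by
          have : 100 ≤ T := by exact_mod_cast hT100
          omega
        have hsub : (range X).filter (fun x => ¬ good x) ⊆
            (range Z).filter (fun x => ¬ good x) ∪ (Ico Z (2 * Z)).filter (fun x => ¬ good x) := by
          intro x hx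
          rw [mem_filter, mem_range] at hx
          rw [mem_union, mem_filter, mem_filter, mem_range, mem_Ico]
          by_cases hxZ : x < Z
          · exact Or.inl ⟨hxZ, hx.2⟩
          · exact Or.inr ⟨⟨by omega, by omega⟩, hx.2⟩
        have h1 := ih Z hZX hZT
        have hZTr : (T : ℝ) ≤ Z := by exact_mod_cast hZT
        have h2 := h Z (hTX.trans hZTr)
        have h3 : (((range X).filter (fun x => ¬ good x)).card : ℝ) ≤
            (((range Z).filter (fun x => ¬ good x)).card : ℝ) +
            (((Ico Z (2 * Z)).filter (fun x => ¬ good x)).card : ℝ) := by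
          exact_mod_cast (card_le_card hsub).trans (card_union_le _ _)
        have hZpos : (0 : ℝ) < Z := by linarith
        have hZ2 : (X : ℝ) / 2 ≤ Z := by
          have : X ≤ 2 * Z := by omega
          have : (X : ℝ) ≤ 2 * Z := by exact_mod_cast this
          linarith
        have hZ3 : (Z : ℝ) ≤ 51 / 100 * X := by
          have : 2 * Z ≤ X + 1 := by omega
          have : 2 * (Z : ℝ) ≤ X + 1 := by exact_mod_cast this
          linarith
        have hlogZ : Real.log X - 1 ≤ Real.log Z := by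
          have h4 : Real.log (X / 2) ≤ Real.log Z := Real.log_le_log (by linarith) hZ2
          rw [Real.log_div hXpos.ne' (by norm_num)] at h4
          have := Real.log_two_lt_d9
          linarith
        have hlogZpos : 0 < Real.log Z := by linarith
        have hpow : 2 / 3 * (Real.log X) ^ (A + 1) ≤ (Real.log Z) ^ (A + 1) := by
          have h5 : (1 - 1 / Real.log X) * Real.log X ≤ Real.log Z := by
            have : (1 - 1 / Real.log X) * Real.log X = Real.log X - 1 := by field_simp
            rw [this]; exact hlogZ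
          have h60 : 1 / Real.log X ≤ 1 / (3 * ((A : ℝ) + 1)) := by
            apply one_div_le_one_div_of_le (by positivity)
            linarith
          have h6' : 1 / (3 * ((A : ℝ) + 1)) ≤ 1 / 3 := by
            apply one_div_le_one_div_of_le (by norm_num)
            linarith
          have h6 : -2 ≤ -(1 / Real.log X) := by linarith
          have h7 := one_add_mul_le_pow h6 (A + 1)
          have h8 : 2 / 3 ≤ 1 + ((A + 1 : ℕ) : ℝ) * -(1 / Real.log X) := by
            push_cast
            have h9 : ((A : ℝ) + 1) * (1 / Real.log X) ≤ ((A : ℝ) + 1) * (1 / (3 * ((A : ℝ) + 1))) :=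
              mul_le_mul_of_nonneg_left h60 (by linarith)
            have h10 : ((A : ℝ) + 1) * (1 / (3 * ((A : ℝ) + 1))) = 1 / 3 := by field_simp
            linarith
          calc 2 / 3 * (Real.log X) ^ (A + 1) ≤
                (1 + -(1 / Real.log X)) ^ (A + 1) * (Real.log X) ^ (A + 1) :=
                mul_le_mul_of_nonneg_right (h8.trans h7) (by positivity)
            _ = ((1 - 1 / Real.log X) * Real.log X) ^ (A + 1) := by rw [mul_pow]; ring
            _ ≤ (Real.log Z) ^ (A + 1) := by
                apply pow_le_pow_left₀ _ h5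
                apply mul_nonneg _ hlogXpos.le
                linarith
        have hLX : 0 < (Real.log X) ^ (A + 1) := by positivity
        have hLZ : 0 < (Real.log Z) ^ (A + 1) := by positivity
        calc (((range X).filter (fun x => ¬ good x)).card : ℝ) ≤
              C * Z / (Real.log Z) ^ (A + 1) + Z / (Real.log Z) ^ (A + 1) := by linarith
          _ = (C + 1) * Z / (Real.log Z) ^ (A + 1) := by ring
          _ ≤ (5 / 4 * C) * (51 / 100 * X) / (2 / 3 * (Real.log X) ^ (A + 1)) := by
              apply div_le_div₀ _ _ (by positivity) hpow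
              · have : 0 < C := by linarith
                positivity
              · apply mul_le_mul _ hZ3 hZpos.le _
                · linarith
                · linarith
          _ ≤ C * X / (Real.log X) ^ (A + 1) := by
              rw [div_le_div_iff₀ (by positivity) hLX]
              have h11 : 0 ≤ C * X * (Real.log X) ^ (A + 1) := by
                have : 0 < C := by linarith
                positivity
              nlinarith
  refine ⟨max T ⌈Real.exp C⌉₊, fun X hX => ?_⟩
  have h1 := key X ((le_max_left _ _).trans hX)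
  refine h1.trans ?_
  have h2 : Real.exp C ≤ (X : ℝ) := by
    have h3 := Nat.le_ceil (Real.exp C)
    have h4 : (⌈Real.exp C⌉₊ : ℝ) ≤ X := by exact_mod_cast (le_max_right _ _).trans hX
    linarith
  have h3 : C ≤ Real.log X := by
    rw [← Real.log_exp C]
    exact Real.log_le_log (Real.exp_pos _) h2
  have h4 : 0 < Real.log X := by linarith
  have hX0 : (0 : ℝ) ≤ X := Nat.cast_nonneg _
  rw [div_le_div_iff₀ (by positivity) (by positivity), pow_succ]
  calc C * X * (Real.log X) ^ A ≤ Real.log X * X * (Real.log X) ^ A := by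
        apply mul_le_mul_of_nonneg_right _ (by positivity)
        exact mul_le_mul_of_nonneg_right h3 hX0
    _ = X * ((Real.log X) ^ A * Real.log X) := by ring

end Pool.Agent.K7.H60.TL
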