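import Pool.Agent.H256R2.SC.S
import Pool.Agent.K7.H60.TL.HB

/-!
The profile supported on sizes at least `T0` (average over doubly exponential scales).
-/

set_option autoImplicit false

namespace Pool.Agent.K7.H60.TL

open Finset Pool.Agent.H256R2.SC

variable {n : ℕ}

/-- sum of the `∏ g` over the nonempty sets of size between `T0` and `x` -/
noncomputable def Aw (p g : Fin n → ℝ) (T0 x : ℝ) : ℝ :=
  ∑ s : Finset (Fin n) with s.Nonempty ∧ (T0 ≤ ∏ i ∈ s, p i ∧ ∏ i ∈ s, p i ≤ x), ∏ i ∈ s, g i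

/-- sum of the `∏ g` over all sets of size at most `x` -/
noncomputable def Uw (p g : Fin n → ℝ) (x : ℝ) : ℝ :=
  ∑ s : Finset (Fin n) with ∏ i ∈ s, p i ≤ x, ∏ i ∈ s, g i

/-- truncated reciprocal -/
noncomputable def ht (p g : Fin n → ℝ) (T0 z₀ : ℝ) (j : ℕ) (s : Finset (Fin n)) : ℝ :=
  if T0 ≤ ∏ i ∈ s, p i ∧ ∏ i ∈ s, p i ≤ z₀ ^ (2 ^ j) then 1 / Aw p g T0 (z₀ ^ (2 ^ j)) else 0

theorem sum_two_filters' (P : Finset (Fin n) → Prop) [DecidablePred P]
    (F : Finset (Fin n) → ℝ) :
    ∑ s : Finset (Fin n) with s.Nonempty ∧ P s, F s =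
      ∑ s : Finset (Fin n) with s.Nonempty, if P s then F s else 0 := by
  rw [← Finset.filter_filter, Finset.sum_filter]

theorem exists_HB (p g : Fin n → ℝ) (hp : ∀ i, 1 < p i) (hg : ∀ i, 0 < g i) (J : ℕ) (hJ : 1 ≤ J)
    (z₀ lam C4 T0 : ℝ) (hz₀ : 1 < z₀) (hlam : 0 < lam) (hC4 : 1 ≤ C4)
    (hA : ∀ j < J, C4 ≤ Aw p g T0 (z₀ ^ (2 ^ j)) ∧
      lam * (2 ^ j * Real.log z₀) ≤ Aw p g T0 (z₀ ^ (2 ^ j)) ∧
      Uw p g (z₀ ^ (2 ^ j)) ≤ C4 * Aw p g T0 (z₀ ^ (2 ^ j))) :
    ∃ h, HB p g h (z₀ ^ (2 ^ (J - 1))) (4 / (lam * J)) C4 T0 := by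
  have hJ0 : (0 : ℝ) < J := by exact_mod_cast hJ
  have hlog : 0 < Real.log z₀ := Real.log_pos hz₀
  set A : ℕ → ℝ := fun j => Aw p g T0 (z₀ ^ (2 ^ j)) with hAdef
  have hAC : ∀ j < J, C4 ≤ A j := fun j hj => (hA j hj).1
  have hA1 : ∀ j < J, 1 ≤ A j := fun j hj => hC4.trans (hAC j hj)
  have hA0 : ∀ j < J, 0 < A j := fun j hj => lt_of_lt_of_le one_pos (hA1 j hj)
  have hAl : ∀ j < J, lam * (2 ^ j * Real.log z₀) ≤ A j := fun j hj => (hA j hj).2.1
  have hAU : ∀ j < J, Uw p g (z₀ ^ (2 ^ j)) ≤ C4 * A j := fun j hj => (hA j hj).2.2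
  have ht0 : ∀ j < J, ∀ s, 0 ≤ ht p g T0 z₀ j s := by
    intro j hj s
    unfold ht
    split_ifs
    · exact div_nonneg zero_le_one (hA0 j hj).le
    · exact le_rfl
  have htC : ∀ j < J, ∀ s, ht p g T0 z₀ j s * C4 ≤ 1 := by
    intro j hj s
    unfold ht
    split_ifs
    · rw [one_div, ← div_eq_inv_mul, div_le_one (hA0 j hj)]
      exact hAC j hj
    · rw [zero_mul]
      exact zero_le_one
  have hPpos : ∀ s : Finset (Fin n), 0 < ∏ i ∈ s, p i :=
    fun s => Finset.prod_pos (fun i _ => lt_trans one_pos (hp i))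
  have hGpos : ∀ s : Finset (Fin n), 0 < ∏ i ∈ s, g i :=
    fun s => Finset.prod_pos (fun i _ => hg i)
  have hP1 : ∀ s : Finset (Fin n), 1 ≤ ∏ i ∈ s, p i := by
    intro s
    calc (1 : ℝ) = ∏ _i ∈ s, (1 : ℝ) := by simp
      _ ≤ ∏ i ∈ s, p i := Finset.prod_le_prod (fun _ _ => zero_le_one) (fun i _ => (hp i).le)
  have hPmono : ∀ s t : Finset (Fin n), s ⊆ t → ∏ i ∈ s, p i ≤ ∏ i ∈ t, p i := by
    intro s t hst
    rw [← Finset.prod_sdiff hst]
    calc ∏ i ∈ s, p i = 1 * ∏ i ∈ s, p i := (one_mul _).symm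
      _ ≤ (∏ i ∈ t \ s, p i) * ∏ i ∈ s, p i :=
        mul_le_mul_of_nonneg_right (hP1 _) (hPpos s).le
  let h : Finset (Fin n) → ℝ := fun s =>
    if s = ∅ then 0 else (1 / (J : ℝ)) * ∑ j ∈ range J, ht p g T0 z₀ j s
  have hne : ∀ s : Finset (Fin n), s.Nonempty →
      h s = (1 / (J : ℝ)) * ∑ j ∈ range J, ht p g T0 z₀ j s := by
    intro s hs
    simp only [h, if_neg hs.ne_empty]
  have hle : ∀ s : Finset (Fin n), h s ≤ (1 / (J : ℝ)) * ∑ j ∈ range J, ht p g T0 z₀ j s := by
    intro s
    simp only [h]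
    split_ifs
    · exact mul_nonneg (by positivity)
        (Finset.sum_nonneg (fun j hj => ht0 j (mem_range.1 hj) s))
    · exact le_rfl
  have hh0 : ∀ s, 0 ≤ h s := by
    intro s
    simp only [h]
    split_ifs
    · exact le_rfl
    · exact mul_nonneg (by positivity)
        (Finset.sum_nonneg (fun j hj => ht0 j (mem_range.1 hj) s))
  have hC40 : 0 ≤ C4 := by linarith
  refine ⟨h, ?_⟩
  refine ⟨hp, hg, ?_, ?_, hC4, hh0, ?_, ?_, ?_, ?_, ?_⟩
  · exact one_lt_pow₀ hz₀ (by positivity)
  · positivity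
  · intro s
    calc h s * C4 ≤ (1 / (J : ℝ)) * (∑ j ∈ range J, ht p g T0 z₀ j s) * C4 :=
          mul_le_mul_of_nonneg_right (hle s) hC40
      _ = (1 / (J : ℝ)) * ∑ j ∈ range J, ht p g T0 z₀ j s * C4 := by
          rw [mul_assoc, Finset.sum_mul]
      _ ≤ (1 / (J : ℝ)) * ∑ _j ∈ range J, (1 : ℝ) := by
          refine mul_le_mul_of_nonneg_left ?_ (by positivity)
          exact Finset.sum_le_sum (fun j hj => htC j (mem_range.1 hj) s)
      _ = 1 := by
          simp only [sum_const, card_range, nsmul_eq_mul, mul_one]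
          field_simp
  · -- concentration
    intro T
    have h1 : ∀ j < J, ∑ s : Finset (Fin n) with Disjoint s T,
        ht p g T0 z₀ j (T ∪ s) * ∏ i ∈ s, g i ≤ C4 := by
      intro j hj
      calc ∑ s : Finset (Fin n) with Disjoint s T, ht p g T0 z₀ j (T ∪ s) * ∏ i ∈ s, g i
          ≤ ∑ s : Finset (Fin n), (if ∏ i ∈ s, p i ≤ z₀ ^ (2 ^ j) then
              (1 / A j) * ∏ i ∈ s, g i else 0) := by
            rw [Finset.sum_filter]
            refine Finset.sum_le_sum fun s _ => ?_
            have q0 : 0 ≤ (if ∏ i ∈ s, p i ≤ z₀ ^ (2 ^ j) then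
              (1 / A j) * ∏ i ∈ s, g i else 0) := by
              split_ifs
              · exact mul_nonneg (div_nonneg zero_le_one (hA0 j hj).le) (hGpos s).le
              · exact le_rfl
            by_cases hd : Disjoint s T
            · rw [if_pos hd]
              unfold ht
              by_cases hc : T0 ≤ ∏ i ∈ T ∪ s, p i ∧ ∏ i ∈ T ∪ s, p i ≤ z₀ ^ (2 ^ j)
              · rw [if_pos hc, if_pos ((hPmono s (T ∪ s) subset_union_right).trans hc.2)]
              · rw [if_neg hc, zero_mul]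
                exact q0
            · rw [if_neg hd]
              exact q0
        _ = (1 / A j) * Uw p g (z₀ ^ (2 ^ j)) := by
            unfold Uw
            rw [Finset.sum_filter, Finset.mul_sum]
            refine Finset.sum_congr rfl fun s _ => ?_
            split_ifs
            · rfl
            · rw [mul_zero]
        _ ≤ (1 / A j) * (C4 * A j) :=
            mul_le_mul_of_nonneg_left (hAU j hj) (div_nonneg zero_le_one (hA0 j hj).le)
        _ = C4 := by
            have := (hA0 j hj).ne'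
            field_simp
    calc ∑ s : Finset (Fin n) with Disjoint s T, h (T ∪ s) * ∏ i ∈ s, g i
        ≤ ∑ s : Finset (Fin n) with Disjoint s T,
          (1 / (J : ℝ)) * ∑ j ∈ range J, ht p g T0 z₀ j (T ∪ s) * ∏ i ∈ s, g i := by
          refine Finset.sum_le_sum fun s _ => ?_
          rw [← Finset.sum_mul, ← mul_assoc]
          exact mul_le_mul_of_nonneg_right (hle _) (hGpos s).le
      _ = (1 / (J : ℝ)) * ∑ j ∈ range J, ∑ s : Finset (Fin n) with Disjoint s T,
            ht p g T0 z₀ j (T ∪ s) * ∏ i ∈ s, g i := by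
          rw [← Finset.mul_sum, Finset.sum_comm]
      _ ≤ (1 / (J : ℝ)) * ∑ _j ∈ range J, C4 := by
          refine mul_le_mul_of_nonneg_left ?_ (by positivity)
          exact Finset.sum_le_sum fun j hj => h1 j (mem_range.1 hj)
      _ = C4 := by
          simp only [sum_const, card_range, nsmul_eq_mul]
          field_simp
  · -- support
    intro s hs
    by_cases hse : s = ∅
    · simp [h, hse] at hs
    · have hs' := hne s (nonempty_iff_ne_empty.2 hse)
      rw [hs'] at hs
      have h2 : ∑ j ∈ range J, ht p g T0 z₀ j s ≠ 0 := right_ne_zero_of_mul hs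
      obtain ⟨j, hj, hj0⟩ := Finset.exists_ne_zero_of_sum_ne_zero h2
      have h3 : T0 ≤ ∏ i ∈ s, p i ∧ ∏ i ∈ s, p i ≤ z₀ ^ (2 ^ j) := by
        by_contra hcon
        apply hj0
        unfold ht
        rw [if_neg hcon]
      refine ⟨h3.1, h3.2.trans (pow_le_pow_right₀ hz₀.le ?_)⟩
      exact Nat.pow_le_pow_right (by norm_num) (by have := mem_range.1 hj; omega)
  · -- total mass
    have h1 : ∑ s : Finset (Fin n) with s.Nonempty, h s * ∏ i ∈ s, g i =
        ∑ s : Finset (Fin n) with s.Nonempty,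
          (1 / (J : ℝ)) * ∑ j ∈ range J, ht p g T0 z₀ j s * ∏ i ∈ s, g i := by
      refine Finset.sum_congr rfl (fun s hs => ?_)
      rw [hne s (mem_filter.1 hs).2, mul_assoc, Finset.sum_mul]
    rw [h1, ← Finset.mul_sum, Finset.sum_comm]
    have h2 : ∀ j ∈ range J,
        ∑ s : Finset (Fin n) with s.Nonempty, ht p g T0 z₀ j s * ∏ i ∈ s, g i = 1 := by
      intro j hj
      have hj' := mem_range.1 hj
      have h3 : ∑ s : Finset (Fin n) with s.Nonempty, ht p g T0 z₀ j s * ∏ i ∈ s, g i
          = (1 / A j) * Aw p g T0 (z₀ ^ (2 ^ j)) := by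
        unfold Aw
        rw [sum_two_filters', Finset.mul_sum]
        refine Finset.sum_congr rfl (fun s _ => ?_)
        unfold ht
        split_ifs <;> simp [A]
      rw [h3]
      change (1 / A j) * A j = 1
      rw [one_div, inv_mul_cancel₀ (hA0 j hj').ne']
    rw [Finset.sum_congr rfl h2]
    simp only [sum_const, card_range, nsmul_eq_mul, mul_one]
    field_simp
  · -- the cost
    have hL0 : ∀ s : Finset (Fin n), 0 ≤ Real.log (∏ i ∈ s, p i) :=
      fun s => Real.log_nonneg (hP1 s)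
    have h1 : ∑ s : Finset (Fin n) with s.Nonempty,
        (h s) ^ 2 * (∏ i ∈ s, g i) * Real.log (∏ i ∈ s, p i) =
        (1 / (J : ℝ)) ^ 2 * ∑ i ∈ range J, ∑ j ∈ range J,
          ∑ s : Finset (Fin n) with s.Nonempty, ht p g T0 z₀ i s * ht p g T0 z₀ j s *
            ((∏ i ∈ s, g i) * Real.log (∏ i ∈ s, p i)) := by
      have h2 : ∀ s ∈ (univ.filter (fun s : Finset (Fin n) => s.Nonempty)),
          (h s) ^ 2 * (∏ i ∈ s, g i) * Real.log (∏ i ∈ s, p i) =
          (1 / (J : ℝ)) ^ 2 * ∑ i ∈ range J, ∑ j ∈ range J,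
            ht p g T0 z₀ i s * ht p g T0 z₀ j s *
            ((∏ i ∈ s, g i) * Real.log (∏ i ∈ s, p i)) := by
        intro s hs
        rw [hne s (mem_filter.1 hs).2, mul_pow, pow_two (∑ j ∈ range J, ht p g T0 z₀ j s),
          Finset.sum_mul_sum]
        simp only [Finset.mul_sum, Finset.sum_mul]
        refine Finset.sum_congr rfl (fun i _ => Finset.sum_congr rfl (fun j _ => ?_))
        ring
      rw [Finset.sum_congr rfl h2, ← Finset.mul_sum]
      congr 1
      rw [Finset.sum_comm]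
      refine Finset.sum_congr rfl (fun i _ => ?_)
      rw [Finset.sum_comm]
    rw [h1]
    -- bound of one term
    have hle : ∀ i < J, ∀ j < J, i ≤ j →
        ∑ s : Finset (Fin n) with s.Nonempty, ht p g T0 z₀ i s * ht p g T0 z₀ j s *
            ((∏ i ∈ s, g i) * Real.log (∏ i ∈ s, p i)) ≤ (1 / lam) * (2 ^ i / 2 ^ j) := by
      intro i hi j hj hij
      have hlz : 0 ≤ 2 ^ i * Real.log z₀ := by positivity
      calc ∑ s : Finset (Fin n) with s.Nonempty, ht p g T0 z₀ i s * ht p g T0 z₀ j s *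
            ((∏ i ∈ s, g i) * Real.log (∏ i ∈ s, p i))
          ≤ ∑ s : Finset (Fin n) with s.Nonempty,
              (if T0 ≤ ∏ i ∈ s, p i ∧ ∏ i ∈ s, p i ≤ z₀ ^ (2 ^ i) then
                (1 / A i) * (1 / A j) * (2 ^ i * Real.log z₀) * ∏ i ∈ s, g i else 0) := by
            refine Finset.sum_le_sum (fun s _ => ?_)
            by_cases hc : T0 ≤ ∏ i ∈ s, p i ∧ ∏ i ∈ s, p i ≤ z₀ ^ (2 ^ i)
            · rw [if_pos hc]
              have e1 : ht p g T0 z₀ i s = 1 / A i := by
                unfold ht; rw [if_pos hc]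
              have e2 : ht p g T0 z₀ j s ≤ 1 / A j := by
                unfold ht
                split_ifs
                · exact le_rfl
                · exact div_nonneg zero_le_one (hA0 j hj).le
              have e3 : Real.log (∏ i ∈ s, p i) ≤ 2 ^ i * Real.log z₀ := by
                have := Real.log_le_log (hPpos s) hc.2
                rwa [Real.log_pow, Nat.cast_pow, Nat.cast_ofNat] at this
              rw [e1]
              have e4 : (0 : ℝ) ≤ 1 / A i := div_nonneg zero_le_one (hA0 i hi).le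
              calc 1 / A i * ht p g T0 z₀ j s * ((∏ i ∈ s, g i) * Real.log (∏ i ∈ s, p i))
                  ≤ 1 / A i * (1 / A j) * ((∏ i ∈ s, g i) * (2 ^ i * Real.log z₀)) := by
                    refine mul_le_mul (mul_le_mul_of_nonneg_left e2 e4)
                      (mul_le_mul_of_nonneg_left e3 (hGpos s).le)
                      (mul_nonneg (hGpos s).le (hL0 s)) ?_
                    exact mul_nonneg e4 (div_nonneg zero_le_one (hA0 j hj).le)
                _ = _ := by ring
            · rw [if_neg hc]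
              have e1 : ht p g T0 z₀ i s = 0 := by
                unfold ht; rw [if_neg hc]
              rw [e1]; simp
        _ = (1 / A i) * (1 / A j) * (2 ^ i * Real.log z₀) * A i := by
            change _ = _ * Aw p g T0 (z₀ ^ (2 ^ i))
            unfold Aw
            rw [sum_two_filters', Finset.mul_sum]
            refine Finset.sum_congr rfl (fun s _ => ?_)
            split_ifs <;> simp
        _ = (2 ^ i * Real.log z₀) / A j := by
            have := (hA0 i hi).ne'
            have := (hA0 j hj).ne'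
            field_simp
        _ ≤ (2 ^ i * Real.log z₀) / (lam * (2 ^ j * Real.log z₀)) := by
            exact div_le_div_of_nonneg_left hlz (by positivity) (hAl j hj)
        _ = (1 / lam) * (2 ^ i / 2 ^ j) := by
            field_simp
    have hT : ∀ i < J, ∀ j < J,
        ∑ s : Finset (Fin n) with s.Nonempty, ht p g T0 z₀ i s * ht p g T0 z₀ j s *
            ((∏ i ∈ s, g i) * Real.log (∏ i ∈ s, p i)) ≤
          (1 / lam) * ((if i ≤ j then (2 : ℝ) ^ i / 2 ^ j else 0) +
            (if j ≤ i then (2 : ℝ) ^ j / 2 ^ i else 0)) := by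
      intro i hi j hj
      rcases le_total i j with hij | hij
      · refine (hle i hi j hj hij).trans ?_
        rw [if_pos hij]
        refine mul_le_mul_of_nonneg_left ?_ (by positivity)
        have : (0 : ℝ) ≤ if j ≤ i then (2 : ℝ) ^ j / 2 ^ i else 0 := by
          split_ifs <;> positivity
        linarith
      · have h5 := hle j hj i hi hij
        have h6 : ∑ s : Finset (Fin n) with s.Nonempty, ht p g T0 z₀ i s * ht p g T0 z₀ j s *
            ((∏ i ∈ s, g i) * Real.log (∏ i ∈ s, p i)) =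
            ∑ s : Finset (Fin n) with s.Nonempty, ht p g T0 z₀ j s * ht p g T0 z₀ i s *
            ((∏ i ∈ s, g i) * Real.log (∏ i ∈ s, p i)) := by
          refine Finset.sum_congr rfl (fun s _ => ?_)
          ring
        rw [h6]
        refine h5.trans ?_
        rw [if_pos hij]
        refine mul_le_mul_of_nonneg_left ?_ (by positivity)
        have : (0 : ℝ) ≤ if i ≤ j then (2 : ℝ) ^ i / 2 ^ j else 0 := by
          split_ifs <;> positivity
        linarith
    have hsum : ∑ i ∈ range J, ∑ j ∈ range J,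
          ∑ s : Finset (Fin n) with s.Nonempty, ht p g T0 z₀ i s * ht p g T0 z₀ j s *
            ((∏ i ∈ s, g i) * Real.log (∏ i ∈ s, p i)) ≤ (1 / lam) * (4 * J) := by
      calc _ ≤ ∑ i ∈ range J, ∑ j ∈ range J,
          (1 / lam) * ((if i ≤ j then (2 : ℝ) ^ i / 2 ^ j else 0) +
            (if j ≤ i then (2 : ℝ) ^ j / 2 ^ i else 0)) :=
            Finset.sum_le_sum (fun i hi => Finset.sum_le_sum (fun j hj =>
              hT i (mem_range.1 hi) j (mem_range.1 hj)))
        _ = (1 / lam) * (∑ i ∈ range J, ∑ j ∈ range J,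
              (if i ≤ j then (2 : ℝ) ^ i / 2 ^ j else 0) +
            ∑ i ∈ range J, ∑ j ∈ range J, (if j ≤ i then (2 : ℝ) ^ j / 2 ^ i else 0)) := by
            simp only [← Finset.mul_sum, Finset.sum_add_distrib]
        _ ≤ (1 / lam) * (2 * J + 2 * J) := by
            refine mul_le_mul_of_nonneg_left (add_le_add ?_ ?_) (by positivity)
            · rw [Finset.sum_comm]
              calc ∑ j ∈ range J, ∑ i ∈ range J, (if i ≤ j then (2 : ℝ) ^ i / 2 ^ j else 0)
                  ≤ ∑ _j ∈ range J, (2 : ℝ) := Finset.sum_le_sum (fun j _ => sum_half_le J j)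
                _ = 2 * J := by simp [mul_comm]
            · calc ∑ i ∈ range J, ∑ j ∈ range J, (if j ≤ i then (2 : ℝ) ^ j / 2 ^ i else 0)
                  ≤ ∑ _i ∈ range J, (2 : ℝ) := Finset.sum_le_sum (fun i _ => sum_half_le J i)
                _ = 2 * J := by simp [mul_comm]
        _ = (1 / lam) * (4 * J) := by ring
    calc (1 / (J : ℝ)) ^ 2 * ∑ i ∈ range J, ∑ j ∈ range J,
          ∑ s : Finset (Fin n) with s.Nonempty, ht p g T0 z₀ i s * ht p g T0 z₀ j s *
            ((∏ i ∈ s, g i) * Real.log (∏ i ∈ s, p i))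
        ≤ (1 / (J : ℝ)) ^ 2 * ((1 / lam) * (4 * J)) :=
          mul_le_mul_of_nonneg_left hsum (by positivity)
      _ = 4 / (lam * J) := by
          field_simp

end Pool.Agent.K7.H60.TL
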