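import Pool.Agent.K7.H60.TL.PB
import Pool.Agent.H256R2.SC.V1

/-!
Transfer of pair correlations from the model to the integers.
-/

set_option autoImplicit false
set_option linter.unusedSectionVars false

namespace Pool.Agent.K7.H60.TL

open Finset Pool.Agent.H256R2.SC

open scoped Classical

variable {n : ℕ} {κ : Type} [Fintype κ] [DecidableEq κ]

/-- the event that the colours agree with `D` -/
def Ev (D x : Col n κ) : Prop := ∀ i, D i ≠ none → x i = D i

theorem transfer2 {α : Type} [DecidableEq α] (𝒜 : Finset α) (col col' : α → Col n κ)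
    (p : Fin n → ℝ) (μ : Fin n → Option κ × Option κ → ℝ)
    (N Err Q B B' : ℝ) (hErr : 0 ≤ Err) (hB : 0 ≤ B)
    (hcnt : ∀ D D' : Col n κ, qq p D ≤ Q → qq p D' ≤ Q →
      |((𝒜.filter (fun a => Ev D (col a) ∧ Ev D' (col' a))).card : ℝ) -
        N * E2 μ (fun x x' => ind D x * ind D' x')| ≤ Err)
    (F F' : Col n κ → ℝ) (hF : Lv p Q B F) (hF' : Lv p Q B' F') :
    |∑ a ∈ 𝒜, F (col a) * F' (col' a) - N * E2 μ (fun x x' => F x * F' x')| ≤
      Err * (B * B') := by
  obtain ⟨f, hf1, hf2, hf3⟩ := hF
  obtain ⟨f', hf1', hf2', hf3'⟩ := hF'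
  have hind : ∀ (D x : Col n κ), ind D x = if Ev D x then (1 : ℝ) else 0 := by
    intro D x
    unfold ind Ev
    by_cases h : ∀ i, D i ≠ none → x i = D i
    · rw [if_pos h, if_pos h]
    · rw [if_neg h, if_neg h]
  have h1 : ∑ a ∈ 𝒜, F (col a) * F' (col' a) = ∑ D, ∑ D', f D * f' D' *
      ((𝒜.filter (fun a => Ev D (col a) ∧ Ev D' (col' a))).card : ℝ) := by
    simp_rw [hf1, hf1', sum_mul_sum]
    rw [sum_comm]
    apply sum_congr rfl
    intro D _
    rw [sum_comm]
    apply sum_congr rfl
    intro D' _
    have e1 : ∀ a, f D * ind D (col a) * (f' D' * ind D' (col' a)) =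
        f D * f' D' * (if Ev D (col a) ∧ Ev D' (col' a) then 1 else 0) := by
      intro a
      rw [hind, hind, ite_and]
      split_ifs <;> ring
    simp only [e1]
    rw [← mul_sum, ← sum_filter, sum_const, nsmul_eq_mul, mul_one]
  have h2 : E2 μ (fun x x' => F x * F' x') = ∑ D, ∑ D', f D * f' D' *
      E2 μ (fun x x' => ind D x * ind D' x') := by
    unfold E2
    simp_rw [hf1, hf1', sum_mul_sum, mul_sum]
    rw [sum_comm]
    apply sum_congr rfl
    intro D _
    rw [sum_comm]
    apply sum_congr rfl
    intro D' _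
    apply sum_congr rfl
    intro x _
    ring
  rw [h1, h2, mul_sum, ← sum_sub_distrib]
  have h3 : ∀ D D' : Col n κ, |f D * f' D' *
      ((𝒜.filter (fun a => Ev D (col a) ∧ Ev D' (col' a))).card : ℝ) -
      N * (f D * f' D' * E2 μ (fun x x' => ind D x * ind D' x'))| ≤ |f D| * |f' D'| * Err := by
    intro D D'
    have e1 : f D * f' D' * ((𝒜.filter (fun a => Ev D (col a) ∧ Ev D' (col' a))).card : ℝ) -
        N * (f D * f' D' * E2 μ (fun x x' => ind D x * ind D' x')) =
        f D * f' D' * (((𝒜.filter (fun a => Ev D (col a) ∧ Ev D' (col' a))).card : ℝ) -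
        N * E2 μ (fun x x' => ind D x * ind D' x')) := by ring
    rw [e1, abs_mul, abs_mul]
    by_cases hD : f D = 0
    · simp [hD]
    by_cases hD' : f' D' = 0
    · simp [hD']
    exact mul_le_mul_of_nonneg_left (hcnt D D' (hf3 D hD) (hf3' D' hD'))
      (mul_nonneg (abs_nonneg _) (abs_nonneg _))
  calc |∑ D, (∑ D', f D * f' D' *
      ((𝒜.filter (fun a => Ev D (col a) ∧ Ev D' (col' a))).card : ℝ) -
      N * ∑ D', f D * f' D' * E2 μ (fun x x' => ind D x * ind D' x'))|
      ≤ ∑ D, |∑ D', f D * f' D' *
      ((𝒜.filter (fun a => Ev D (col a) ∧ Ev D' (col' a))).card : ℝ) -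
      N * ∑ D', f D * f' D' * E2 μ (fun x x' => ind D x * ind D' x')| :=
        abs_sum_le_sum_abs _ _
    _ ≤ ∑ D, ∑ D', |f D| * |f' D'| * Err := by
        apply sum_le_sum
        intro D _
        rw [mul_sum, ← sum_sub_distrib]
        refine (abs_sum_le_sum_abs _ _).trans (sum_le_sum fun D' _ => h3 D D')
    _ = Err * ((∑ D, |f D|) * ∑ D', |f' D'|) := by
        rw [sum_mul_sum, mul_sum]
        apply sum_congr rfl
        intro D _
        rw [mul_sum]
        apply sum_congr rfl
        intro D' _
        ring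
    _ ≤ Err * (B * B') := by
        apply mul_le_mul_of_nonneg_left _ hErr
        exact mul_le_mul hf2 hf2' (sum_nonneg fun _ _ => abs_nonneg _) hB

/-- local probabilities of elementary pair events -/
noncomputable def nu2 (g : ℝ) (m : κ → κ → Prop) (a b : Option κ) : ℝ :=
  match a, b with
  | none, none => 1
  | some _, none => g
  | none, some _ => g
  | some k, some l => if m k l then g else 0

theorem E2_ind (g : Fin n → ℝ) (m : Fin n → κ → κ → Prop) (hm : ∀ i, Mt (m i))
    (D D' : Col n κ) :
    E2 (fun i => mu2 (g i) (m i)) (fun x x' => ind D x * ind D' x') =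
      ∏ i, nu2 (g i) (m i) (D i) (D' i) := by
  unfold E2
  have h1 : ∀ x : Fin n → Option κ × Option κ,
      (∏ i, mu2 (g i) (m i) (x i)) * (ind D (fs x) * ind D' (sn x)) =
      ∏ i, (mu2 (g i) (m i) (x i) * ((if D i ≠ none → (x i).1 = D i then (1 : ℝ) else 0) *
        (if D' i ≠ none → (x i).2 = D' i then (1 : ℝ) else 0))) := by
    intro x
    rw [ind_eq_prod, ind_eq_prod, prod_mul_distrib, prod_mul_distrib]
    rfl
  rw [Finset.sum_congr rfl (fun x _ => h1 x)]
  have h2 := Finset.prod_univ_sum (fun _ : Fin n => (Finset.univ : Finset (Option κ × Option κ)))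
    (fun i c => (mu2 (g i) (m i) c * ((if D i ≠ none → c.1 = D i then (1 : ℝ) else 0) *
        (if D' i ≠ none → c.2 = D' i then (1 : ℝ) else 0))))
  rw [Fintype.piFinset_univ] at h2
  rw [← h2]
  apply Finset.prod_congr rfl
  intro i _
  have hmi := hm i
  generalize D i = a
  generalize D' i = b
  cases a with
  | none =>
    cases b with
    | none =>
      simp only [ne_eq, not_true_eq_false, false_implies, if_true, mul_one, nu2]
      exact mu2_total (g i) hmi
    | some l =>
      simp only [ne_eq, not_true_eq_false, false_implies, if_true, one_mul, nu2, reduceCtorEq,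
        not_false_eq_true, true_implies]
      rw [Fintype.sum_prod_type]
      refine Eq.trans ?_ (mu2_col (g i) hmi l)
      apply sum_congr rfl
      intro c _
      rw [sum_eq_single (some l)]
      · simp
      · intro c' _ hc'
        rw [if_neg hc', mul_zero]
      · intro hh
        exact absurd (mem_univ _) hh
  | some k =>
    cases b with
    | none =>
      simp only [ne_eq, not_true_eq_false, false_implies, if_true, mul_one, nu2, reduceCtorEq,
        not_false_eq_true, true_implies]
      rw [Fintype.sum_prod_type, sum_eq_single (some k)]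
      · simp only [if_true, mul_one]
        exact mu2_row (g i) hmi k
      · intro c _ hc
        apply sum_eq_zero
        intro c' _
        rw [if_neg hc, mul_zero]
      · intro hh
        exact absurd (mem_univ _) hh
    | some l =>
      simp only [ne_eq, nu2, reduceCtorEq, not_false_eq_true, true_implies]
      rw [sum_eq_single ((some k, some l) : Option κ × Option κ)]
      · simp [mu2]
      · intro c _ hc
        by_cases h3 : c.1 = some k
        · have h4 : c.2 ≠ some l := fun h5 => hc (Prod.ext h3 h5)
          rw [if_neg h4, mul_zero, mul_zero]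
        · rw [if_neg h3, zero_mul, mul_zero]
      · intro hh
        exact absurd (mem_univ _) hh

end Pool.Agent.K7.H60.TL
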